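import Pool.Agent.Helper26.LU.AC3b

/-!
# Project LU: the computation AC3, conclusion
-/

namespace Pool.Agent.Helper26.LU.AC3

open Pool.Agent.Helper26.LU Polynomial

/-- One step of the iteration. -/
noncomputable def stepF (N : ℕ) (p q : ℂ) (z : Fin 4 → ℂ) (P : ℂ[X]) : ℂ[X] :=
  algebraMap ℝ ℂ[X] (3 / 8) *
    ∑ j, (∑ l ∈ Finset.Icc 2 N, C (aseq p q l) * (C (z j) * X + P) ^ l) * (C (z j) * X)

theorem algC (r : ℝ) : algebraMap ℝ ℂ[X] r = C (r : ℂ) := by
  rw [Polynomial.algebraMap_apply]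
  rfl

/-- The explicit translation. -/
noncomputable def tp (c d p q : ℂ) : ℂ[X] := ∑ n ∈ Finset.range 16, C (tt c d p q n) * X ^ n

theorem tp_coeff {c d p q : ℂ} : ∀ n ≤ 15, (tp c d p q).coeff n = tt c d p q n := by
  intro n hn
  rw [tp, finsetSum_coeff]
  simp only [coeff_C_mul, coeff_X_pow]
  rw [Finset.sum_eq_single n]
  · simp
  · intro m _ hm
    rw [if_neg (Ne.symm hm), mul_zero]
  · intro h
    exact absurd (Finset.mem_range.2 (by omega)) h

section main

variable {N : ℕ} {p q c d : ℂ} {z : Fin 4 → ℂ}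

theorem step_coeff (hN : 15 ≤ N) (h1 : ∑ j, z j = 0) (h2 : ∑ j, z j ^ 2 = 0)
    (h3 : ∑ j, z j ^ 3 = 3 * c) (h4 : ∀ j, z j ^ 4 = c * z j + d) {P : ℂ[X]}
    (hP : ∀ n ≤ 15, P.coeff n = tt c d p q n) :
    ∀ n ≤ 15, (stepF N p q z P).coeff n = tt c d p q n := by
  intro n hn
  rw [stepF, algC, coeff_C_mul, finsetSum_coeff]
  cases n with
  | zero =>
    have : ∀ j : Fin 4, ((∑ l ∈ Finset.Icc 2 N, C (aseq p q l) * (C (z j) * X + P) ^ l) *
        (C (z j) * X)).coeff 0 = 0 := by
      intro j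
      rw [← mul_assoc, coeff_mul_X_zero]
    simp [this, tt]
  | succ m =>
    have hm : m ≤ 14 := by omega
    have : ∀ j : Fin 4, ((∑ l ∈ Finset.Icc 2 N, C (aseq p q l) * (C (z j) * X + P) ^ l) *
        (C (z j) * X)).coeff (m + 1) = (phA c d p q m + phB c d p q m * z j
          + phC c d p q m * z j ^ 2 + phD c d p q m * z j ^ 3) * z j := by
      intro j
      rw [← mul_assoc, coeff_mul_X, coeff_mul_C, ph_coeff hN (h4 j) (uu_coeff hP) m (by omega),
        ph_split m (by omega)]
    simp only [this]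
    rw [tr1 h1 h2 h3 h4, ← tt_table m hm]
    push_cast
    ring

theorem step_contr {P Q : ℂ[X]} {m : ℕ} (h : X ^ m ∣ P - Q) :
    X ^ (m + 1) ∣ stepF N p q z P - stepF N p q z Q := by
  have e : stepF N p q z P - stepF N p q z Q = algebraMap ℝ ℂ[X] (3 / 8) *
      ∑ j, (∑ l ∈ Finset.Icc 2 N, C (aseq p q l) *
        ((C (z j) * X + P) ^ l - (C (z j) * X + Q) ^ l)) * (C (z j) * X) := by
    simp only [stepF, mul_sub, Finset.sum_sub_distrib, sub_mul]
  rw [e]
  refine Dvd.dvd.mul_left (Finset.dvd_sum fun j _ => ?_) _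
  rw [pow_succ]
  refine mul_dvd_mul (Finset.dvd_sum fun l _ => ?_) (Dvd.intro_left _ rfl)
  refine Dvd.dvd.mul_left ?_ _
  refine dvd_trans ?_ (sub_dvd_pow_sub_pow _ _ l)
  have : C (z j) * X + P - (C (z j) * X + Q) = P - Q := by ring
  rw [this]
  exact h

theorem tau_near (hN : 15 ≤ N) (h1 : ∑ j, z j = 0) (h2 : ∑ j, z j ^ 2 = 0)
    (h3 : ∑ j, z j ^ 3 = 3 * c) (h4 : ∀ j, z j ^ 4 = c * z j + d) (k : ℕ) :
    ∀ m ≤ 16, m ≤ k + 3 → X ^ m ∣ tauI N (fun l => C (aseq p q l))
      (fun j => C (z j) * X) k - tp c d p q := by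
  induction k with
  | zero =>
    intro m _ hm
    have e : tauI N (fun l => C (aseq p q l)) (fun j => C (z j) * X) 0 - tp c d p q
        = -tp c d p q := by
      rw [tauI, zero_sub]
    rw [e, dvd_neg, X_pow_dvd_iff]
    intro n hn
    rw [tp_coeff n (by omega)]
    have : n < 3 := by omega
    interval_cases n <;> simp [tt]
  | succ k ih =>
    intro m hm16 hm
    have e : tauI N (fun l => C (aseq p q l)) (fun j => C (z j) * X) (k + 1) - tp c d p q
        = (stepF N p q z (tauI N (fun l => C (aseq p q l)) (fun j => C (z j) * X) k)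
            - stepF N p q z (tp c d p q)) + (stepF N p q z (tp c d p q) - tp c d p q) := by
      have : tauI N (fun l => C (aseq p q l)) (fun j => C (z j) * X) (k + 1)
          = stepF N p q z (tauI N (fun l => C (aseq p q l)) (fun j => C (z j) * X) k) := rfl
      rw [this]
      ring
    rw [e]
    apply dvd_add
    · cases m with
      | zero => simp
      | succ m => exact step_contr (ih m (by omega) (by omega))
    · rw [X_pow_dvd_iff]
      intro n hn
      rw [coeff_sub, step_coeff hN h1 h2 h3 h4 tp_coeff n (by omega), tp_coeff n (by omega),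
        sub_self]

end main

theorem gAC3 : G_AC3 := by
  intro M N p q c d z hN hM h1 h2 h3 h4 w hw
  set T : ℂ[X] := tauI N (fun l => C (aseq p q l)) (fun j => C (z j) * X) M with hT
  have hTc : ∀ n ≤ 15, T.coeff n = tt c d p q n := by
    intro n hn
    have h := tau_near (p := p) (q := q) hN h1 h2 h3 h4 M 16 le_rfl (by omega)
    rw [X_pow_dvd_iff] at h
    have h5 := h n (by omega)
    rw [coeff_sub, tp_coeff n hn] at h5
    exact sub_eq_zero.1 h5
  have hph : ∀ j, ∀ n ≤ 15, (phN M N (fun l => C (aseq p q l))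
      (fun j => C (z j) * X) j).coeff n = phA c d p q n + phB c d p q n * z j
          + phC c d p q n * z j ^ 2 + phD c d p q n * z j ^ 3 := by
    intro j n hn
    rw [← ph_split n hn, ← ph_coeff hN (h4 j) (uu_coeff hTc) n hn]
    rfl
  set F : Fin 4 → ℂ[X] := fun j => phN M N (fun l => C (aseq p q l)) (fun j => C (z j) * X) j
    with hF
  have hS1 : ∀ n ≤ 15, (∑ j, F j).coeff n = s1 c d p q n := by
    intro n hn
    rw [finsetSum_coeff]
    simp only [hF, hph _ n hn]
    rw [tr0 h1 h2 h3]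
    rfl
  have hS2 : (∑ j, F j ^ 2).coeff w = ∑ i ∈ Finset.range (w + 1), bil c d p q i (w - i) := by
    rw [finsetSum_coeff]
    have : ∀ j, (F j ^ 2).coeff w = ∑ i ∈ Finset.range (w + 1),
        (phA c d p q i + phB c d p q i * z j + phC c d p q i * z j ^ 2
          + phD c d p q i * z j ^ 3) * (phA c d p q (w - i) + phB c d p q (w - i) * z j
          + phC c d p q (w - i) * z j ^ 2 + phD c d p q (w - i) * z j ^ 3) := by
      intro j
      rw [pow_two, coeff_mul_cv, cv]
      apply Finset.sum_congr rfl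
      intro i hi
      have := Finset.mem_range.1 hi
      simp only [hF]
      rw [hph j i (by omega), hph j (w - i) (by omega)]
    simp only [this]
    rw [Finset.sum_comm]
    apply Finset.sum_congr rfl
    intro i _
    rw [tr2 h1 h2 h3 h4]
    rfl
  have hS3 : ((∑ j, F j) ^ 2).coeff w = cv (s1 c d p q) (s1 c d p q) w := by
    rw [pow_two, coeff_mul_cv]
    exact cv_congr hw hS1 hS1
  have hNl : NlX M N (aseq p q) z = ∑ j, F j - C (3 / 16) *
      (C 4 * ∑ j, F j ^ 2 - (∑ j, F j) ^ 2) := by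
    have e4 : (C 4 : ℂ[X]) = 4 := map_ofNat C 4
    rw [NlX, Nl, algC, e4]
    have e5 : ((3 / 16 : ℝ) : ℂ) = 3 / 16 := by push_cast; rfl
    rw [e5]
  rw [hNl, coeff_sub, coeff_C_mul, coeff_sub, coeff_C_mul, hS1 w hw, hS2, hS3]
  exact final_table w hw

end Pool.Agent.Helper26.LU.AC3
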