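import Pool.Agent.Helper26.LU.GoalsB

/-!
# Project LU: the computation AC3 (generated by a script)
-/

set_option linter.unusedVariables false
set_option linter.unusedSimpArgs false
set_option linter.unreachableTactic false
set_option linter.unusedTactic false
set_option linter.unnecessarySeqFocus false

namespace Pool.Agent.Helper26.LU.AC3

open Pool.Agent.Helper26.LU Polynomial

/-- Convolution of coefficient sequences. -/
noncomputable def cv (f g : ℕ → ℂ) (n : ℕ) : ℂ := ∑ i ∈ Finset.range (n + 1), f i * g (n - i)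

theorem coeff_mul_cv (P Q : ℂ[X]) (n : ℕ) : (P * Q).coeff n = cv P.coeff Q.coeff n := by
  rw [Polynomial.coeff_mul, Finset.Nat.sum_antidiagonal_eq_sum_range_succ_mk]
  rfl

theorem cv_congr {f f' g g' : ℕ → ℂ} {n : ℕ} (hn : n ≤ 15) (hf : ∀ m ≤ 15, f m = f' m)
    (hg : ∀ m ≤ 15, g m = g' m) : cv f g n = cv f' g' n := by
  unfold cv
  apply Finset.sum_congr rfl
  intro i hi
  have := Finset.mem_range.1 hi
  rw [hf i (by omega), hg (n - i) (by omega)]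

/-- The coefficients of the translation. -/
noncomputable def tt (c d p q : ℂ) : ℕ → ℂ
  | 3 => (9/8)*c*p
  | 6 => (9/8)*c^2*q
  | 7 => (459/128)*c*d*p^3
  | 8 => -(18/7)*d^2*p*q
  | 9 => (1215/1024)*c^3*p^4
  | 10 => (16119/896)*c^2*d*p^2*q
  | 11 => -(99/16)*c*d^2*q^2 + (842967/20480)*c*d^2*p^5
  | 12 => -(17739/308)*d^3*p^3*q + (2210085/78848)*c^4*p^3*q
  | 13 => -(4833/224)*c^3*d*p*q^2 + (15080823/40960)*c^3*d*p^6
  | 14 => (1160263035/4100096)*c^2*d^2*p^4*q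
  | 15 => -(523179/1792)*c*d^3*p^2*q^2 + (43807797/2293760)*c*d^3*p^7 - (2187/128)*c^5*p^2*q^2 + (11154852549/18350080)*c^5*p^7
  | _ => 0

/-- The coefficients of `z X + t`. -/
noncomputable def uu (z c d p q : ℂ) : ℕ → ℂ
  | 1 => z
  | 3 => (9/8)*c*p
  | 6 => (9/8)*c^2*q
  | 7 => (459/128)*c*d*p^3
  | 8 => -(18/7)*d^2*p*q
  | 9 => (1215/1024)*c^3*p^4
  | 10 => (16119/896)*c^2*d*p^2*q
  | 11 => -(99/16)*c*d^2*q^2 + (842967/20480)*c*d^2*p^5
  | 12 => -(17739/308)*d^3*p^3*q + (2210085/78848)*c^4*p^3*q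
  | 13 => -(4833/224)*c^3*d*p*q^2 + (15080823/40960)*c^3*d*p^6
  | 14 => (1160263035/4100096)*c^2*d^2*p^4*q
  | 15 => -(523179/1792)*c*d^3*p^2*q^2 + (43807797/2293760)*c*d^3*p^7 - (2187/128)*c^5*p^2*q^2 + (11154852549/18350080)*c^5*p^7
  | _ => 0

/-- The coefficients of the power 2, reduced. -/
noncomputable def U2 (z c d p q : ℂ) : ℕ → ℂ
  | 2 => z^2
  | 4 => (9/4)*z*c*p
  | 6 => (81/64)*c^2*p^2
  | 7 => (9/4)*z*c^2*q
  | 8 => (459/64)*z*c*d*p^3
  | 9 => (81/32)*c^3*p*q - (36/7)*z*d^2*p*q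
  | 10 => (4131/512)*c^2*d*p^4 + (1215/512)*z*c^3*p^4
  | 11 => -(81/14)*c*d^2*p^2*q + (16119/448)*z*c^2*d*p^2*q
  | 12 => (81/64)*c^4*q^2 + (10935/4096)*c^4*p^5 - (99/8)*z*c*d^2*q^2 + (842967/10240)*z*c*d^2*p^5
  | 13 => (43497/896)*c^3*d*p^3*q - (17739/154)*z*d^3*p^3*q + (2210085/39424)*z*c^4*p^3*q
  | 14 => -(8829/448)*c^2*d^2*p*q^2 + (2160027/20480)*c^2*d^2*p^6 - (4833/112)*z*c^3*d*p*q^2 + (15080823/20480)*z*c^3*d*p^6
  | 15 => -(364743/2464)*c*d^3*p^4*q + (2591595/39424)*c^5*p^4*q + (1160263035/2050048)*z*c^2*d^2*p^4*q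
  | _ => 0

/-- The coefficients of the power 3, reduced. -/
noncomputable def U3 (z c d p q : ℂ) : ℕ → ℂ
  | 3 => z^3
  | 5 => (27/8)*z^2*c*p
  | 7 => (243/64)*z*c^2*p^2
  | 8 => (27/8)*z^2*c^2*q
  | 9 => (729/512)*c^3*p^3 + (1377/128)*z^2*c*d*p^3
  | 10 => (243/32)*z*c^3*p*q - (54/7)*z^2*d^2*p*q
  | 11 => (12393/512)*z*c^2*d*p^4 + (3645/1024)*z^2*c^3*p^4
  | 12 => (2187/512)*c^4*p^2*q - (243/14)*z*c*d^2*p^2*q + (48357/896)*z^2*c^2*d*p^2*q
  | 13 => (111537/8192)*c^3*d*p^5 + (243/64)*z*c^4*q^2 + (32805/4096)*z*c^4*p^5 - (297/16)*z^2*c*d^2*q^2 + (2528901/20480)*z^2*c*d^2*p^5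
  | 14 => -(2187/224)*c^2*d^2*p^3*q + (130491/896)*z*c^3*d*p^3*q - (53217/308)*z^2*d^3*p^3*q + (6630255/78848)*z^2*c^4*p^3*q
  | 15 => (2187/512)*c^5*p*q^2 + (295245/65536)*c^5*p^6 - (26487/448)*z*c^2*d^2*p*q^2 + (6480081/20480)*z*c^2*d^2*p^6 - (14499/224)*z^2*c^3*d*p*q^2 + (45242469/40960)*z^2*c^3*d*p^6
  | _ => 0

/-- The coefficients of the power 4, reduced. -/
noncomputable def U4 (z c d p q : ℂ) : ℕ → ℂ
  | 4 => d + z*c
  | 6 => (9/2)*z^3*c*p
  | 8 => (243/32)*z^2*c^2*p^2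
  | 9 => (9/2)*z^3*c^2*q
  | 10 => (729/128)*z*c^3*p^3 + (459/32)*z^3*c*d*p^3
  | 11 => (243/16)*z^2*c^3*p*q - (72/7)*z^3*d^2*p*q
  | 12 => (6561/4096)*c^4*p^4 + (12393/256)*z^2*c^2*d*p^4 + (1215/256)*z^3*c^3*p^4
  | 13 => (2187/128)*z*c^4*p^2*q - (243/7)*z^2*c*d^2*p^2*q + (16119/224)*z^3*c^2*d*p^2*q
  | 14 => (111537/2048)*z*c^3*d*p^5 + (243/32)*z^2*c^4*q^2 + (32805/2048)*z^2*c^4*p^5 - (99/4)*z^3*c*d^2*q^2 + (842967/5120)*z^3*c*d^2*p^5
  | 15 => (6561/1024)*c^5*p^3*q - (2187/56)*z*c^2*d^2*p^3*q + (130491/448)*z^2*c^3*d*p^3*q - (17739/77)*z^3*d^3*p^3*q + (2210085/19712)*z^3*c^4*p^3*q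
  | _ => 0

/-- The coefficients of the power 5, reduced. -/
noncomputable def U5 (z c d p q : ℂ) : ℕ → ℂ
  | 5 => z*d + z^2*c
  | 7 => (45/8)*c*d*p + (45/8)*z*c^2*p
  | 9 => (405/32)*z^3*c^2*p^2
  | 10 => (45/8)*c^2*d*q + (45/8)*z*c^3*q
  | 11 => (2295/128)*c*d^2*p^3 + (2295/128)*z*c^2*d*p^3 + (3645/256)*z^2*c^3*p^3
  | 12 => -(90/7)*d^3*p*q - (90/7)*z*c*d^2*p*q + (405/16)*z^3*c^3*p*q
  | 13 => (6075/1024)*c^3*d*p^4 + (57105/4096)*z*c^4*p^4 + (20655/256)*z^3*c^2*d*p^4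
  | 14 => (80595/896)*c^2*d^2*p^2*q + (80595/896)*z*c^3*d*p^2*q + (10935/256)*z^2*c^4*p^2*q - (405/7)*z^3*c*d^2*p^2*q
  | 15 => -(495/16)*c*d^3*q^2 + (842967/4096)*c*d^3*p^5 + (59049/32768)*c^5*p^5 - (495/16)*z*c^2*d^2*q^2 + (842967/4096)*z*c^2*d^2*p^5 + (557685/4096)*z^2*c^3*d*p^5 + (405/32)*z^3*c^4*q^2 + (54675/2048)*z^3*c^4*p^5
  | _ => 0

/-- The coefficients of the power 6, reduced. -/
noncomputable def U6 (z c d p q : ℂ) : ℕ → ℂ
  | 6 => z^2*d + z^3*c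
  | 8 => (27/4)*z*c*d*p + (27/4)*z^2*c^2*p
  | 10 => (1215/64)*c^2*d*p^2 + (1215/64)*z*c^3*p^2
  | 11 => (27/4)*z*c^2*d*q + (27/4)*z^2*c^3*q
  | 12 => (1377/64)*z*c*d^2*p^3 + (1377/64)*z^2*c^2*d*p^3 + (3645/128)*z^3*c^3*p^3
  | 13 => (1215/32)*c^3*d*p*q - (108/7)*z*d^3*p*q + (1215/32)*z*c^4*p*q - (108/7)*z^2*c*d^2*p*q
  | 14 => (61965/512)*c^2*d^2*p^4 + (32805/256)*z*c^3*d*p^4 + (127575/4096)*z^2*c^4*p^4
  | 15 => -(1215/14)*c*d^3*p^2*q + (9477/448)*z*c^2*d^2*p^2*q + (48357/448)*z^2*c^3*d*p^2*q + (10935/128)*z^3*c^4*p^2*q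
  | _ => 0

/-- The coefficients of the power 7, reduced. -/
noncomputable def U7 (z c d p q : ℂ) : ℕ → ℂ
  | 7 => c*d + z*c^2 + z^3*d
  | 9 => (63/8)*z^2*c*d*p + (63/8)*z^3*c^2*p
  | 11 => (1701/64)*z*c^2*d*p^2 + (1701/64)*z^2*c^3*p^2
  | 12 => (63/8)*z^2*c^2*d*q + (63/8)*z^3*c^3*q
  | 13 => (25515/512)*c^3*d*p^3 + (25515/512)*z*c^4*p^3 + (3213/128)*z^2*c*d^2*p^3 + (3213/128)*z^3*c^2*d*p^3
  | 14 => (1701/32)*z*c^3*d*p*q - 18*z^2*d^3*p*q + (1701/32)*z^2*c^4*p*q - 18*z^3*c*d^2*p*q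
  | 15 => (86751/512)*z*c^2*d^2*p^4 + (182007/1024)*z^2*c^3*d*p^4 + (263655/4096)*z^3*c^4*p^4
  | _ => 0

/-- The coefficients of the power 8, reduced. -/
noncomputable def U8 (z c d p q : ℂ) : ℕ → ℂ
  | 8 => d^2 + 2*z*c*d + z^2*c^2
  | 10 => 9*c^2*d*p + 9*z*c^3*p + 9*z^3*c*d*p
  | 12 => (567/16)*z^2*c^2*d*p^2 + (567/16)*z^3*c^3*p^2
  | 13 => 9*c^3*d*q + 9*z*c^4*q + 9*z^3*c^2*d*q
  | 14 => (459/16)*c^2*d^2*p^3 + (6939/64)*z*c^3*d*p^3 + (5103/64)*z^2*c^4*p^3 + (459/16)*z^3*c*d^2*p^3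
  | 15 => -(144/7)*c*d^3*p*q - (144/7)*z*c^2*d^2*p*q + (567/8)*z^2*c^3*d*p*q - (144/7)*z^3*d^3*p*q + (567/8)*z^3*c^4*p*q
  | _ => 0

/-- The coefficients of the power 9, reduced. -/
noncomputable def U9 (z c d p q : ℂ) : ℕ → ℂ
  | 9 => z*d^2 + 2*z^2*c*d + z^3*c^2
  | 11 => (81/8)*c*d^2*p + (81/4)*z*c^2*d*p + (81/8)*z^2*c^3*p
  | 13 => (729/16)*c^3*d*p^2 + (729/16)*z*c^4*p^2 + (729/16)*z^3*c^2*d*p^2
  | 14 => (81/8)*c^2*d^2*q + (81/4)*z*c^3*d*q + (81/8)*z^2*c^4*q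
  | 15 => (4131/128)*c*d^3*p^3 + (4131/64)*z*c^2*d^2*p^3 + (1215/8)*z^2*c^3*d*p^3 + (15309/128)*z^3*c^4*p^3
  | _ => 0

/-- The coefficients of the power 10, reduced. -/
noncomputable def U10 (z c d p q : ℂ) : ℕ → ℂ
  | 10 => c^2*d + z*c^3 + z^2*d^2 + 2*z^3*c*d
  | 12 => (45/4)*z*c*d^2*p + (45/2)*z^2*c^2*d*p + (45/4)*z^3*c^3*p
  | 14 => (3645/64)*c^2*d^2*p^2 + (3645/32)*z*c^3*d*p^2 + (3645/64)*z^2*c^4*p^2
  | 15 => (45/4)*z*c^2*d^2*q + (45/2)*z^2*c^3*d*q + (45/4)*z^3*c^4*q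
  | _ => 0

/-- The coefficients of the power 11, reduced. -/
noncomputable def U11 (z c d p q : ℂ) : ℕ → ℂ
  | 11 => 2*c*d^2 + 3*z*c^2*d + z^2*c^3 + z^3*d^2
  | 13 => (99/8)*c^3*d*p + (99/8)*z*c^4*p + (99/8)*z^2*c*d^2*p + (99/4)*z^3*c^2*d*p
  | 15 => (4455/64)*z*c^2*d^2*p^2 + (4455/32)*z^2*c^3*d*p^2 + (4455/64)*z^3*c^4*p^2
  | _ => 0

/-- The coefficients of the power 12, reduced. -/
noncomputable def U12 (z c d p q : ℂ) : ℕ → ℂ
  | 12 => d^3 + 3*z*c*d^2 + 3*z^2*c^2*d + z^3*c^3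
  | 14 => 27*c^2*d^2*p + (81/2)*z*c^3*d*p + (27/2)*z^2*c^4*p + (27/2)*z^3*c*d^2*p
  | _ => 0

/-- The coefficients of the power 13, reduced. -/
noncomputable def U13 (z c d p q : ℂ) : ℕ → ℂ
  | 13 => c^3*d + z*d^3 + z*c^4 + 3*z^2*c*d^2 + 3*z^3*c^2*d
  | 15 => (117/8)*c*d^3*p + (351/8)*z*c^2*d^2*p + (351/8)*z^2*c^3*d*p + (117/8)*z^3*c^4*p
  | _ => 0

/-- The coefficients of the power 14, reduced. -/
noncomputable def U14 (z c d p q : ℂ) : ℕ → ℂ
  | 14 => 3*c^2*d^2 + 4*z*c^3*d + z^2*d^3 + z^2*c^4 + 3*z^3*c*d^2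
  | _ => 0

/-- The coefficients of the power 15, reduced. -/
noncomputable def U15 (z c d p q : ℂ) : ℕ → ℂ
  | 15 => 3*c*d^3 + 6*z*c^2*d^2 + 4*z^2*c^3*d + z^3*d^3 + z^3*c^4
  | _ => 0

/-- The coefficients of the value. -/
noncomputable def ph (z c d p q : ℂ) : ℕ → ℂ
  | 2 => z^2*p
  | 4 => (3/4)*d*p^2 + 3*z*c*p^2
  | 5 => z*d*q + z^2*c*q
  | 6 => (81/64)*c^2*p^3 - (9/16)*z^2*d*p^3 + (45/16)*z^3*c*p^3
  | 7 => (219/56)*c*d*p*q + (345/56)*z*c^2*p*q - (12/7)*z^3*d*p*q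
  | 8 => -(27/32)*d^2*p^4 + (27/16)*z*c*d*p^4 + (135/128)*z^2*c^2*p^4
  | 9 => (81/32)*c^3*p^2*q + (603/224)*z*d^2*p^2*q + (243/112)*z^2*c*d*p^2*q + (1161/112)*z^3*c^2*p^2*q
  | 10 => (33/8)*c^2*d*q^2 - (7047/5120)*c^2*d*p^5 + (33/8)*z*c^3*q^2 - (14337/5120)*z*c^3*p^5 - (3/2)*z^2*d^2*q^2 + (22599/2560)*z^2*d^2*p^5 - 3*z^3*c*d*q^2 + (26649/1280)*z^3*c*d*p^5
  | 11 => (593487/19712)*c*d^2*p^3*q + (87669/1232)*z*c^2*d*p^3*q + (245565/9856)*z^2*c^3*p^3*q - (5913/154)*z^3*d^2*p^3*q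
  | 12 => -(135/28)*d^3*p*q^2 + (17253/1280)*d^3*p^6 + (81/64)*c^4*p*q^2 + (63423/16384)*c^4*p^6 - 18*z*c*d^2*p*q^2 + (134379/640)*z*c*d^2*p^6 - (162/7)*z^2*c^2*d*p*q^2 + (1194831/5120)*z^2*c^2*d*p^6 + (333/112)*z^3*c^3*p*q^2 + (90153/1280)*z^3*c^3*p^6
  | 13 => (78751521/1025024)*c^3*d*p^4*q + (27129897/512512)*z*d^3*p^4*q + (431190945/4100096)*z*c^4*p^4*q + (19608075/512512)*z^2*c*d^2*p^4*q + (5855895/36608)*z^3*c^2*d*p^4*q
  | 14 => (101331/1792)*c^2*d^2*p^2*q^2 + (762765093/1146880)*c^2*d^2*p^7 - (6831/224)*z*c^3*d*p^2*q^2 + (1077305751/573440)*z*c^3*d*p^7 - (9855/224)*z^2*d^3*p^2*q^2 - (4105971/57344)*z^2*d^3*p^7 - (243/16)*z^2*c^4*p^2*q^2 + (1239428061/2293760)*z^2*c^4*p^7 - (36207/224)*z^3*c*d^2*p^2*q^2 + (19048041/286720)*z^3*c*d^2*p^7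
  | 15 => -(207/16)*c*d^3*q^3 + (13051156023/20500480)*c*d^3*p^5*q + (182533581/2523136)*c^5*p^5*q - (189/16)*z*c^2*d^2*q^3 + (9113936859/5125120)*z*c^2*d^2*p^5*q - (39/4)*z^2*c^3*d*q^3 + (6556799421/5125120)*z^2*c^3*d*p^5*q + 6*z^3*d^3*q^3 - (135513243/160160)*z^3*d^3*p^5*q + (57/32)*z^3*c^4*q^3 + (2226382929/5125120)*z^3*c^4*p^5*q
  | _ => 0

/-- Part of degree 0 in z. -/
noncomputable def phA (c d p q : ℂ) : ℕ → ℂ
  | 4 => (3/4)*d*p^2
  | 6 => (81/64)*c^2*p^3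
  | 7 => (219/56)*c*d*p*q
  | 8 => -(27/32)*d^2*p^4
  | 9 => (81/32)*c^3*p^2*q
  | 10 => (33/8)*c^2*d*q^2 - (7047/5120)*c^2*d*p^5
  | 11 => (593487/19712)*c*d^2*p^3*q
  | 12 => -(135/28)*d^3*p*q^2 + (17253/1280)*d^3*p^6 + (81/64)*c^4*p*q^2 + (63423/16384)*c^4*p^6
  | 13 => (78751521/1025024)*c^3*d*p^4*q
  | 14 => (101331/1792)*c^2*d^2*p^2*q^2 + (762765093/1146880)*c^2*d^2*p^7
  | 15 => -(207/16)*c*d^3*q^3 + (13051156023/20500480)*c*d^3*p^5*q + (182533581/2523136)*c^5*p^5*q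
  | _ => 0

/-- Part of degree 1 in z. -/
noncomputable def phB (c d p q : ℂ) : ℕ → ℂ
  | 4 => 3*c*p^2
  | 5 => d*q
  | 7 => (345/56)*c^2*p*q
  | 8 => (27/16)*c*d*p^4
  | 9 => (603/224)*d^2*p^2*q
  | 10 => (33/8)*c^3*q^2 - (14337/5120)*c^3*p^5
  | 11 => (87669/1232)*c^2*d*p^3*q
  | 12 => -18*c*d^2*p*q^2 + (134379/640)*c*d^2*p^6
  | 13 => (27129897/512512)*d^3*p^4*q + (431190945/4100096)*c^4*p^4*q
  | 14 => -(6831/224)*c^3*d*p^2*q^2 + (1077305751/573440)*c^3*d*p^7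
  | 15 => -(189/16)*c^2*d^2*q^3 + (9113936859/5125120)*c^2*d^2*p^5*q
  | _ => 0

/-- Part of degree 2 in z. -/
noncomputable def phC (c d p q : ℂ) : ℕ → ℂ
  | 2 => p
  | 5 => c*q
  | 6 => -(9/16)*d*p^3
  | 8 => (135/128)*c^2*p^4
  | 9 => (243/112)*c*d*p^2*q
  | 10 => -(3/2)*d^2*q^2 + (22599/2560)*d^2*p^5
  | 11 => (245565/9856)*c^3*p^3*q
  | 12 => -(162/7)*c^2*d*p*q^2 + (1194831/5120)*c^2*d*p^6
  | 13 => (19608075/512512)*c*d^2*p^4*q
  | 14 => -(9855/224)*d^3*p^2*q^2 - (4105971/57344)*d^3*p^7 - (243/16)*c^4*p^2*q^2 + (1239428061/2293760)*c^4*p^7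
  | 15 => -(39/4)*c^3*d*q^3 + (6556799421/5125120)*c^3*d*p^5*q
  | _ => 0

/-- Part of degree 3 in z. -/
noncomputable def phD (c d p q : ℂ) : ℕ → ℂ
  | 6 => (45/16)*c*p^3
  | 7 => -(12/7)*d*p*q
  | 9 => (1161/112)*c^2*p^2*q
  | 10 => -3*c*d*q^2 + (26649/1280)*c*d*p^5
  | 11 => -(5913/154)*d^2*p^3*q
  | 12 => (333/112)*c^3*p*q^2 + (90153/1280)*c^3*p^6
  | 13 => (5855895/36608)*c^2*d*p^4*q
  | 14 => -(36207/224)*c*d^2*p^2*q^2 + (19048041/286720)*c*d^2*p^7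
  | 15 => 6*d^3*q^3 - (135513243/160160)*d^3*p^5*q + (57/32)*c^4*q^3 + (2226382929/5125120)*c^4*p^5*q
  | _ => 0

theorem st2 {z c d p q : ℂ} (hz : z ^ 4 = c * z + d) : ∀ n ≤ 15,
    cv (uu z c d p q) (uu z c d p q) n = U2 z c d p q n := by
  intro n hn
  interval_cases n
  · simp [cv, Finset.sum_range_succ, uu, U2]
  · simp [cv, Finset.sum_range_succ, uu, U2]
  · simp [cv, Finset.sum_range_succ, uu, U2] <;> ring
  · simp [cv, Finset.sum_range_succ, uu, U2]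
  · simp [cv, Finset.sum_range_succ, uu, U2] <;> ring
  · simp [cv, Finset.sum_range_succ, uu, U2]
  · simp [cv, Finset.sum_range_succ, uu, U2] <;> ring
  · simp [cv, Finset.sum_range_succ, uu, U2] <;> ring
  · simp [cv, Finset.sum_range_succ, uu, U2] <;> ring
  · simp [cv, Finset.sum_range_succ, uu, U2] <;> ring
  · simp [cv, Finset.sum_range_succ, uu, U2] <;> ring
  · simp [cv, Finset.sum_range_succ, uu, U2] <;> ring
  · simp [cv, Finset.sum_range_succ, uu, U2] <;> ring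
  · simp [cv, Finset.sum_range_succ, uu, U2] <;> ring
  · simp [cv, Finset.sum_range_succ, uu, U2] <;> ring
  · simp [cv, Finset.sum_range_succ, uu, U2] <;> ring

theorem st3 {z c d p q : ℂ} (hz : z ^ 4 = c * z + d) : ∀ n ≤ 15,
    cv (U2 z c d p q) (uu z c d p q) n = U3 z c d p q n := by
  intro n hn
  interval_cases n
  · simp [cv, Finset.sum_range_succ, U2, uu, U3]
  · simp [cv, Finset.sum_range_succ, U2, uu, U3]
  · simp [cv, Finset.sum_range_succ, U2, uu, U3]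
  · simp [cv, Finset.sum_range_succ, U2, uu, U3] <;> ring
  · simp [cv, Finset.sum_range_succ, U2, uu, U3]
  · simp [cv, Finset.sum_range_succ, U2, uu, U3] <;> ring
  · simp [cv, Finset.sum_range_succ, U2, uu, U3]
  · simp [cv, Finset.sum_range_succ, U2, uu, U3] <;> ring
  · simp [cv, Finset.sum_range_succ, U2, uu, U3] <;> ring
  · simp [cv, Finset.sum_range_succ, U2, uu, U3] <;> ring
  · simp [cv, Finset.sum_range_succ, U2, uu, U3] <;> ring
  · simp [cv, Finset.sum_range_succ, U2, uu, U3] <;> ring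
  · simp [cv, Finset.sum_range_succ, U2, uu, U3] <;> ring
  · simp [cv, Finset.sum_range_succ, U2, uu, U3] <;> ring
  · simp [cv, Finset.sum_range_succ, U2, uu, U3] <;> ring
  · simp [cv, Finset.sum_range_succ, U2, uu, U3] <;> ring

theorem st4 {z c d p q : ℂ} (hz : z ^ 4 = c * z + d) : ∀ n ≤ 15,
    cv (U3 z c d p q) (uu z c d p q) n = U4 z c d p q n := by
  intro n hn
  interval_cases n
  · simp [cv, Finset.sum_range_succ, U3, uu, U4]
  · simp [cv, Finset.sum_range_succ, U3, uu, U4]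
  · simp [cv, Finset.sum_range_succ, U3, uu, U4]
  · simp [cv, Finset.sum_range_succ, U3, uu, U4]
  · simp [cv, Finset.sum_range_succ, U3, uu, U4]
    linear_combination (1) * hz
  · simp [cv, Finset.sum_range_succ, U3, uu, U4]
  · simp [cv, Finset.sum_range_succ, U3, uu, U4] <;> ring
  · simp [cv, Finset.sum_range_succ, U3, uu, U4]
  · simp [cv, Finset.sum_range_succ, U3, uu, U4] <;> ring
  · simp [cv, Finset.sum_range_succ, U3, uu, U4] <;> ring
  · simp [cv, Finset.sum_range_succ, U3, uu, U4] <;> ring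
  · simp [cv, Finset.sum_range_succ, U3, uu, U4] <;> ring
  · simp [cv, Finset.sum_range_succ, U3, uu, U4] <;> ring
  · simp [cv, Finset.sum_range_succ, U3, uu, U4] <;> ring
  · simp [cv, Finset.sum_range_succ, U3, uu, U4] <;> ring
  · simp [cv, Finset.sum_range_succ, U3, uu, U4] <;> ring

theorem st5 {z c d p q : ℂ} (hz : z ^ 4 = c * z + d) : ∀ n ≤ 15,
    cv (U4 z c d p q) (uu z c d p q) n = U5 z c d p q n := by
  intro n hn
  interval_cases n
  · simp [cv, Finset.sum_range_succ, U4, uu, U5]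
  · simp [cv, Finset.sum_range_succ, U4, uu, U5]
  · simp [cv, Finset.sum_range_succ, U4, uu, U5]
  · simp [cv, Finset.sum_range_succ, U4, uu, U5]
  · simp [cv, Finset.sum_range_succ, U4, uu, U5]
  · simp [cv, Finset.sum_range_succ, U4, uu, U5] <;> ring
  · simp [cv, Finset.sum_range_succ, U4, uu, U5]
  · simp [cv, Finset.sum_range_succ, U4, uu, U5]
    linear_combination ((9/2)*c*p) * hz
  · simp [cv, Finset.sum_range_succ, U4, uu, U5]
  · simp [cv, Finset.sum_range_succ, U4, uu, U5] <;> ring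
  · simp [cv, Finset.sum_range_succ, U4, uu, U5]
    linear_combination ((9/2)*c^2*q) * hz
  · simp [cv, Finset.sum_range_succ, U4, uu, U5]
    linear_combination ((459/32)*c*d*p^3) * hz
  · simp [cv, Finset.sum_range_succ, U4, uu, U5]
    linear_combination (-(72/7)*d^2*p*q) * hz
  · simp [cv, Finset.sum_range_succ, U4, uu, U5]
    linear_combination ((1215/256)*c^3*p^4) * hz
  · simp [cv, Finset.sum_range_succ, U4, uu, U5]
    linear_combination ((16119/224)*c^2*d*p^2*q) * hz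
  · simp [cv, Finset.sum_range_succ, U4, uu, U5]
    linear_combination (-(99/4)*c*d^2*q^2 + (842967/5120)*c*d^2*p^5) * hz

theorem st6 {z c d p q : ℂ} (hz : z ^ 4 = c * z + d) : ∀ n ≤ 15,
    cv (U5 z c d p q) (uu z c d p q) n = U6 z c d p q n := by
  intro n hn
  interval_cases n
  · simp [cv, Finset.sum_range_succ, U5, uu, U6]
  · simp [cv, Finset.sum_range_succ, U5, uu, U6]
  · simp [cv, Finset.sum_range_succ, U5, uu, U6]
  · simp [cv, Finset.sum_range_succ, U5, uu, U6]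
  · simp [cv, Finset.sum_range_succ, U5, uu, U6]
  · simp [cv, Finset.sum_range_succ, U5, uu, U6]
  · simp [cv, Finset.sum_range_succ, U5, uu, U6] <;> ring
  · simp [cv, Finset.sum_range_succ, U5, uu, U6]
  · simp [cv, Finset.sum_range_succ, U5, uu, U6] <;> ring
  · simp [cv, Finset.sum_range_succ, U5, uu, U6]
  · simp [cv, Finset.sum_range_succ, U5, uu, U6]
    linear_combination ((405/32)*c^2*p^2) * hz
  · simp [cv, Finset.sum_range_succ, U5, uu, U6] <;> ring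
  · simp [cv, Finset.sum_range_succ, U5, uu, U6] <;> ring
  · simp [cv, Finset.sum_range_succ, U5, uu, U6]
    linear_combination ((405/16)*c^3*p*q) * hz
  · simp [cv, Finset.sum_range_succ, U5, uu, U6]
    linear_combination ((20655/256)*c^2*d*p^4) * hz
  · simp [cv, Finset.sum_range_succ, U5, uu, U6]
    linear_combination (-(405/7)*c*d^2*p^2*q) * hz

theorem st7 {z c d p q : ℂ} (hz : z ^ 4 = c * z + d) : ∀ n ≤ 15,
    cv (U6 z c d p q) (uu z c d p q) n = U7 z c d p q n := by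
  intro n hn
  interval_cases n
  · simp [cv, Finset.sum_range_succ, U6, uu, U7]
  · simp [cv, Finset.sum_range_succ, U6, uu, U7]
  · simp [cv, Finset.sum_range_succ, U6, uu, U7]
  · simp [cv, Finset.sum_range_succ, U6, uu, U7]
  · simp [cv, Finset.sum_range_succ, U6, uu, U7]
  · simp [cv, Finset.sum_range_succ, U6, uu, U7]
  · simp [cv, Finset.sum_range_succ, U6, uu, U7]
  · simp [cv, Finset.sum_range_succ, U6, uu, U7]
    linear_combination (c) * hz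
  · simp [cv, Finset.sum_range_succ, U6, uu, U7]
  · simp [cv, Finset.sum_range_succ, U6, uu, U7] <;> ring
  · simp [cv, Finset.sum_range_succ, U6, uu, U7]
  · simp [cv, Finset.sum_range_succ, U6, uu, U7] <;> ring
  · simp [cv, Finset.sum_range_succ, U6, uu, U7] <;> ring
  · simp [cv, Finset.sum_range_succ, U6, uu, U7]
    linear_combination ((3645/128)*c^3*p^3) * hz
  · simp [cv, Finset.sum_range_succ, U6, uu, U7] <;> ring
  · simp [cv, Finset.sum_range_succ, U6, uu, U7] <;> ring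

theorem st8 {z c d p q : ℂ} (hz : z ^ 4 = c * z + d) : ∀ n ≤ 15,
    cv (U7 z c d p q) (uu z c d p q) n = U8 z c d p q n := by
  intro n hn
  interval_cases n
  · simp [cv, Finset.sum_range_succ, U7, uu, U8]
  · simp [cv, Finset.sum_range_succ, U7, uu, U8]
  · simp [cv, Finset.sum_range_succ, U7, uu, U8]
  · simp [cv, Finset.sum_range_succ, U7, uu, U8]
  · simp [cv, Finset.sum_range_succ, U7, uu, U8]
  · simp [cv, Finset.sum_range_succ, U7, uu, U8]
  · simp [cv, Finset.sum_range_succ, U7, uu, U8]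
  · simp [cv, Finset.sum_range_succ, U7, uu, U8]
  · simp [cv, Finset.sum_range_succ, U7, uu, U8]
    linear_combination (d) * hz
  · simp [cv, Finset.sum_range_succ, U7, uu, U8]
  · simp [cv, Finset.sum_range_succ, U7, uu, U8]
    linear_combination ((63/8)*c^2*p) * hz
  · simp [cv, Finset.sum_range_succ, U7, uu, U8]
  · simp [cv, Finset.sum_range_succ, U7, uu, U8] <;> ring
  · simp [cv, Finset.sum_range_succ, U7, uu, U8]
    linear_combination ((63/8)*c^3*q) * hz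
  · simp [cv, Finset.sum_range_succ, U7, uu, U8]
    linear_combination ((3213/128)*c^2*d*p^3) * hz
  · simp [cv, Finset.sum_range_succ, U7, uu, U8]
    linear_combination (-18*c*d^2*p*q) * hz

theorem st9 {z c d p q : ℂ} (hz : z ^ 4 = c * z + d) : ∀ n ≤ 15,
    cv (U8 z c d p q) (uu z c d p q) n = U9 z c d p q n := by
  intro n hn
  interval_cases n
  · simp [cv, Finset.sum_range_succ, U8, uu, U9]
  · simp [cv, Finset.sum_range_succ, U8, uu, U9]
  · simp [cv, Finset.sum_range_succ, U8, uu, U9]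
  · simp [cv, Finset.sum_range_succ, U8, uu, U9]
  · simp [cv, Finset.sum_range_succ, U8, uu, U9]
  · simp [cv, Finset.sum_range_succ, U8, uu, U9]
  · simp [cv, Finset.sum_range_succ, U8, uu, U9]
  · simp [cv, Finset.sum_range_succ, U8, uu, U9]
  · simp [cv, Finset.sum_range_succ, U8, uu, U9]
  · simp [cv, Finset.sum_range_succ, U8, uu, U9] <;> ring
  · simp [cv, Finset.sum_range_succ, U8, uu, U9]
  · simp [cv, Finset.sum_range_succ, U8, uu, U9]
    linear_combination (9*c*d*p) * hz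
  · simp [cv, Finset.sum_range_succ, U8, uu, U9]
  · simp [cv, Finset.sum_range_succ, U8, uu, U9]
    linear_combination ((567/16)*c^3*p^2) * hz
  · simp [cv, Finset.sum_range_succ, U8, uu, U9]
    linear_combination (9*c^2*d*q) * hz
  · simp [cv, Finset.sum_range_succ, U8, uu, U9]
    linear_combination ((459/16)*c*d^2*p^3) * hz

theorem st10 {z c d p q : ℂ} (hz : z ^ 4 = c * z + d) : ∀ n ≤ 15,
    cv (U9 z c d p q) (uu z c d p q) n = U10 z c d p q n := by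
  intro n hn
  interval_cases n
  · simp [cv, Finset.sum_range_succ, U9, uu, U10]
  · simp [cv, Finset.sum_range_succ, U9, uu, U10]
  · simp [cv, Finset.sum_range_succ, U9, uu, U10]
  · simp [cv, Finset.sum_range_succ, U9, uu, U10]
  · simp [cv, Finset.sum_range_succ, U9, uu, U10]
  · simp [cv, Finset.sum_range_succ, U9, uu, U10]
  · simp [cv, Finset.sum_range_succ, U9, uu, U10]
  · simp [cv, Finset.sum_range_succ, U9, uu, U10]
  · simp [cv, Finset.sum_range_succ, U9, uu, U10]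
  · simp [cv, Finset.sum_range_succ, U9, uu, U10]
  · simp [cv, Finset.sum_range_succ, U9, uu, U10]
    linear_combination (c^2) * hz
  · simp [cv, Finset.sum_range_succ, U9, uu, U10]
  · simp [cv, Finset.sum_range_succ, U9, uu, U10] <;> ring
  · simp [cv, Finset.sum_range_succ, U9, uu, U10]
  · simp [cv, Finset.sum_range_succ, U9, uu, U10]
    linear_combination ((729/16)*c^2*d*p^2) * hz
  · simp [cv, Finset.sum_range_succ, U9, uu, U10] <;> ring

theorem st11 {z c d p q : ℂ} (hz : z ^ 4 = c * z + d) : ∀ n ≤ 15,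
    cv (U10 z c d p q) (uu z c d p q) n = U11 z c d p q n := by
  intro n hn
  interval_cases n
  · simp [cv, Finset.sum_range_succ, U10, uu, U11]
  · simp [cv, Finset.sum_range_succ, U10, uu, U11]
  · simp [cv, Finset.sum_range_succ, U10, uu, U11]
  · simp [cv, Finset.sum_range_succ, U10, uu, U11]
  · simp [cv, Finset.sum_range_succ, U10, uu, U11]
  · simp [cv, Finset.sum_range_succ, U10, uu, U11]
  · simp [cv, Finset.sum_range_succ, U10, uu, U11]
  · simp [cv, Finset.sum_range_succ, U10, uu, U11]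
  · simp [cv, Finset.sum_range_succ, U10, uu, U11]
  · simp [cv, Finset.sum_range_succ, U10, uu, U11]
  · simp [cv, Finset.sum_range_succ, U10, uu, U11]
  · simp [cv, Finset.sum_range_succ, U10, uu, U11]
    linear_combination (2*c*d) * hz
  · simp [cv, Finset.sum_range_succ, U10, uu, U11]
  · simp [cv, Finset.sum_range_succ, U10, uu, U11]
    linear_combination ((45/4)*c^3*p) * hz
  · simp [cv, Finset.sum_range_succ, U10, uu, U11]
  · simp [cv, Finset.sum_range_succ, U10, uu, U11] <;> ring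

theorem st12 {z c d p q : ℂ} (hz : z ^ 4 = c * z + d) : ∀ n ≤ 15,
    cv (U11 z c d p q) (uu z c d p q) n = U12 z c d p q n := by
  intro n hn
  interval_cases n
  · simp [cv, Finset.sum_range_succ, U11, uu, U12]
  · simp [cv, Finset.sum_range_succ, U11, uu, U12]
  · simp [cv, Finset.sum_range_succ, U11, uu, U12]
  · simp [cv, Finset.sum_range_succ, U11, uu, U12]
  · simp [cv, Finset.sum_range_succ, U11, uu, U12]
  · simp [cv, Finset.sum_range_succ, U11, uu, U12]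
  · simp [cv, Finset.sum_range_succ, U11, uu, U12]
  · simp [cv, Finset.sum_range_succ, U11, uu, U12]
  · simp [cv, Finset.sum_range_succ, U11, uu, U12]
  · simp [cv, Finset.sum_range_succ, U11, uu, U12]
  · simp [cv, Finset.sum_range_succ, U11, uu, U12]
  · simp [cv, Finset.sum_range_succ, U11, uu, U12]
  · simp [cv, Finset.sum_range_succ, U11, uu, U12]
    linear_combination (d^2) * hz
  · simp [cv, Finset.sum_range_succ, U11, uu, U12]
  · simp [cv, Finset.sum_range_succ, U11, uu, U12]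
    linear_combination ((99/4)*c^2*d*p) * hz
  · simp [cv, Finset.sum_range_succ, U11, uu, U12]

theorem st13 {z c d p q : ℂ} (hz : z ^ 4 = c * z + d) : ∀ n ≤ 15,
    cv (U12 z c d p q) (uu z c d p q) n = U13 z c d p q n := by
  intro n hn
  interval_cases n
  · simp [cv, Finset.sum_range_succ, U12, uu, U13]
  · simp [cv, Finset.sum_range_succ, U12, uu, U13]
  · simp [cv, Finset.sum_range_succ, U12, uu, U13]
  · simp [cv, Finset.sum_range_succ, U12, uu, U13]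
  · simp [cv, Finset.sum_range_succ, U12, uu, U13]
  · simp [cv, Finset.sum_range_succ, U12, uu, U13]
  · simp [cv, Finset.sum_range_succ, U12, uu, U13]
  · simp [cv, Finset.sum_range_succ, U12, uu, U13]
  · simp [cv, Finset.sum_range_succ, U12, uu, U13]
  · simp [cv, Finset.sum_range_succ, U12, uu, U13]
  · simp [cv, Finset.sum_range_succ, U12, uu, U13]
  · simp [cv, Finset.sum_range_succ, U12, uu, U13]
  · simp [cv, Finset.sum_range_succ, U12, uu, U13]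
  · simp [cv, Finset.sum_range_succ, U12, uu, U13]
    linear_combination (c^3) * hz
  · simp [cv, Finset.sum_range_succ, U12, uu, U13]
  · simp [cv, Finset.sum_range_succ, U12, uu, U13]
    linear_combination ((27/2)*c*d^2*p) * hz

theorem st14 {z c d p q : ℂ} (hz : z ^ 4 = c * z + d) : ∀ n ≤ 15,
    cv (U13 z c d p q) (uu z c d p q) n = U14 z c d p q n := by
  intro n hn
  interval_cases n
  · simp [cv, Finset.sum_range_succ, U13, uu, U14]
  · simp [cv, Finset.sum_range_succ, U13, uu, U14]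
  · simp [cv, Finset.sum_range_succ, U13, uu, U14]
  · simp [cv, Finset.sum_range_succ, U13, uu, U14]
  · simp [cv, Finset.sum_range_succ, U13, uu, U14]
  · simp [cv, Finset.sum_range_succ, U13, uu, U14]
  · simp [cv, Finset.sum_range_succ, U13, uu, U14]
  · simp [cv, Finset.sum_range_succ, U13, uu, U14]
  · simp [cv, Finset.sum_range_succ, U13, uu, U14]
  · simp [cv, Finset.sum_range_succ, U13, uu, U14]
  · simp [cv, Finset.sum_range_succ, U13, uu, U14]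
  · simp [cv, Finset.sum_range_succ, U13, uu, U14]
  · simp [cv, Finset.sum_range_succ, U13, uu, U14]
  · simp [cv, Finset.sum_range_succ, U13, uu, U14]
  · simp [cv, Finset.sum_range_succ, U13, uu, U14]
    linear_combination (3*c^2*d) * hz
  · simp [cv, Finset.sum_range_succ, U13, uu, U14]

theorem st15 {z c d p q : ℂ} (hz : z ^ 4 = c * z + d) : ∀ n ≤ 15,
    cv (U14 z c d p q) (uu z c d p q) n = U15 z c d p q n := by
  intro n hn
  interval_cases n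
  · simp [cv, Finset.sum_range_succ, U14, uu, U15]
  · simp [cv, Finset.sum_range_succ, U14, uu, U15]
  · simp [cv, Finset.sum_range_succ, U14, uu, U15]
  · simp [cv, Finset.sum_range_succ, U14, uu, U15]
  · simp [cv, Finset.sum_range_succ, U14, uu, U15]
  · simp [cv, Finset.sum_range_succ, U14, uu, U15]
  · simp [cv, Finset.sum_range_succ, U14, uu, U15]
  · simp [cv, Finset.sum_range_succ, U14, uu, U15]
  · simp [cv, Finset.sum_range_succ, U14, uu, U15]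
  · simp [cv, Finset.sum_range_succ, U14, uu, U15]
  · simp [cv, Finset.sum_range_succ, U14, uu, U15]
  · simp [cv, Finset.sum_range_succ, U14, uu, U15]
  · simp [cv, Finset.sum_range_succ, U14, uu, U15]
  · simp [cv, Finset.sum_range_succ, U14, uu, U15]
  · simp [cv, Finset.sum_range_succ, U14, uu, U15]
  · simp [cv, Finset.sum_range_succ, U14, uu, U15]
    linear_combination (3*c*d^2) * hz

end Pool.Agent.Helper26.LU.AC3
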