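import Pool.Agent.Helper26.LU.AC3a

/-!
# Project LU: the computation AC3, second part
-/

set_option linter.unusedVariables false
set_option linter.unusedSimpArgs false
set_option linter.unreachableTactic false
set_option linter.unusedTactic false
set_option linter.unnecessarySeqFocus false

namespace Pool.Agent.Helper26.LU.AC3

open Pool.Agent.Helper26.LU Polynomial

/-- All powers. -/
noncomputable def UU (l : ℕ) (z c d p q : ℂ) : ℕ → ℂ :=
  match l with
  | 2 => U2 z c d p q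
  | 3 => U3 z c d p q
  | 4 => U4 z c d p q
  | 5 => U5 z c d p q
  | 6 => U6 z c d p q
  | 7 => U7 z c d p q
  | 8 => U8 z c d p q
  | 9 => U9 z c d p q
  | 10 => U10 z c d p q
  | 11 => U11 z c d p q
  | 12 => U12 z c d p q
  | 13 => U13 z c d p q
  | 14 => U14 z c d p q
  | 15 => U15 z c d p q
  | _ => fun _ => 0

theorem uu_coeff {z c d p q : ℂ} {P : ℂ[X]} (hP : ∀ n ≤ 15, P.coeff n = tt c d p q n) :
    ∀ n ≤ 15, (C z * X + P).coeff n = uu z c d p q n := by
  intro n hn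
  rw [coeff_add, hP n hn, coeff_C_mul, coeff_X]
  interval_cases n <;> simp [tt, uu]

theorem pow_coeff {z c d p q : ℂ} (hz : z ^ 4 = c * z + d) {u : ℂ[X]}
    (hu : ∀ n ≤ 15, u.coeff n = uu z c d p q n) :
    ∀ l, 2 ≤ l → l ≤ 15 → ∀ n ≤ 15, (u ^ l).coeff n = UU l z c d p q n := by
  have step : ∀ (P : ℂ[X]) (f : ℕ → ℂ), (∀ n ≤ 15, P.coeff n = f n) → ∀ n ≤ 15,
      (P * u).coeff n = cv f (uu z c d p q) n := by
    intro P f hf n hn
    rw [coeff_mul_cv]
    exact cv_congr hn hf hu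
  have p2 : ∀ n ≤ 15, (u ^ 2).coeff n = U2 z c d p q n := by
    intro n hn
    rw [pow_two, step u _ hu n hn, st2 hz n hn]
  have p3 : ∀ n ≤ 15, (u ^ 3).coeff n = U3 z c d p q n := by
    intro n hn
    rw [pow_succ, step _ _ p2 n hn, st3 hz n hn]
  have p4 : ∀ n ≤ 15, (u ^ 4).coeff n = U4 z c d p q n := by
    intro n hn
    rw [pow_succ, step _ _ p3 n hn, st4 hz n hn]
  have p5 : ∀ n ≤ 15, (u ^ 5).coeff n = U5 z c d p q n := by
    intro n hn
    rw [pow_succ, step _ _ p4 n hn, st5 hz n hn]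
  have p6 : ∀ n ≤ 15, (u ^ 6).coeff n = U6 z c d p q n := by
    intro n hn
    rw [pow_succ, step _ _ p5 n hn, st6 hz n hn]
  have p7 : ∀ n ≤ 15, (u ^ 7).coeff n = U7 z c d p q n := by
    intro n hn
    rw [pow_succ, step _ _ p6 n hn, st7 hz n hn]
  have p8 : ∀ n ≤ 15, (u ^ 8).coeff n = U8 z c d p q n := by
    intro n hn
    rw [pow_succ, step _ _ p7 n hn, st8 hz n hn]
  have p9 : ∀ n ≤ 15, (u ^ 9).coeff n = U9 z c d p q n := by
    intro n hn
    rw [pow_succ, step _ _ p8 n hn, st9 hz n hn]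
  have p10 : ∀ n ≤ 15, (u ^ 10).coeff n = U10 z c d p q n := by
    intro n hn
    rw [pow_succ, step _ _ p9 n hn, st10 hz n hn]
  have p11 : ∀ n ≤ 15, (u ^ 11).coeff n = U11 z c d p q n := by
    intro n hn
    rw [pow_succ, step _ _ p10 n hn, st11 hz n hn]
  have p12 : ∀ n ≤ 15, (u ^ 12).coeff n = U12 z c d p q n := by
    intro n hn
    rw [pow_succ, step _ _ p11 n hn, st12 hz n hn]
  have p13 : ∀ n ≤ 15, (u ^ 13).coeff n = U13 z c d p q n := by
    intro n hn
    rw [pow_succ, step _ _ p12 n hn, st13 hz n hn]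
  have p14 : ∀ n ≤ 15, (u ^ 14).coeff n = U14 z c d p q n := by
    intro n hn
    rw [pow_succ, step _ _ p13 n hn, st14 hz n hn]
  have p15 : ∀ n ≤ 15, (u ^ 15).coeff n = U15 z c d p q n := by
    intro n hn
    rw [pow_succ, step _ _ p14 n hn, st15 hz n hn]
  intro l h2 h15 n hn
  interval_cases l
  · exact p2 n hn
  · exact p3 n hn
  · exact p4 n hn
  · exact p5 n hn
  · exact p6 n hn
  · exact p7 n hn
  · exact p8 n hn
  · exact p9 n hn
  · exact p10 n hn
  · exact p11 n hn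
  · exact p12 n hn
  · exact p13 n hn
  · exact p14 n hn
  · exact p15 n hn

theorem aseq_big {p q : ℂ} {l : ℕ} (hl : 15 < l) : aseq p q l = 0 := by
  obtain ⟨k, rfl⟩ : ∃ k, l = k + 16 := ⟨l - 16, by omega⟩
  rfl

theorem icc_sum (f : ℕ → ℂ) : ∑ l ∈ Finset.Icc 2 15, f l =
    f 2 + f 3 + f 4 + f 5 + f 6 + f 7 + f 8 + f 9 + f 10 + f 11 + f 12 + f 13 + f 14 + f 15 := by
  have : Finset.Icc 2 15 = Finset.Ico 2 16 := by
    ext x
    simp only [Finset.mem_Icc, Finset.mem_Ico]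
    omega
  rw [this, Finset.sum_Ico_eq_sum_range]
  simp [Finset.sum_range_succ]

theorem ph_table {z c d p q : ℂ} : ∀ n ≤ 15,
    ∑ l ∈ Finset.Icc 2 15, aseq p q l * UU l z c d p q n = ph z c d p q n := by
  intro n hn
  rw [icc_sum]
  interval_cases n <;> simp [UU, aseq, U2, U3, U4, U5, U6, U7, U8, U9, U10, U11, U12, U13, U14, U15, ph] <;> ring

theorem ph_coeff {N : ℕ} (hN : 15 ≤ N) {z c d p q : ℂ} (hz : z ^ 4 = c * z + d) {u : ℂ[X]}
    (hu : ∀ n ≤ 15, u.coeff n = uu z c d p q n) :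
    ∀ n ≤ 15, (∑ l ∈ Finset.Icc 2 N, C (aseq p q l) * u ^ l).coeff n = ph z c d p q n := by
  intro n hn
  rw [← ph_table n hn, finsetSum_coeff]
  have hsub : Finset.Icc 2 15 ⊆ Finset.Icc 2 N := Finset.Icc_subset_Icc_right hN
  rw [← Finset.sum_subset hsub]
  · apply Finset.sum_congr rfl
    intro l hl
    have := Finset.mem_Icc.1 hl
    rw [coeff_C_mul, pow_coeff hz hu l this.1 this.2 n hn]
  · intro l hl hl'
    have h1 := Finset.mem_Icc.1 hl
    rw [Finset.mem_Icc] at hl'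
    rw [aseq_big (by omega)]
    simp

theorem ph_split {z c d p q : ℂ} : ∀ n ≤ 15, ph z c d p q n =
    phA c d p q n + phB c d p q n * z + phC c d p q n * z ^ 2 + phD c d p q n * z ^ 3 := by
  intro n hn
  interval_cases n <;> simp [ph, phA, phB, phC, phD] <;> ring

theorem tt_table {c d p q : ℂ} : ∀ n ≤ 14,
    3 / 8 * (3 * c * phC c d p q n + 4 * d * phD c d p q n) = tt c d p q (n + 1) := by
  intro n hn
  interval_cases n <;> simp [tt, phC, phD] <;> ring

/-- Sum of the values. -/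
noncomputable def s1 (c d p q : ℂ) (n : ℕ) : ℂ := 4 * phA c d p q n + 3 * c * phD c d p q n

/-- Sum of the products. -/
noncomputable def bil (c d p q : ℂ) (i k : ℕ) : ℂ :=
  4 * phA c d p q i * phA c d p q k
  + 3 * c * (phA c d p q i * phD c d p q k + phB c d p q i * phC c d p q k
    + phC c d p q i * phB c d p q k + phD c d p q i * phA c d p q k)
  + 4 * d * (phB c d p q i * phD c d p q k + phC c d p q i * phC c d p q k
    + phD c d p q i * phB c d p q k)
  + 3 * c ^ 2 * phD c d p q i * phD c d p q k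

section sums

variable {z : Fin 4 → ℂ} {c d : ℂ}

theorem tr0 (h1 : ∑ j, z j = 0) (h2 : ∑ j, z j ^ 2 = 0) (h3 : ∑ j, z j ^ 3 = 3 * c)
    (A B C' D : ℂ) : ∑ j, (A + B * z j + C' * z j ^ 2 + D * z j ^ 3) = 4 * A + 3 * c * D := by
  simp only [Fin.sum_univ_four] at *
  linear_combination B * h1 + C' * h2 + D * h3

theorem tr1 (h1 : ∑ j, z j = 0) (h2 : ∑ j, z j ^ 2 = 0) (h3 : ∑ j, z j ^ 3 = 3 * c)
    (h4 : ∀ j, z j ^ 4 = c * z j + d) (A B C' D : ℂ) :
    ∑ j, (A + B * z j + C' * z j ^ 2 + D * z j ^ 3) * z j = 3 * c * C' + 4 * d * D := by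
  have a0 := h4 0
  have a1 := h4 1
  have a2 := h4 2
  have a3 := h4 3
  simp only [Fin.sum_univ_four] at *
  linear_combination A * h1 + B * h2 + C' * h3 + D * (a0 + a1 + a2 + a3) + D * c * h1

theorem tr2 (h1 : ∑ j, z j = 0) (h2 : ∑ j, z j ^ 2 = 0) (h3 : ∑ j, z j ^ 3 = 3 * c)
    (h4 : ∀ j, z j ^ 4 = c * z j + d) (A B C' D A' B' C'' D' : ℂ) :
    ∑ j, (A + B * z j + C' * z j ^ 2 + D * z j ^ 3) * (A' + B' * z j + C'' * z j ^ 2 + D' * z j ^ 3)
      = 4 * A * A' + 3 * c * (A * D' + B * C'' + C' * B' + D * A')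
        + 4 * d * (B * D' + C' * C'' + D * B') + 3 * c ^ 2 * D * D' := by
  have a0 := h4 0
  have a1 := h4 1
  have a2 := h4 2
  have a3 := h4 3
  simp only [Fin.sum_univ_four] at *
  linear_combination (A * B' + B * A') * h1 + (A * C'' + B * B' + C' * A') * h2
    + (A * D' + B * C'' + C' * B' + D * A') * h3
    + (B * D' + C' * C'' + D * B') * (a0 + a1 + a2 + a3)
    + (B * D' + C' * C'' + D * B') * c * h1
    + (C' * D' + D * C'') * (z 0 * a0 + z 1 * a1 + z 2 * a2 + z 3 * a3)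
    + (C' * D' + D * C'') * (c * h2 + d * h1)
    + D * D' * (z 0 ^ 2 * a0 + z 1 ^ 2 * a1 + z 2 ^ 2 * a2 + z 3 ^ 2 * a3)
    + D * D' * (c * h3 + d * h2)

end sums

theorem final_table {c d p q : ℂ} : ∀ n ≤ 15,
    s1 c d p q n - 3 / 16 * (4 * ∑ i ∈ Finset.range (n + 1), bil c d p q i (n - i)
      - cv (s1 c d p q) (s1 c d p q) n)
    = if n = 12 then (112995 / 512 * p ^ 6 - 1809 / 56 * p * q ^ 2) * c ^ 4
      else if n = 15 then (52581069 / 71680 * p ^ 5 * q - 423 / 32 * q ^ 3) * c ^ 5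
      else 0 := by
  intro n hn
  interval_cases n <;>
    simp [cv, s1, bil, Finset.sum_range_succ, phA, phB, phC, phD] <;> ring

end Pool.Agent.Helper26.LU.AC3
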