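import Pool.Agent.Helper26.LU.Goals

/-!
# Project LU: assembly of part A
-/

namespace Pool.Agent.Helper26.LU

open MeasureTheory Matrix Real Filter Topology

theorem cont_Ti {N : ℕ} (a : Idx N → ℝ) (k : ℕ) : Continuous (fun R : M3 => Ti a R k) := by
  induction k with
  | zero => exact continuous_const
  | succ k ih =>
    have h1 : ∀ j : Fin 4, Continuous (fun R : M3 => R *ᵥ e j) := fun j => by fun_prop
    have : (fun R : M3 => Ti a R (k + 1)) = fun R : M3 =>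
        (3 / 8 : ℝ) • ∑ j, ev a (R *ᵥ e j + Ti a R k) • (R *ᵥ e j) := by
      funext R
      exact Ti_succ a R k
    rw [this]
    have h2 : ∀ j : Fin 4, Continuous (fun R : M3 => ev a (R *ᵥ e j + Ti a R k) • (R *ᵥ e j)) :=
      fun j => ((ev_continuous a).comp ((h1 j).add ih)).smul (h1 j)
    have h3 : Continuous (fun R : M3 => ∑ j, ev a (R *ᵥ e j + Ti a R k) • (R *ᵥ e j)) :=
      continuous_finsetSum _ fun j _ => h2 j
    exact h3.const_smul (3 / 8 : ℝ)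

theorem cont_yv {N : ℕ} (M : ℕ) (a : Idx N → ℝ) (j : Fin 4) :
    Continuous (fun R : M3 => yv M a R j) := by
  unfold yv
  have h1 : Continuous (fun R : M3 => R *ᵥ e j) := by fun_prop
  exact h1.add (cont_Ti a M)

theorem cont_Fv {N : ℕ} (M : ℕ) (a : Idx N → ℝ) (j : Fin 4) :
    Continuous (fun R : M3 => Fv M a R j) := by
  have : (fun R : M3 => Fv M a R j) = fun R : M3 => ev a (yv M a R j) := rfl
  rw [this]
  exact (ev_continuous a).comp (cont_yv M a j)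

theorem cont_Ph {N : ℕ} (M : ℕ) (a : Idx N → ℝ) : Continuous (fun R : M3 => Ph M a R) := by
  unfold Ph
  have h := fun j => cont_Fv M a j
  fun_prop

theorem cont_evM (P : MvPolynomial (Fin 3 × Fin 3) ℝ) : Continuous (fun R : M3 => evM P R) := by
  unfold evM
  refine (MvPolynomial.continuous_eval P).comp ?_
  fun_prop

/-- Continuity of `R ↦ h (yh M a R j)` on the rotation group. -/
theorem cont_hyh {N M : ℕ} {a : Idx N → ℝ} {h : V → ℝ} (hh : ContinuousOn h sph)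
    (hne : ∀ R ∈ SO3, ∀ j, yv M a R j ≠ 0) (j : Fin 4) :
    Continuous (fun R : ↥SO3 => h (yh M a R.1 j)) := by
  have : (fun R : ↥SO3 => h (yh M a R.1 j)) = fun R : ↥SO3 => h (proj (yv M a R.1 j)) := rfl
  rw [this]
  exact cont_comp hh ((cont_yv M a j).comp continuous_subtype_val) fun R => hne R.1 R.2 j

theorem lip_cont {h : V → ℝ} {κ : ℝ} (hl : ∀ u ∈ sph, ∀ v ∈ sph, |h u - h v| ≤ κ * ‖u - v‖) :
    ContinuousOn h sph := by
  have : LipschitzOnWith (Real.toNNReal κ) h sph := by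
    apply LipschitzOnWith.of_dist_le_mul
    intro u hu v hv
    rw [Real.dist_eq, dist_eq_norm]
    refine (hl u hu v hv).trans ?_
    exact mul_le_mul_of_nonneg_right (Real.le_coe_toNNReal κ) (norm_nonneg _)
  exact this.continuousOn

theorem integrable_of_cont {μ : Measure ↥SO3} (hμ : Haar3 μ) {f : ↥SO3 → ℝ}
    (hf : Continuous f) : Integrable f μ := by
  have := hμ.prob
  exact hf.integrable_of_hasCompactSupport (HasCompactSupport.of_compactSpace f)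

theorem abs_integral_le {μ : Measure ↥SO3} (hμ : Haar3 μ) {f : ↥SO3 → ℝ} {B : ℝ}
    (hf : ∀ R, |f R| ≤ B) : |∫ R, f R ∂μ| ≤ B := by
  have := hμ.prob
  have h := norm_integral_le_of_norm_le_const (μ := μ) (f := f) (C := B)
    (Eventually.of_forall fun R => by simpa using hf R)
  simpa using h

/-- Choice of the scale. -/
theorem exists_scale {N : ℕ} (a : Idx N → ℝ) (h : ∃ α, dg α ≠ 1 ∧ a α ≠ 0) :
    ∃ s : ℝ, 0 < s ∧ (∀ α, dg α ≠ 1 → |a α| ≤ s ^ wt α) ∧ ∃ α, dg α ≠ 1 ∧ |a α| = s ^ wt α := by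
  classical
  obtain ⟨β, hβ1, hβ2⟩ := h
  have hwt : ∀ α : Idx N, wt α ≠ 0 := fun α => by
    have : 2 ≤ wt α := le_max_left _ _
    omega
  set F : Finset (Idx N) := Finset.univ.filter fun α => dg α ≠ 1 with hF
  have hFne : F.Nonempty := ⟨β, by simp [hF, hβ1]⟩
  obtain ⟨γ, hγ, hmax⟩ := F.exists_max_image (fun α => |a α| ^ ((wt α : ℝ)⁻¹)) hFne
  have hpow : ∀ α : Idx N, (|a α| ^ ((wt α : ℝ)⁻¹)) ^ wt α = |a α| := fun α =>
    Real.rpow_inv_natCast_pow (abs_nonneg _) (hwt α)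
  refine ⟨|a γ| ^ ((wt γ : ℝ)⁻¹), ?_, ?_, γ, (Finset.mem_filter.1 hγ).2, (hpow γ).symm⟩
  · have h1 : 0 < |a β| ^ ((wt β : ℝ)⁻¹) := Real.rpow_pos_of_pos (abs_pos.2 hβ2) _
    exact h1.trans_le (hmax β (by simp [hF, hβ1]))
  · intro α hα
    have h1 := hmax α (by simp [hF, hα])
    calc |a α| = (|a α| ^ ((wt α : ℝ)⁻¹)) ^ wt α := (hpow α).symm
      _ ≤ _ := pow_le_pow_left₀ (Real.rpow_nonneg (abs_nonneg _) _) h1 _

/-- Step 1: absorb the remainder. -/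
theorem num1 {E Pm A C₃ C₉ C₁ κe ε na nM : ℝ} (h : E ≤ E / 2 + 4 * (Pm + C₃ * (κe + na + ε) * E
      + C₃ * nM) + C₉ * (C₁ * ε * E) + C₉ * nM)
    (hsmall : 4 * C₃ * (κe + na + ε) + C₉ * C₁ * ε ≤ 1 / 4) (hE : 0 ≤ E)
    (hA : A = 16 * C₃ + 4 * C₉) : E ≤ 16 * Pm + A * nM := by
  subst hA
  have h1 : (4 * C₃ * (κe + na + ε) + C₉ * C₁ * ε) * E ≤ 1 / 4 * E :=
    mul_le_mul_of_nonneg_right hsmall hE
  nlinarith

theorem gPA (hM1 : G_M1) (hM5 : G_M5) (hD1 : G_D1) (hD3 : G_D3) (hD4 : G_D4) (hD5 : G_D5)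
    (hFD : G_FD) (hE1 : G_E1) (hT9 : G_T9) (hT10 : G_T10) : G_PA := by
  intro C₀'
  -- a positive version of the constant
  set C₀ : ℝ := max C₀' 1 with hC₀
  have hC₀1 : 1 ≤ C₀ := le_max_right _ _
  obtain ⟨μ, hμ⟩ := hM1
  obtain ⟨N₀, hT9⟩ := hT9 μ hμ
  set N : ℕ := max 15 N₀ with hN
  have hN15 : 15 ≤ N := le_max_left _ _
  obtain ⟨C₁, hC₁, ε₁, hε₁, hD1⟩ := hD1 μ hμ N (hM5 μ hμ N)
  obtain ⟨C₃, hC₃, ε₃, hε₃, hD3⟩ := hD3 N N
  obtain ⟨C₄, hC₄, hD4⟩ := hD4 N N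
  obtain ⟨C₅, hC₅, hD5⟩ := hD5 N
  obtain ⟨C₉, hC₉, δ₉, hδ₉, hT9⟩ := hT9 N (le_max_right _ _) N
  obtain ⟨CF, hCF, hFD⟩ := hFD μ hμ N
  obtain ⟨C₁₀, hC₁₀, δ₁₀, hδ₁₀, hT10⟩ := hT10 μ hμ N N (1 / (64 * CF)) (by positivity)
  obtain ⟨_, _, δy, hδy, hyv⟩ := yv_near N N
  -- constants
  set K₁ : ℝ := 16 * C₃ + 4 * C₉ with hK₁
  set K₂ : ℝ := 16 * C₄ + K₁ with hK₂
  set K₃ : ℝ := K₂ + C₅ with hK₃
  have hK₁0 : 0 < K₁ := by positivity
  have hK₂0 : 0 < K₂ := by positivity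
  have hK₃0 : 0 < K₃ := by positivity
  -- `ε ≤ 2 K₃ σ`, `‖a‖ ≤ C₁ ε ≤ K₄ s²`
  set K₄ : ℝ := 2 * K₃ * C₁ with hK₄
  have hK₄0 : 0 < K₄ := by positivity
  set Cb : ℝ := max 1 K₄ with hCb
  obtain ⟨C₁', hC₁', hE1⟩ := hE1 N N Cb
  set K₇ : ℝ := CF * (C₃ * K₄ ^ N + C₁') + C₁' with hK₇
  set K₈ : ℝ := K₁ * K₄ ^ N with hK₈
  have hK₇0 : 0 < K₇ := by positivity
  have hK₈0 : 0 < K₈ := by positivity
  set K₉ : ℝ := 2 * (16 * K₇ + K₈) with hK₉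
  set K₁₀ : ℝ := K₉ + K₇ with hK₁₀
  set C : ℝ := max Cb K₁₀ with hC
  refine ⟨N, N, hN15, le_rfl, C, ?_⟩
  intro s₀ hs₀
  set s₁ : ℝ := min s₀ 1 with hs₁
  have hs₁0 : 0 < s₁ := lt_min hs₀ one_pos
  have hs₁1 : s₁ ≤ 1 := min_le_right _ _
  -- total coefficient
  set L : ℝ := 4 * C₃ * (C₁ * (C₀ + 1) + C₁ + 1) + C₉ * C₁
    + 64 * CF * (C₁₀ * C₁ + C₃ * (C₁ * (C₀ + 1) + C₁ + 1)) + 1 with hL
  have hL0 : 0 < L := by positivity
  set ε₀ : ℝ := min (min (min 1 ε₁) (min ε₃ (ε₃ / C₁))) (min (min (min (δ₉ / C₁) (δ₁₀ / C₁))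
    (min (δy / C₁) (1 / C₁))) (min (min (1 / C₀ ^ 2) (1 / (4 * L) ^ 2))
    (min (1 / (C₁ * (C₀ + 1)) ^ 2) (min (1 / (2 * K₃ * C₁ ^ 2)) (s₁ ^ N / C₁))))) with hε₀
  refine ⟨ε₀, by positivity, ?_⟩
  intro S r ε κ hS hεpos hεε₀ hκ0 hκ'
  have hle : ε ≤ 1 ∧ ε ≤ ε₁ ∧ ε ≤ ε₃ ∧ ε ≤ ε₃ / C₁ ∧ ε ≤ δ₉ / C₁ ∧ ε ≤ δ₁₀ / C₁ ∧ ε ≤ δy / C₁ ∧
      ε ≤ 1 / C₁ ∧ ε ≤ 1 / C₀ ^ 2 ∧ ε ≤ 1 / (4 * L) ^ 2 ∧ ε ≤ 1 / (C₁ * (C₀ + 1)) ^ 2 ∧
      ε ≤ 1 / (2 * K₃ * C₁ ^ 2) ∧ ε ≤ s₁ ^ N / C₁ := by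
    simp only [hε₀, le_min_iff] at hεε₀
    tauto
  obtain ⟨l1, l2, l3, l4, l5, l6, l7, l8, l9, l10, l11, l12, l13⟩ := hle
  have hsq0 : 0 < Real.sqrt ε := Real.sqrt_pos.2 hεpos
  have hεsq : ε ≤ Real.sqrt ε := by
    rw [Real.le_sqrt hεpos.le hεpos.le]
    nlinarith
  have sqle : ∀ c : ℝ, 0 < c → ε ≤ 1 / c ^ 2 → c * Real.sqrt ε ≤ 1 := by
    intro c hc h
    have h1 : Real.sqrt ε ≤ 1 / c := by
      rw [Real.sqrt_le_left (by positivity)]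
      rw [div_pow, one_pow]
      exact h
    calc c * Real.sqrt ε ≤ c * (1 / c) := mul_le_mul_of_nonneg_left h1 hc.le
      _ = 1 := by field_simp
  have hκ : κ ≤ C₀ * Real.sqrt ε := hκ'.trans
    (mul_le_mul_of_nonneg_right (le_max_left _ _) hsq0.le)
  have hκ1 : κ ≤ 1 := hκ.trans (sqle C₀ (by linarith) l9)
  have hL1 : L * Real.sqrt ε ≤ 1 / 4 := by
    have := sqle (4 * L) (by positivity) l10
    linarith
  obtain ⟨a, ha, hres, hlip, horth⟩ := hD1 r ε κ hεpos.le l2 hκ0 hκ1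
    (fun u hu => (hS.pos u hu).1) hS.bd hS.lip
  have mulle : ∀ c : ℝ, ε ≤ c / C₁ → C₁ * ε ≤ c := by
    intro c h
    rw [le_div_iff₀ hC₁] at h
    linarith
  have ha1 : ‖a‖ ≤ 1 := ha.trans (mulle 1 l8)
  have ha3 : ‖a‖ ≤ ε₃ := ha.trans (mulle ε₃ l4)
  have ha9 : ‖a‖ ≤ δ₉ := ha.trans (mulle δ₉ l5)
  have ha10 : ‖a‖ ≤ δ₁₀ := ha.trans (mulle δ₁₀ l6)
  have hay : ‖a‖ ≤ δy := ha.trans (mulle δy l7)
  have ha0 := norm_nonneg a
  set κe : ℝ := C₁ * (κ + ε) with hκe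
  have hκe0 : 0 ≤ κe := by positivity
  have hκeb : κe ≤ C₁ * (C₀ + 1) * Real.sqrt ε := by
    have : κ + ε ≤ (C₀ + 1) * Real.sqrt ε := by linarith
    calc κe = C₁ * (κ + ε) := rfl
      _ ≤ C₁ * ((C₀ + 1) * Real.sqrt ε) := mul_le_mul_of_nonneg_left this hC₁.le
      _ = _ := by ring
  have hκe1 : κe ≤ 1 := hκeb.trans (sqle _ (by positivity) l11)
  -- the supremum of the remainder
  set h : V → ℝ := res r a with hh
  have hcont : ContinuousOn h sph := lip_cont hlip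
  set T : Set ℝ := (fun u => |h u|) '' sph with hT
  have hTne : T.Nonempty := ⟨_, e 0, e_sph 0, rfl⟩
  have hTbd : BddAbove T := ⟨C₁ * ε, by rintro _ ⟨u, hu, rfl⟩; exact hres u hu⟩
  set E : ℝ := sSup T with hE
  have hEle : ∀ u ∈ sph, |h u| ≤ E := fun u hu => le_csSup hTbd ⟨u, hu, rfl⟩
  have hEmin : ∀ B : ℝ, (∀ u ∈ sph, |h u| ≤ B) → E ≤ B := fun B hB =>
    csSup_le hTne (by rintro _ ⟨u, hu, rfl⟩; exact hB u hu)
  have hE0 : 0 ≤ E := (abs_nonneg _).trans (hEle _ (e_sph 0))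
  have hEC : E ≤ C₁ * ε := hEmin _ hres
  have hE1' : E ≤ 1 := hEC.trans (mulle 1 l8)
  have horthE := horth E hEle
  -- main equation
  have hmain : ∀ R ∈ SO3, |∑ j, h (yh N a R j) + Ph N a R|
      ≤ C₃ * (κe + ‖a‖ + ε) * E + C₃ * ‖a‖ ^ N := fun R hR =>
    hD3 S r ε κ hS hεpos.le l3 a E κe ha3 hEle hE1' hκe0 hκe1 hlip R hR
  -- smallness of the coefficient
  have hsum : κe + ‖a‖ + ε ≤ (C₁ * (C₀ + 1) + C₁ + 1) * Real.sqrt ε := by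
    have : C₁ * ε ≤ C₁ * Real.sqrt ε := mul_le_mul_of_nonneg_left hεsq hC₁.le
    linarith
  have hsum0 : 0 ≤ κe + ‖a‖ + ε := by positivity
  -- Step 1
  have step1 : ∀ Pm : ℝ, (∀ R ∈ SO3, |Ph N a R| ≤ Pm) → E ≤ 16 * Pm + K₁ * ‖a‖ ^ N := by
    intro Pm hPm
    refine num1 (C₃ := C₃) (C₉ := C₉) (C₁ := C₁) (κe := κe) (ε := ε) (na := ‖a‖) ?_ ?_ hE0 rfl
    · apply hEmin
      intro u hu
      have hD : ∀ R ∈ SO3, |∑ j, h (yh N a R j)| ≤ Pm + C₃ * (κe + ‖a‖ + ε) * E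
          + C₃ * ‖a‖ ^ N := by
        intro R hR
        have h1 := hmain R hR
        have h2 := hPm R hR
        have h3 : ∑ j, h (yh N a R j) = (∑ j, h (yh N a R j) + Ph N a R) - Ph N a R := by ring
        rw [h3]
        refine (abs_sub _ _).trans ?_
        linarith
      have := hT9 a ha9 h κe E _ _ hκe0 hκe1 hlip hEle horthE hD u hu
      linarith
    · have h1 : 4 * C₃ * (κe + ‖a‖ + ε) ≤ 4 * C₃ * ((C₁ * (C₀ + 1) + C₁ + 1) * Real.sqrt ε) :=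
        mul_le_mul_of_nonneg_left hsum (by positivity)
      have h2 : C₉ * C₁ * ε ≤ C₉ * C₁ * Real.sqrt ε :=
        mul_le_mul_of_nonneg_left hεsq (by positivity)
      have h3 : (4 * C₃ * (C₁ * (C₀ + 1) + C₁ + 1) + C₉ * C₁) * Real.sqrt ε
          ≤ L * Real.sqrt ε := by
        apply mul_le_mul_of_nonneg_right _ hsq0.le
        rw [hL]
        have : 0 ≤ 64 * CF * (C₁₀ * C₁ + C₃ * (C₁ * (C₀ + 1) + C₁ + 1)) := by positivity
        linarith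
      linarith
  -- Step 2
  have hN2 : 2 ≤ N := by omega
  have haN2 : ‖a‖ ^ N ≤ ‖a‖ ^ 2 := pow_le_pow_of_le_one ha0 ha1 hN2
  have step2 : ∀ σ : ℝ, 0 ≤ σ → (∀ α, dg α ≠ 1 → |a α| ≤ σ) → ε ≤ 2 * K₃ * σ := by
    intro σ hσ hσa
    have h1 := step1 (C₄ * (σ + ‖a‖ ^ 2)) fun R hR => hD4 a σ ha1 hσ hσa R hR
    have h2 := hD5 S r ε κ hS hεpos.le l1 a σ E ha1 hσ hσa hEle
    have h3 : K₁ * ‖a‖ ^ N ≤ K₁ * (σ + ‖a‖ ^ 2) :=
      mul_le_mul_of_nonneg_left (by linarith) hK₁0.le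
    have h4 : ε ≤ K₃ * (σ + ‖a‖ ^ 2) := by
      rw [hK₃, hK₂]
      linarith
    have h5 : ‖a‖ ^ 2 ≤ (C₁ * ε) ^ 2 := pow_le_pow_left₀ ha0 ha 2
    have h6 : K₃ * (C₁ * ε) ^ 2 ≤ ε / 2 := by
      have : 2 * K₃ * C₁ ^ 2 * ε ≤ 1 := by
        rw [le_div_iff₀ (by positivity)] at l12
        linarith
      nlinarith
    have h7 : K₃ * ‖a‖ ^ 2 ≤ K₃ * (C₁ * ε) ^ 2 := mul_le_mul_of_nonneg_left h5 hK₃0.le
    linarith
  -- Step 3: the scale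
  have hex : ∃ α, dg α ≠ 1 ∧ a α ≠ 0 := by
    by_contra hcon
    push Not at hcon
    have := step2 0 le_rfl fun α hα => by rw [hcon α hα, abs_zero]
    linarith
  obtain ⟨s, hs0, hsle, α₀, hα₀, hα₀s⟩ := exists_scale a hex
  have hwt2 : ∀ α : Idx N, 2 ≤ wt α := fun α => le_max_left _ _
  have hwtN : ∀ α : Idx N, wt α ≤ N := fun α => max_le hN2 α.2
  have hss₁ : s ≤ s₁ := by
    by_contra hcon
    push Not at hcon
    have h1 : s₁ ^ wt α₀ < s ^ wt α₀ := pow_lt_pow_left₀ hcon hs₁0.le (by have := hwt2 α₀; omega)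
    have h2 : s ^ wt α₀ ≤ ‖a‖ := by
      rw [← hα₀s]
      simpa using norm_le_pi_norm a α₀
    have h3 : s₁ ^ N ≤ s₁ ^ wt α₀ := pow_le_pow_of_le_one hs₁0.le hs₁1 (hwtN α₀)
    have h4 := ha.trans (mulle _ l13)
    linarith
  have hs1 : s ≤ 1 := hss₁.trans hs₁1
  have hεs : ε ≤ 2 * K₃ * s ^ 2 := by
    apply step2 _ (by positivity)
    intro α hα
    exact (hsle α hα).trans (pow_le_pow_of_le_one hs0.le hs1 (hwt2 α))
  have has : ‖a‖ ≤ K₄ * s ^ 2 := by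
    calc ‖a‖ ≤ C₁ * ε := ha
      _ ≤ C₁ * (2 * K₃ * s ^ 2) := mul_le_mul_of_nonneg_left hεs hC₁.le
      _ = K₄ * s ^ 2 := by rw [hK₄]; ring
  have hpw : ∀ α : Idx N, 0 < s ^ wt α := fun α => pow_pos hs0 _
  set ah : Idx N → ℝ := fun α => a α / s ^ wt α with hah
  have haeq : (fun α => s ^ wt α * ah α) = a := by
    funext α
    simp only [hah]
    rw [mul_div_cancel₀ _ (hpw α).ne']
  have hahb : ∀ α, |ah α| ≤ Cb := by
    intro α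
    simp only [hah]
    rw [abs_div, abs_of_pos (hpw α), div_le_iff₀ (hpw α)]
    by_cases hα : dg α = 1
    · have hw : wt α = 2 := by simp [wt, hα]
      have h1 : |a α| ≤ ‖a‖ := by simpa using norm_le_pi_norm a α
      rw [hw]
      calc |a α| ≤ K₄ * s ^ 2 := h1.trans has
        _ ≤ Cb * s ^ 2 := mul_le_mul_of_nonneg_right (le_max_right _ _) (by positivity)
    · calc |a α| ≤ 1 * s ^ wt α := by rw [one_mul]; exact hsle α hα
        _ ≤ Cb * s ^ wt α := mul_le_mul_of_nonneg_right (le_max_left _ _) (hpw α).le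
  have hsN : ‖a‖ ^ N ≤ K₄ ^ N * s ^ (N + 1) := by
    calc ‖a‖ ^ N ≤ (K₄ * s ^ 2) ^ N := pow_le_pow_left₀ ha0 has N
      _ = K₄ ^ N * s ^ (2 * N) := by rw [mul_pow, ← pow_mul]
      _ ≤ K₄ ^ N * s ^ (N + 1) := mul_le_mul_of_nonneg_left
          (pow_le_pow_of_le_one hs0.le hs1 (by omega)) (by positivity)
  obtain ⟨P, hPdeg, hP⟩ := hE1 s ah hs0.le hs1 hahb
  rw [haeq] at hP
  have hsN0 : 0 < s ^ (N + 1) := pow_pos hs0 _
  -- test functionals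
  have hyne : ∀ R ∈ SO3, ∀ j, yv N a R j ≠ 0 := by
    intro R hR j h0
    have := (hyv a hay R hR j).2.1
    rw [h0] at this
    simp [nrm] at this
    norm_num at this
  set Bd : ℝ := 1 / (64 * CF) * E + C₁₀ * (C₁ * ε * E) + (C₃ * (κe + ‖a‖ + ε) * E
    + C₃ * ‖a‖ ^ N) + C₁' * s ^ (N + 1) with hBd
  have htest : ∀ n ≤ N, ∀ p q : Fin n → Fin 3,
      |∫ R : ↥SO3, (∏ i, R.1 (p i) (q i)) * evM P R.1 ∂μ| ≤ Bd := by
    intro n hn p q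
    have hm : Continuous (fun R : ↥SO3 => ∏ i, R.1 (p i) (q i)) := by
      refine continuous_finsetProd _ fun i _ => ?_
      have : Continuous (fun R : M3 => R (p i) (q i)) := by fun_prop
      exact this.comp continuous_subtype_val
    have hmb : ∀ R : ↥SO3, |∏ i, R.1 (p i) (q i)| ≤ 1 := by
      intro R
      rw [Finset.abs_prod]
      exact Finset.prod_le_one (fun i _ => abs_nonneg _) fun i _ => SO3_entry_le R.2 _ _
    have hSg : Continuous (fun R : ↥SO3 => ∑ j, h (yh N a R.1 j)) :=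
      continuous_finsetSum _ fun j _ => cont_hyh hcont hyne j
    have hPc : Continuous (fun R : ↥SO3 => evM P R.1) := (cont_evM P).comp continuous_subtype_val
    have hPhc : Continuous (fun R : ↥SO3 => Ph N a R.1) :=
      (cont_Ph N a).comp continuous_subtype_val
    have e1 : ∫ R : ↥SO3, (∏ i, R.1 (p i) (q i)) * evM P R.1 ∂μ
        = ∫ R : ↥SO3, (∏ i, R.1 (p i) (q i)) *
            (∑ j, h (yh N a R.1 j) + Ph N a R.1 - (Ph N a R.1 - evM P R.1)) ∂μ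
          - ∫ R : ↥SO3, (∏ i, R.1 (p i) (q i)) * ∑ j, h (yh N a R.1 j) ∂μ := by
      rw [← integral_sub (integrable_of_cont hμ (by fun_prop))
        (integrable_of_cont hμ (by fun_prop))]
      congr 1
      funext R
      ring
    rw [e1]
    refine (abs_sub _ _).trans ?_
    have b1 : |∫ R : ↥SO3, (∏ i, R.1 (p i) (q i)) *
            (∑ j, h (yh N a R.1 j) + Ph N a R.1 - (Ph N a R.1 - evM P R.1)) ∂μ|
        ≤ (C₃ * (κe + ‖a‖ + ε) * E + C₃ * ‖a‖ ^ N) + C₁' * s ^ (N + 1) := by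
      apply abs_integral_le hμ
      intro R
      rw [abs_mul]
      have b3 : |∑ j, h (yh N a R.1 j) + Ph N a R.1 - (Ph N a R.1 - evM P R.1)|
          ≤ (C₃ * (κe + ‖a‖ + ε) * E + C₃ * ‖a‖ ^ N) + C₁' * s ^ (N + 1) :=
        (abs_sub _ _).trans (add_le_add (hmain R.1 R.2) (hP R.1 R.2))
      calc _ ≤ 1 * _ := mul_le_mul (hmb R) b3 (abs_nonneg _) zero_le_one
        _ = _ := one_mul _
    have b2 := hT10 a ha10 h E (C₁ * ε * E) hcont hEle horthE n hn p q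
    rw [hBd]
    linarith
  have hPm : ∀ R ∈ SO3, |Ph N a R| ≤ CF * Bd + C₁' * s ^ (N + 1) := by
    intro R hR
    have h1 := hFD P Bd hPdeg htest R hR
    have h2 := hP R hR
    have h3 : Ph N a R = (Ph N a R - evM P R) + evM P R := by ring
    rw [h3]
    refine (abs_add_le _ _).trans ?_
    linarith
  have hPm2 : CF * Bd + C₁' * s ^ (N + 1) ≤ E / 32 + K₇ * s ^ (N + 1) := by
    have c1 : CF * (1 / (64 * CF) * E) = E / 64 := by field_simp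
    have c2 : CF * (C₁₀ * C₁ * ε + C₃ * (κe + ‖a‖ + ε)) ≤ 1 / 256 := by
      have d1 : C₁₀ * C₁ * ε ≤ C₁₀ * C₁ * Real.sqrt ε :=
        mul_le_mul_of_nonneg_left hεsq (by positivity)
      have d2 : C₃ * (κe + ‖a‖ + ε) ≤ C₃ * ((C₁ * (C₀ + 1) + C₁ + 1) * Real.sqrt ε) :=
        mul_le_mul_of_nonneg_left hsum hC₃.le
      have d3 : CF * (C₁₀ * C₁ * ε + C₃ * (κe + ‖a‖ + ε))
          ≤ CF * (C₁₀ * C₁ * Real.sqrt ε + C₃ * ((C₁ * (C₀ + 1) + C₁ + 1) * Real.sqrt ε)) :=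
        mul_le_mul_of_nonneg_left (add_le_add d1 d2) hCF.le
      have d4 : 64 * (CF * (C₁₀ * C₁ * Real.sqrt ε
          + C₃ * ((C₁ * (C₀ + 1) + C₁ + 1) * Real.sqrt ε))) ≤ L * Real.sqrt ε := by
        have : 0 ≤ 4 * C₃ * (C₁ * (C₀ + 1) + C₁ + 1) + C₉ * C₁ + 1 := by positivity
        have d5 : 64 * CF * (C₁₀ * C₁ + C₃ * (C₁ * (C₀ + 1) + C₁ + 1)) ≤ L := by
          rw [hL]
          linarith
        calc _ = 64 * CF * (C₁₀ * C₁ + C₃ * (C₁ * (C₀ + 1) + C₁ + 1)) * Real.sqrt ε := by ring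
          _ ≤ _ := mul_le_mul_of_nonneg_right d5 hsq0.le
      linarith
    have c3 : CF * (C₁₀ * C₁ * ε + C₃ * (κe + ‖a‖ + ε)) * E ≤ 1 / 256 * E :=
      mul_le_mul_of_nonneg_right c2 hE0
    have c4 : CF * (C₃ * ‖a‖ ^ N) ≤ CF * (C₃ * (K₄ ^ N * s ^ (N + 1))) :=
      mul_le_mul_of_nonneg_left (mul_le_mul_of_nonneg_left hsN hC₃.le) hCF.le
    have c5 : CF * Bd = CF * (1 / (64 * CF) * E)
        + CF * (C₁₀ * C₁ * ε + C₃ * (κe + ‖a‖ + ε)) * E + CF * (C₃ * ‖a‖ ^ N)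
        + CF * (C₁' * s ^ (N + 1)) := by
      rw [hBd]
      ring
    rw [c5, c1]
    have c6 : K₇ * s ^ (N + 1) = CF * (C₃ * (K₄ ^ N * s ^ (N + 1)))
        + CF * (C₁' * s ^ (N + 1)) + C₁' * s ^ (N + 1) := by
      rw [hK₇]
      ring
    rw [c6]
    linarith
  have hPm3 : ∀ R ∈ SO3, |Ph N a R| ≤ E / 32 + K₇ * s ^ (N + 1) := fun R hR =>
    (hPm R hR).trans hPm2
  have hEs : E ≤ K₉ * s ^ (N + 1) := by
    have h1 := step1 _ hPm3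
    have h2 : K₁ * ‖a‖ ^ N ≤ K₈ * s ^ (N + 1) := by
      rw [hK₈, mul_assoc]
      exact mul_le_mul_of_nonneg_left hsN hK₁0.le
    rw [hK₉]
    linarith
  refine ⟨s, ah, hs0, hss₁.trans (min_le_left _ _), fun α => (hahb α).trans (le_max_left _ _),
    ⟨α₀, hα₀, ?_⟩, ?_⟩
  · simp only [hah]
    rw [abs_div, abs_of_pos (hpw α₀), hα₀s, div_self (hpw α₀).ne']
  · intro R hR
    rw [haeq]
    refine (hPm3 R hR).trans ?_
    have h1 : K₁₀ * s ^ (N + 1) ≤ C * s ^ (N + 1) :=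
      mul_le_mul_of_nonneg_right (le_max_right _ _) hsN0.le
    have h2 : E / 32 ≤ E := by linarith
    rw [hK₁₀] at h1
    linarith

end Pool.Agent.Helper26.LU
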