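import Pool.Agent.Helper26.LU.Goals

/-!
# Project LU: assembly of part B
-/

namespace Pool.Agent.Helper26.LU

open MeasureTheory Matrix Real Filter Topology

theorem dg_zero_unique {N : ℕ} {α β : Idx N} (h : dg α = 0) (h' : dg β = 0) : α = β := by
  obtain ⟨⟨a1, a2, a3⟩, ha⟩ := α
  obtain ⟨⟨b1, b2, b3⟩, hb⟩ := β
  simp only [dg] at h h'
  have h1 : (a1 : ℕ) = b1 := by omega
  have h2 : (a2 : ℕ) = b2 := by omega
  have h3 : (a3 : ℕ) = b3 := by omega
  simp only [Subtype.mk.injEq, Prod.mk.injEq]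
  exact ⟨Fin.ext h1, Fin.ext h2, Fin.ext h3⟩

/-- All coefficients of degree `≥ 2` of the limit vanish. -/
theorem limit_zero_ge (hE2 : G_E2) (hE4 : G_E4) (hE8 : G_E8) (hE9 : G_E9) (hE12 : G_E12)
    (hAC : G_AC) {N M : ℕ} (hN : 15 ≤ N) (hM : N ≤ M) {C : ℝ} {s : ℕ → ℝ}
    {ah : ℕ → Idx N → ℝ} {as : Idx N → ℝ} (hs : ∀ k, 0 < s k) (hs0 : Tendsto s atTop (𝓝 0))
    (hah : Tendsto ah atTop (𝓝 as))
    (hb : ∀ k, ∀ R ∈ SO3, |Ph M (fun α => s k ^ wt α * ah k α) R| ≤ C * s k ^ (N + 1))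
    (α : Idx N) (hα : 2 ≤ dg α) : as α = 0 := by
  apply hE8 N (dg α) as _ α rfl
  intro A hA
  have hdN : dg α ≤ N := α.2
  refine hAC M N (fun l => ∑ β : Idx N with dg β = l,
    (as β : ℂ) * mon β (fun i => (A i 0 : ℂ) + Complex.I * (A i 1 : ℂ))) hN hM ?_ (dg α) hα hdN
  intro z hz1 hz2 w hw
  obtain ⟨lam, B, hB, hz⟩ := hE9 z hz1 hz2
  set m : Fin 3 → ℂ := fun k => (1 / 2 : ℂ) * ((B 0 k : ℂ) - Complex.I * (B 1 k : ℂ)) with hm
  set n : Fin 3 → ℂ := fun i => (A i 0 : ℂ) + Complex.I * (A i 1 : ℂ) with hn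
  have hz' : z = fun j => (lam : ℂ) * (∑ k, m k * (e j k : ℂ)) := funext hz
  rw [hz', hE12, ← hE4 N M (fun β => (as β : ℂ)) n m]
  have h2 := hE2 N M C s ah as hs hs0 hah hb A hA B hB w hw
  have hZ : (Matrix.of fun i k => Polynomial.C (Zm A B i k) * Polynomial.X :
      Matrix (Fin 3) (Fin 3) (Polynomial ℂ))
      = Matrix.of fun i k => Polynomial.C (n i * m k) * Polynomial.X := by
    ext1 i k
    simp only [Matrix.of_apply, Zm, hn, hm]
    congr 2
    ring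
  rw [hZ] at h2
  rw [h2, mul_zero]

theorem gPB (hE2 : G_E2) (hE4 : G_E4) (hE8 : G_E8) (hE9 : G_E9) (hE12 : G_E12) (hE11 : G_E11)
    (hAC : G_AC) : G_PB := by
  intro N M hN hM C
  by_contra hcon
  push Not at hcon
  have h1 : ∀ k : ℕ, ∃ (s : ℝ) (ah : Idx N → ℝ), 0 < s ∧ s ≤ 1 / ((k : ℝ) + 1) ∧
      (∀ α, |ah α| ≤ C) ∧ (∃ α, dg α ≠ 1 ∧ |ah α| = 1) ∧
      ∀ R ∈ SO3, |Ph M (fun α => s ^ wt α * ah α) R| ≤ C * s ^ (N + 1) := fun k =>
    hcon (1 / ((k : ℝ) + 1)) (by positivity)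
  choose s ah hs hs1 hC hex hR using h1
  have hC0 : 0 ≤ C := by
    obtain ⟨α, _, hα⟩ := hex 0
    have := hC 0 α
    linarith
  have hmem : ∀ k, ah k ∈ Metric.closedBall (0 : Idx N → ℝ) C := by
    intro k
    rw [mem_closedBall_zero_iff, pi_norm_le_iff_of_nonneg hC0]
    intro α
    simpa using hC k α
  obtain ⟨as, _, φ, hφ, hlim⟩ := (isCompact_closedBall (0 : Idx N → ℝ) C).tendsto_subseq hmem
  have hs0 : Tendsto s atTop (𝓝 0) := by
    refine squeeze_zero (fun k => (hs k).le) hs1 ?_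
    exact tendsto_one_div_add_atTop_nhds_zero_nat
  have hs0' : Tendsto (s ∘ φ) atTop (𝓝 0) := hs0.comp hφ.tendsto_atTop
  have hge := fun α hα => limit_zero_ge hE2 hE4 hE8 hE9 hE12 hAC hN hM
    (fun k => hs (φ k)) hs0' hlim (fun k => hR (φ k)) α hα
  have h0 : ∀ α : Idx N, dg α = 0 → as α = 0 := by
    intro α hα
    have h := hE11 N M C (s ∘ φ) (ah ∘ φ) as (by omega) (fun k => hs (φ k)) hs0' hlim
      (fun k => hR (φ k)) 1 SO3_one
    have e1 : ∑ β : Idx N with dg β = 0, as β = as α := by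
      rw [Finset.sum_eq_single α]
      · intro β hβ hne
        exact absurd (dg_zero_unique (Finset.mem_filter.1 hβ).2 hα) hne
      · intro hn
        exact (hn (by simp [hα])).elim
    have e2 : ∑ j, ∑ β : Idx N with dg β = 2, as β * mon β ((1 : M3) *ᵥ e j) = 0 := by
      apply Finset.sum_eq_zero
      intro j _
      apply Finset.sum_eq_zero
      intro β hβ
      rw [hge β (Finset.mem_filter.1 hβ).2.ge, zero_mul]
    rw [e1, e2] at h
    linarith
  have hall : ∀ α : Idx N, dg α ≠ 1 → as α = 0 := by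
    intro α hα
    rcases Nat.lt_or_ge (dg α) 2 with h | h
    · exact h0 α (by omega)
    · exact hge α h
  have hev : ∀ᶠ k in atTop, ∀ α : Idx N, dg α ≠ 1 → |ah (φ k) α| < 1 := by
    rw [eventually_all]
    intro α
    have ht := (tendsto_pi_nhds.1 hlim) α
    by_cases hα : dg α = 1
    · exact Eventually.of_forall fun k h => absurd hα h
    · rw [hall α hα] at ht
      have := ht.abs
      rw [abs_zero] at this
      filter_upwards [this.eventually (gt_mem_nhds one_pos)] with k hk _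
      exact hk
  obtain ⟨k, hk⟩ := hev.exists
  obtain ⟨α, hα, hα1⟩ := hex (φ k)
  have := hk α hα
  linarith

end Pool.Agent.Helper26.LU
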