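import Pool.Agent.Helper26.LU.Base

/-!
# Project LU: topology of the rotation group, bounds for polynomials, torus averages
-/

namespace Pool.Agent.Helper26.LU

open MeasureTheory Matrix Real

theorem isClosed_SO3 : IsClosed (SO3 : Set M3) := by
  have : (SO3 : Set M3) = {R | R * Rᵀ = 1} ∩ {R | R.det = 1} := by
    ext R
    exact mem_SO3 R
  rw [this]
  exact (isClosed_eq (by fun_prop) (by fun_prop)).inter (isClosed_eq (by fun_prop) (by fun_prop))

theorem isCompact_SO3 : IsCompact (SO3 : Set M3) := by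
  have hK : IsCompact (Set.univ.pi fun _ : Fin 3 => Set.univ.pi fun _ : Fin 3 =>
      Set.Icc (-1 : ℝ) 1) :=
    isCompact_univ_pi fun _ => isCompact_univ_pi fun _ => isCompact_Icc
  refine IsCompact.of_isClosed_subset (s := (Set.univ.pi fun _ : Fin 3 => Set.univ.pi
    fun _ : Fin 3 => Set.Icc (-1 : ℝ) 1 : Set (Fin 3 → Fin 3 → ℝ))) hK isClosed_SO3 ?_
  intro R hR i _ j _
  have := abs_le.1 (SO3_entry_le hR i j)
  exact ⟨this.1, this.2⟩

instance : CompactSpace ↥SO3 := isCompact_iff_compactSpace.1 isCompact_SO3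

instance : ContinuousInv ↥SO3 := by
  constructor
  apply Continuous.subtype_mk
  exact (continuous_subtype_val (p := fun R : M3 => R ∈ SO3)).matrix_conjTranspose

instance : IsTopologicalGroup ↥SO3 where

theorem coe_inv (R : ↥SO3) : ((R⁻¹ : ↥SO3) : M3) = (R : M3)ᵀ := by
  rw [← Matrix.star_eq_inv]
  rfl

/-! ### Polynomials -/

theorem eA_real (j : Fin 4) : eA ℝ j = e j := rfl

theorem mon_bound {N : ℕ} (t : Idx N) {x : V} {B : ℝ} (hB : 1 ≤ B) (hx : ‖x‖ ≤ B) :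
    |mon t x| ≤ B ^ N := by
  have hc : ∀ i : Fin 3, |x i| ≤ B := fun i => (coord_le_norm x i).trans hx
  have hB0 : 0 ≤ B := by linarith
  rw [mon, abs_mul, abs_mul, abs_pow, abs_pow, abs_pow]
  calc |x 0| ^ (t.1.1 : ℕ) * |x 1| ^ (t.1.2.1 : ℕ) * |x 2| ^ (t.1.2.2 : ℕ)
      ≤ B ^ (t.1.1 : ℕ) * B ^ (t.1.2.1 : ℕ) * B ^ (t.1.2.2 : ℕ) := by
        gcongr <;> exact hc _
    _ = B ^ ((t.1.1 : ℕ) + (t.1.2.1 : ℕ) + (t.1.2.2 : ℕ)) := by rw [pow_add, pow_add]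
    _ ≤ B ^ N := pow_le_pow_right₀ hB t.2

theorem ev_bound {N : ℕ} (a : Idx N → ℝ) {x : V} {B : ℝ} (hB : 1 ≤ B) (hx : ‖x‖ ≤ B) :
    |ev a x| ≤ Fintype.card (Idx N) * B ^ N * ‖a‖ := by
  rw [ev]
  refine (Finset.abs_sum_le_sum_abs _ _).trans ?_
  calc ∑ t, |a t * mon t x| ≤ ∑ _t : Idx N, ‖a‖ * B ^ N := by
        apply Finset.sum_le_sum
        intro t _
        rw [abs_mul]
        have h1 : |a t| ≤ ‖a‖ := by simpa using norm_le_pi_norm a t
        exact mul_le_mul h1 (mon_bound t hB hx) (abs_nonneg _) (norm_nonneg _)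
    _ = Fintype.card (Idx N) * B ^ N * ‖a‖ := by
        rw [Finset.sum_const, nsmul_eq_mul, Finset.card_univ]
        ring

theorem pow_lip {x y B : ℝ} (hB : 1 ≤ B) (hx : |x| ≤ B) (hy : |y| ≤ B) (n : ℕ) :
    |x ^ n - y ^ n| ≤ n * B ^ n * |x - y| := by
  induction n with
  | zero => simp
  | succ n ih =>
    have : x ^ (n + 1) - y ^ (n + 1) = x * (x ^ n - y ^ n) + (x - y) * y ^ n := by ring
    rw [this]
    refine (abs_add_le _ _).trans ?_
    rw [abs_mul, abs_mul, abs_pow]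
    have h0 : 0 ≤ |x - y| := abs_nonneg _
    have hB0 : 0 ≤ B := by linarith
    have h1 : |x| * |x ^ n - y ^ n| ≤ B * (n * B ^ n * |x - y|) :=
      mul_le_mul hx ih (abs_nonneg _) hB0
    have h2 : |y| ^ n ≤ B ^ (n + 1) :=
      (pow_le_pow_left₀ (abs_nonneg _) hy n).trans (pow_le_pow_right₀ hB (Nat.le_succ n))
    have h3 : |x - y| * |y| ^ n ≤ |x - y| * B ^ (n + 1) := mul_le_mul_of_nonneg_left h2 h0
    push_cast
    calc |x| * |x ^ n - y ^ n| + |x - y| * |y| ^ n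
        ≤ B * (n * B ^ n * |x - y|) + |x - y| * B ^ (n + 1) := add_le_add h1 h3
      _ = ((n : ℝ) + 1) * B ^ (n + 1) * |x - y| := by ring

theorem mon_lip {N : ℕ} (t : Idx N) {x y : V} {B : ℝ} (hB : 1 ≤ B) (hx : ‖x‖ ≤ B)
    (hy : ‖y‖ ≤ B) : |mon t x - mon t y| ≤ 3 * (N : ℝ) * B ^ (3 * N) * ‖x - y‖ := by
  have hB0 : 0 ≤ B := by linarith
  have hcx : ∀ i : Fin 3, |x i| ≤ B := fun i => (coord_le_norm x i).trans hx
  have hcy : ∀ i : Fin 3, |y i| ≤ B := fun i => (coord_le_norm y i).trans hy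
  have hd : ∀ i : Fin 3, |x i - y i| ≤ ‖x - y‖ := fun i => coord_le_norm (x - y) i
  have hn := norm_nonneg (x - y)
  have h1 : (t.1.1 : ℕ) ≤ N := by have := t.2; omega
  have h2 : (t.1.2.1 : ℕ) ≤ N := by have := t.2; omega
  have h3 : (t.1.2.2 : ℕ) ≤ N := by have := t.2; omega
  have pl : ∀ (i : Fin 3) (n : ℕ), n ≤ N →
      |x i ^ n - y i ^ n| ≤ N * B ^ N * ‖x - y‖ := by
    intro i n hn'
    refine (pow_lip hB (hcx i) (hcy i) n).trans ?_
    have : (n : ℝ) ≤ N := by exact_mod_cast hn'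
    have hp : B ^ n ≤ B ^ N := pow_le_pow_right₀ hB hn'
    gcongr
    exact hd i
  have pb : ∀ (z : V), (∀ i, |z i| ≤ B) → ∀ (i : Fin 3) (n : ℕ), n ≤ N → |z i ^ n| ≤ B ^ N := by
    intro z hz i n hn'
    rw [abs_pow]
    exact (pow_le_pow_left₀ (abs_nonneg _) (hz i) n).trans (pow_le_pow_right₀ hB hn')
  have key : mon t x - mon t y
      = (x 0 ^ (t.1.1 : ℕ) - y 0 ^ (t.1.1 : ℕ)) * x 1 ^ (t.1.2.1 : ℕ) * x 2 ^ (t.1.2.2 : ℕ)
        + y 0 ^ (t.1.1 : ℕ) * (x 1 ^ (t.1.2.1 : ℕ) - y 1 ^ (t.1.2.1 : ℕ))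
          * x 2 ^ (t.1.2.2 : ℕ)
        + y 0 ^ (t.1.1 : ℕ) * y 1 ^ (t.1.2.1 : ℕ)
          * (x 2 ^ (t.1.2.2 : ℕ) - y 2 ^ (t.1.2.2 : ℕ)) := by
    simp only [mon]
    ring
  rw [key]
  refine (abs_add_le _ _).trans ?_
  refine (add_le_add_left (abs_add_le _ _) _).trans ?_
  simp only [abs_mul]
  have hL : 0 ≤ (N : ℝ) * B ^ N * ‖x - y‖ := by positivity
  have hP : 0 ≤ B ^ N := by positivity
  have t1 := mul_le_mul (mul_le_mul (pl 0 _ h1) (pb x hcx 1 _ h2) (abs_nonneg _) hL)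
    (pb x hcx 2 _ h3) (abs_nonneg _) (mul_nonneg hL hP)
  have t2 := mul_le_mul (mul_le_mul (pb y hcy 0 _ h1) (pl 1 _ h2) (abs_nonneg _) hP)
    (pb x hcx 2 _ h3) (abs_nonneg _) (mul_nonneg hP hL)
  have t3 := mul_le_mul (mul_le_mul (pb y hcy 0 _ h1) (pb y hcy 1 _ h2) (abs_nonneg _) hP)
    (pl 2 _ h3) (abs_nonneg _) (mul_nonneg hP hP)
  calc _ ≤ (N : ℝ) * B ^ N * ‖x - y‖ * B ^ N * B ^ N + B ^ N * ((N : ℝ) * B ^ N * ‖x - y‖) * B ^ N
        + B ^ N * B ^ N * ((N : ℝ) * B ^ N * ‖x - y‖) := add_le_add (add_le_add t1 t2) t3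
    _ = 3 * (N : ℝ) * B ^ (3 * N) * ‖x - y‖ := by
        rw [show 3 * N = N + N + N by ring, pow_add, pow_add]
        ring

theorem ev_lip {N : ℕ} (a : Idx N → ℝ) {x y : V} {B : ℝ} (hB : 1 ≤ B) (hx : ‖x‖ ≤ B)
    (hy : ‖y‖ ≤ B) : |ev a x - ev a y|
      ≤ Fintype.card (Idx N) * (3 * (N : ℝ) * B ^ (3 * N)) * ‖a‖ * ‖x - y‖ := by
  rw [ev, ev, ← Finset.sum_sub_distrib]
  refine (Finset.abs_sum_le_sum_abs _ _).trans ?_
  calc ∑ t, |a t * mon t x - a t * mon t y|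
      ≤ ∑ _t : Idx N, ‖a‖ * (3 * (N : ℝ) * B ^ (3 * N) * ‖x - y‖) := by
        apply Finset.sum_le_sum
        intro t _
        rw [← mul_sub, abs_mul]
        have h1 : |a t| ≤ ‖a‖ := by simpa using norm_le_pi_norm a t
        exact mul_le_mul h1 (mon_lip t hB hx hy) (abs_nonneg _) (norm_nonneg _)
    _ = _ := by
        rw [Finset.sum_const, nsmul_eq_mul, Finset.card_univ]
        ring

theorem ev_continuous {N : ℕ} (a : Idx N → ℝ) : Continuous (fun x : V => ev a x) := by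
  unfold ev mon
  fun_prop

theorem ev_zero {A : Type} [CommRing A] {N : ℕ} (x : Fin 3 → A) :
    ev (0 : Idx N → A) x = 0 := by simp [ev]

theorem Ti_zero {A : Type} [CommRing A] [Algebra ℝ A] {N : ℕ} (X : Matrix (Fin 3) (Fin 3) A)
    (k : ℕ) : Ti (0 : Idx N → A) X k = 0 := by
  cases k with
  | zero => rfl
  | succ k => ext i; simp [Ti, ev_zero]

theorem Ti_succ {N : ℕ} (a : Idx N → ℝ) (R : M3) (k : ℕ) :
    Ti a R (k + 1) = (3 / 8 : ℝ) • ∑ j, ev a (R *ᵥ e j + Ti a R k) • (R *ᵥ e j) := by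
  ext i
  simp [Ti, eA_real, Finset.sum_apply]

theorem yv_zero {N : ℕ} (M : ℕ) (R : M3) (j : Fin 4) : yv M (0 : Idx N → ℝ) R j = R *ᵥ e j := by
  simp [yv, Ti_zero]

theorem yh_zero {N : ℕ} (M : ℕ) {R : M3} (h : R ∈ SO3) (j : Fin 4) :
    yh M (0 : Idx N → ℝ) R j = R *ᵥ e j := by
  rw [yh, yv_zero, proj_self (mulVec_sph h (e_sph j))]

theorem Rk_zero {N : ℕ} (M : ℕ) {Q : M3} (h : Q ∈ SO3) (k : ℕ) :
    Rk M (0 : Idx N → ℝ) Q k = Q := by
  induction k with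
  | zero => rfl
  | succ k ih => rw [Rk, ih, yh_zero M h, Bm_self]; simp

theorem Qp_zero {N : ℕ} (M : ℕ) {Q : M3} (h : Q ∈ SO3) (j : Fin 4) (x y : ℝ) :
    Qp M (0 : Idx N → ℝ) Q j x y = Q * Rot x * sg j * Rot y := by
  have h1 := SO3_mul h (Rot_SO3 x)
  rw [Qp, Rk_zero M h1, yh_zero M h1, Bm_self, one_mul]

theorem FA_zero (N M : ℕ) {Q : M3} (h : Q ∈ SO3) (j k : Fin 4) (x y : ℝ) :
    FA N M j k ((0, Q), x, y) = (Q * Rot x * sg j * Rot y) *ᵥ e k := by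
  have h1 : Q * Rot x * sg j * Rot y ∈ SO3 :=
    SO3_mul (SO3_mul (SO3_mul h (Rot_SO3 x)) (sg_SO3 j)) (Rot_SO3 y)
  have : FA N M j k ((0, Q), x, y)
      = yv M (0 : Idx N → ℝ) (Rk M (0 : Idx N → ℝ) (Qp M (0 : Idx N → ℝ) Q j x y) M) k := rfl
  rw [this, Qp_zero M h, Rk_zero M h1, yv_zero]

theorem FB_zero (N M : ℕ) {Q : M3} (j : Fin 4) (x y : ℝ) :
    FB N M j ((0, Q), x, y) = (Q * Rot x * sg 1 * Rot y) *ᵥ e 1 := by
  have : FB N M j ((0, Q), x, y) = yv M (0 : Idx N → ℝ) (Q * Sm j x y) j := rfl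
  rw [this, yv_zero, Sm, ← mul_assoc, ← mul_assoc, ← mul_assoc, ← Matrix.mulVec_mulVec,
    Bm_mulVec (e_sph j) (e_sph 1) (e_dot_ne j 1)]

theorem Sm_SO3 (j : Fin 4) (x y : ℝ) : Sm j x y ∈ SO3 :=
  SO3_mul (SO3_mul (SO3_mul (Rot_SO3 x) (sg_SO3 1)) (Rot_SO3 y))
    (Bm_SO3 (e_sph j) (e_sph 1) (e_dot_ne j 1))

theorem norm_mulVec_e {R : M3} (h : R ∈ SO3) (j : Fin 4) : ‖R *ᵥ e j‖ ≤ 1 :=
  sph_norm_le (mulVec_sph h (e_sph j))

/-- The iterates of the translation vector are `O(‖a‖)`. -/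
theorem Ti_bound (N k : ℕ) : ∃ C : ℝ, 0 < C ∧ ∀ a : Idx N → ℝ, ‖a‖ ≤ 1 → ∀ R ∈ SO3,
    ‖Ti a R k‖ ≤ C * ‖a‖ := by
  induction k with
  | zero => exact ⟨1, one_pos, fun a _ R _ => by simp [Ti]⟩
  | succ k ih =>
    obtain ⟨C, hC, h⟩ := ih
    refine ⟨3 / 8 * (4 * (Fintype.card (Idx N) * (1 + C) ^ N)) + 1, by positivity, ?_⟩
    intro a ha R hR
    have ha0 := norm_nonneg a
    rw [Ti_succ, norm_smul]
    have hb : ∀ j, |ev a (R *ᵥ e j + Ti a R k)| ≤ Fintype.card (Idx N) * (1 + C) ^ N * ‖a‖ := by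
      intro j
      apply ev_bound a (by linarith)
      refine (norm_add_le _ _).trans (add_le_add (norm_mulVec_e hR j) ((h a ha R hR).trans ?_))
      nlinarith
    have hs : ‖∑ j, ev a (R *ᵥ e j + Ti a R k) • (R *ᵥ e j)‖
        ≤ 4 * (Fintype.card (Idx N) * (1 + C) ^ N * ‖a‖) := by
      refine (norm_sum_le _ _).trans ?_
      calc ∑ j, ‖ev a (R *ᵥ e j + Ti a R k) • (R *ᵥ e j)‖
          ≤ ∑ _j : Fin 4, Fintype.card (Idx N) * (1 + C) ^ N * ‖a‖ := by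
            apply Finset.sum_le_sum
            intro j _
            rw [norm_smul, Real.norm_eq_abs]
            have := mul_le_mul (hb j) (norm_mulVec_e hR j) (norm_nonneg _) (by positivity)
            simpa using this
        _ = _ := by simp
    rw [Real.norm_eq_abs, abs_of_pos (by norm_num : (0 : ℝ) < 3 / 8)]
    nlinarith

/-- The approximate vertices are close to the vertices. -/
theorem yv_near (N M : ℕ) : ∃ C : ℝ, 0 < C ∧ ∃ δ : ℝ, 0 < δ ∧ ∀ a : Idx N → ℝ, ‖a‖ ≤ δ →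
    ∀ R ∈ SO3, ∀ j, ‖yv M a R j - R *ᵥ e j‖ ≤ C * ‖a‖ ∧ 3 / 4 ≤ nrm (yv M a R j) ∧
      yh M a R j ∈ sph ∧ ‖yh M a R j - R *ᵥ e j‖ ≤ C * ‖a‖ := by
  obtain ⟨C, hC, h⟩ := Ti_bound N M
  refine ⟨8 * C, by positivity, min 1 (1 / (8 * C)), by positivity, ?_⟩
  intro a ha R hR j
  have ha1 : ‖a‖ ≤ 1 := ha.trans (min_le_left _ _)
  have ha2 : ‖a‖ ≤ 1 / (8 * C) := ha.trans (min_le_right _ _)
  have hT := h a ha1 R hR
  have ha0 := norm_nonneg a
  have hCa : C * ‖a‖ ≤ 1 / 8 := by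
    calc C * ‖a‖ ≤ C * (1 / (8 * C)) := mul_le_mul_of_nonneg_left ha2 hC.le
      _ = 1 / 8 := by field_simp
  have e1 : yv M a R j - R *ᵥ e j = Ti a R M := by simp [yv]
  have hn1 : nrm (R *ᵥ e j) = 1 := nrm_sph (mulVec_sph hR (e_sph j))
  have hn2 : nrm (Ti a R M) ≤ 2 * (C * ‖a‖) := (nrm_le_norm _).trans (by linarith)
  have hn3 : 3 / 4 ≤ nrm (yv M a R j) := by
    have := abs_nrm_sub (yv M a R j) (R *ᵥ e j)
    rw [e1, hn1, abs_le] at this
    linarith [this.1]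
  have hne : yv M a R j ≠ 0 := by
    intro h0
    rw [h0] at hn3
    simp [nrm] at hn3
    norm_num at hn3
  refine ⟨?_, hn3, proj_sph hne, ?_⟩
  · rw [e1]; linarith [mul_nonneg hC.le ha0]
  · have h4 : yh M a R j - R *ᵥ e j = proj (yv M a R j) - proj (R *ᵥ e j) := by
      rw [proj_self (mulVec_sph hR (e_sph j)), yh]
    rw [h4]
    have h5 := proj_lip (x := yv M a R j) (y := R *ᵥ e j) (by linarith) (by linarith)
    rw [e1] at h5
    exact (norm_le_nrm _).trans (h5.trans (by linarith))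

theorem nrm_continuous : Continuous nrm := by
  unfold nrm
  fun_prop

theorem proj_continuousOn : ContinuousOn proj {x | x ≠ 0} := by
  have h1 : ContinuousOn (fun x : V => (nrm x)⁻¹) {x | x ≠ 0} :=
    ContinuousOn.inv₀ nrm_continuous.continuousOn fun x hx => (nrm_pos hx).ne'
  exact h1.smul (continuousOn_id (s := {x : V | x ≠ 0}))

/-- Continuity of `g ∘ proj ∘ F`. -/
theorem cont_comp {X : Type} [TopologicalSpace X] {g : V → ℝ} (hg : ContinuousOn g sph)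
    {F : X → V} (hF : Continuous F) (h0 : ∀ z, F z ≠ 0) :
    Continuous (fun z => g (proj (F z))) := by
  have h1 : Continuous (fun z => proj (F z)) :=
    continuousOn_univ.1 (proj_continuousOn.comp hF.continuousOn fun z _ => h0 z)
  exact continuousOn_univ.1 (hg.comp h1.continuousOn fun z _ => proj_sph (h0 z))

/-! ### Torus averages -/

theorem tavg_const (c : ℝ) : tavg (fun _ _ => c) = c := by
  simp only [tavg, intervalIntegral.integral_const, smul_eq_mul]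
  have := Real.pi_pos
  field_simp
  ring

theorem tavg_le {g : ℝ → ℝ → ℝ} {B : ℝ} (hB : ∀ x y, |g x y| ≤ B) : |tavg g| ≤ B := by
  have hpi := Real.pi_pos
  have h1 : ∀ x, ‖∫ y in (0 : ℝ)..2 * π, g x y‖ ≤ B * |2 * π - 0| := fun x =>
    intervalIntegral.norm_integral_le_of_norm_le_const fun y _ => hB x y
  have h2 : ‖∫ x in (0 : ℝ)..2 * π, ∫ y in (0 : ℝ)..2 * π, g x y‖
      ≤ B * |2 * π - 0| * |2 * π - 0| :=
    intervalIntegral.norm_integral_le_of_norm_le_const fun x _ => h1 x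
  rw [tavg, abs_div, abs_of_pos (by positivity : 0 < 4 * π ^ 2), div_le_iff₀ (by positivity)]
  rw [Real.norm_eq_abs] at h2
  rw [sub_zero, abs_of_pos (by positivity : 0 < 2 * π)] at h2
  linarith [h2]

theorem tavg_smul (c : ℝ) (g : ℝ → ℝ → ℝ) : tavg (fun x y => c * g x y) = c * tavg g := by
  simp only [tavg, intervalIntegral.integral_const_mul]
  ring

theorem tavg_add {g h : ℝ → ℝ → ℝ} (hg : Continuous (fun z : ℝ × ℝ => g z.1 z.2))
    (hh : Continuous (fun z : ℝ × ℝ => h z.1 z.2)) :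
    tavg (fun x y => g x y + h x y) = tavg g + tavg h := by
  have hg' : Continuous (Function.uncurry g) := hg
  have hh' : Continuous (Function.uncurry h) := hh
  have e1 : ∀ x, (∫ y in (0 : ℝ)..2 * π, (g x y + h x y))
      = (∫ y in (0 : ℝ)..2 * π, g x y) + ∫ y in (0 : ℝ)..2 * π, h x y := by
    intro x
    apply intervalIntegral.integral_add
    · exact (Continuous.comp hg' (by fun_prop : Continuous fun y : ℝ => (x, y))).intervalIntegrable _ _
    · exact (Continuous.comp hh' (by fun_prop : Continuous fun y : ℝ => (x, y))).intervalIntegrable _ _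
  simp only [tavg, e1]
  rw [intervalIntegral.integral_add]
  · ring
  · exact (intervalIntegral.continuous_parametric_intervalIntegral_of_continuous' hg' _ _).intervalIntegrable _ _
  · exact (intervalIntegral.continuous_parametric_intervalIntegral_of_continuous' hh' _ _).intervalIntegrable _ _

end Pool.Agent.Helper26.LU
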