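import Pool.Agent.Helper26.LU.AsmG
import Pool.Agent.Helper26.LU.AsmB
import Pool.Agent.Helper26.LU.AsmA
import Pool.Agent.Helper26.LU.AC3
import Pool.Agent.Helper12.LU.E8
import Pool.Agent.Helper12.LU.M6
import Pool.Agent.Helper16.LU.D3
import Pool.Agent.Helper24.LU.TB
import Pool.Agent.Helper24.LU.TU
import Pool.Agent.Helper3.LU.D5
import Pool.Agent.Helper30.LU.E0
import Pool.Agent.Helper32.LU.E3
import Pool.Agent.Helper32.LU.M5
import Pool.Agent.Helper32.LU.T9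
import Pool.Agent.Helper33.LU.E4
import Pool.Agent.Helper39.LU.D1
import Pool.Agent.Helper40.LU.T5
import Pool.Agent.Helper49.LU.T10
import Pool.Agent.Helper51.LU.D4
import Pool.Agent.Helper51.LU.S1
import Pool.Agent.Helper51.LU.S2
import Pool.Agent.Helper53.LU.G4
import Pool.Agent.Helper55.LU.T1c
import Pool.Agent.Helper56.LU.AC1
import Pool.Agent.Helper56.LU.E1
import Pool.Agent.Helper58.LU.T1
import Pool.Agent.Helper59.LU.G3
import Pool.Agent.Helper60.LU.F1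
import Pool.Agent.Helper61.LU.M3
import Pool.Agent.Helper62.LU.AC
import Pool.Agent.Helper62.LU.T1a
import Pool.Agent.Helper75.LU.E2
import Pool.Agent.Helper77.LU.T8
import Pool.Agent.Helper79.LU.FD
import Pool.Agent.Helper8.LU.AC2
import Pool.Agent.Helper8.LU.T2
import Pool.Agent.Helper81.LU.M2a
import Pool.Agent.Helper85.LU.E12
import Pool.Agent.Helper85.LU.M1
import Pool.Agent.Helper86.LU.M2
import Pool.Agent.Helper94.LU.G2
import Pool.Agent.Helper96.LU.T1b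
import Pool.Agent.Helper97.LU.E11

/-!
# Project LU: all goals without hypotheses
-/

namespace Pool.Agent.Helper26.LU

theorem fM1 : G_M1 := Pool.Agent.Helper85.LU.gM1
theorem fM6 : G_M6 := Pool.Agent.Helper12.LU.gM6
theorem fM2a : G_M2a := Pool.Agent.Helper81.LU.gM2a fM6
theorem fM2 : G_M2 := Pool.Agent.Helper86.LU.gM2 fM2a
theorem fM3 : G_M3 := Pool.Agent.Helper61.LU.gM3
theorem fM5 : G_M5 := Pool.Agent.Helper32.LU.gM5
theorem fT1a : G_T1a := Pool.Agent.Helper62.LU.gT1a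
theorem fT1b : G_T1b := Pool.Agent.Helper96.LU.gT1b fT1a
theorem fT1c : G_T1c := Pool.Agent.Helper55.LU.gT1c
theorem fT2 : G_T2 := Pool.Agent.Helper8.LU.gT2
theorem fS1 : G_S1 := Pool.Agent.Helper51.LU.gS1
theorem fS2 : G_S2 := Pool.Agent.Helper51.LU.gS2 fS1
theorem fTB : G_TB := Pool.Agent.Helper24.LU.gTB
theorem fT5 : G_T5 := Pool.Agent.Helper40.LU.gT5
theorem fD1 : G_D1 := Pool.Agent.Helper39.LU.gD1
theorem fD3 : G_D3 := Pool.Agent.Helper16.LU.gD3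
theorem fD4 : G_D4 := Pool.Agent.Helper51.LU.gD4
theorem fD5 : G_D5 := Pool.Agent.Helper3.LU.gD5
theorem fFD : G_FD := Pool.Agent.Helper79.LU.gFD
theorem fE0 : G_E0 := Pool.Agent.Helper30.LU.gE0
theorem fE1 : G_E1 := Pool.Agent.Helper56.LU.gE1 fE0
theorem fE3 : G_E3 := Pool.Agent.Helper32.LU.gE3
theorem fE2 : G_E2 := Pool.Agent.Helper75.LU.gE2 fE0 fE3
theorem fE4 : G_E4 := Pool.Agent.Helper33.LU.gE4
theorem fE8 : G_E8 := Pool.Agent.Helper12.LU.gE8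
theorem fE12 : G_E12 := Pool.Agent.Helper85.LU.gE12
theorem fE11 : G_E11 := Pool.Agent.Helper97.LU.gE11
theorem fAC1 : G_AC1 := Pool.Agent.Helper56.LU.gAC1
theorem fAC2 : G_AC2 := Pool.Agent.Helper8.LU.gAC2
theorem fAC3 : G_AC3 := AC3.gAC3
theorem fAC : G_AC := Pool.Agent.Helper62.LU.gAC fAC1 fAC2 fAC3
theorem fG2 : G_G2 := Pool.Agent.Helper94.LU.gG2
theorem fG3 : G_G3 := Pool.Agent.Helper59.LU.gG3
theorem fG4 : G_G4 := Pool.Agent.Helper53.LU.gG4 fG3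
theorem fF1 : G_F1 := Pool.Agent.Helper60.LU.gF1

theorem fT1 (hT1e : G_T1e) : G_T1 := Pool.Agent.Helper58.LU.gT1 fT1b fT1c hT1e
theorem fTU (hT1e : G_T1e) : G_TU := Pool.Agent.Helper24.LU.gTU (fT1 hT1e)
theorem fT8 (hT1e : G_T1e) (hTA : G_TA) : G_T8 :=
  Pool.Agent.Helper77.LU.gT8 (fTU hT1e) hTA fM2 fM3
theorem fT9 (hT1e : G_T1e) (hTA : G_TA) : G_T9 :=
  Pool.Agent.Helper32.LU.gT9 (fTU hT1e) hTA fT5 (fT8 hT1e hTA)
theorem fT10 (hT1e : G_T1e) : G_T10 := Pool.Agent.Helper49.LU.gT10 (fTU hT1e) fTB fM2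
theorem fPA (hT1e : G_T1e) (hTA : G_TA) : G_PA :=
  gPA fM1 fM5 fD1 fD3 fD4 fD5 fFD fE1 (fT9 hT1e hTA) (fT10 hT1e)
theorem fPB (hE9 : G_E9) : G_PB := gPB fE2 fE4 fE8 hE9 fE12 fE11 fAC

theorem fMain (hT1e : G_T1e) (hTA : G_TA) (hE9 : G_E9) (hG1 : G_G1) : MainThm :=
  fF1 (core hG1 fG2 fG3 fG4 (fPA hT1e hTA) (fPB hE9))

end Pool.Agent.Helper26.LU
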