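import Pool.Agent.Helper26.LU.GoalsB

/-!
# Project LU: assembly of the geometric part
-/

namespace Pool.Agent.Helper26.LU

open MeasureTheory Matrix Real Filter Topology

theorem surf_of_K (hG1 : G_G1) (hG2 : G_G2) (hG3 : G_G3) (hG4 : G_G4) :
    ∃ C₀ : ℝ, 0 < C₀ ∧ ∃ δ₀ : ℝ, 0 < δ₀ ∧ ∀ (K : Set V) (c : V) (δ : ℝ), Convex ℝ K →
      IsCompact K → (∀ R ∈ SO3, ∃ t : V, ∀ j, R *ᵥ e j + t ∈ frontier K) →
      (∀ x ∈ frontier K, |(x - c) ⬝ᵥ (x - c) - 1| ≤ δ) → δ ≤ δ₀ →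
      ∃ (c' : V) (r : V → ℝ) (ε : ℝ), 0 ≤ ε ∧ ε ≤ δ ∧
        Surf ((fun x => x - c') '' frontier K) r ε (C₀ * Real.sqrt ε) := by
  obtain ⟨C, hC, h4⟩ := hG4
  refine ⟨C, hC, 1 / 16, by norm_num, ?_⟩
  intro K c δ hconv hcomp hadm hδ hδ₀
  have hne : (frontier K).Nonempty := by
    obtain ⟨t, ht⟩ := hadm 1 SO3_one
    exact ⟨_, ht 0⟩
  have hfc : IsCompact (frontier K) :=
    hcomp.of_isClosed_subset isClosed_frontier hcomp.isClosed.frontier_subset
  obtain ⟨c', ε, hε, hmin⟩ := hG1 (frontier K) hfc hne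
  have hε0 : 0 ≤ ε := by
    obtain ⟨x, hx⟩ := hne
    exact (abs_nonneg _).trans (hε x hx)
  have hεδ : ε ≤ δ := by
    obtain ⟨x, hx, h⟩ := hmin c
    exact h.trans (hδ x hx)
  have hε16 : ε ≤ 1 / 16 := hεδ.trans hδ₀
  have hint : c' ∈ interior K := by
    obtain ⟨t, ht⟩ := hadm 1 SO3_one
    exact hG2 K hconv hcomp c' t 1 SO3_one ht fun x hx => (hε x hx).trans hε16
  -- the translated body
  set φ : V ≃ₜ V := Homeomorph.subRight c' with hφ
  have hφa : ∀ x, φ x = x - c' := fun x => rfl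
  set K' : Set V := φ '' K with hK'
  have hfr : frontier K' = (fun x => x - c') '' frontier K := by
    rw [hK', ← φ.image_frontier]
    rfl
  have hconv' : Convex ℝ K' := by
    have : K' = (fun x => -c' + x) '' K := by
      rw [hK']
      apply Set.image_congr
      intro x _
      rw [hφa, sub_eq_add_neg, add_comm]
    rw [this]
    exact hconv.translate (-c')
  have hcomp' : IsCompact K' := hcomp.image φ.continuous
  have hint' : (0 : V) ∈ interior K' := by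
    rw [hK', ← φ.image_interior]
    exact ⟨c', hint, by rw [hφa, sub_self]⟩
  have hbd : ∀ x ∈ frontier K', |x ⬝ᵥ x - 1| ≤ ε := by
    intro x hx
    rw [hfr] at hx
    obtain ⟨y, hy, rfl⟩ := hx
    exact hε y hy
  have hε4 : ε ≤ 1 / 4 := by linarith
  obtain ⟨h3a, h3b⟩ := hG3 K' ε hconv' hcomp' hint' hε0 hε4 hbd
  refine ⟨c', fun u => (gauge K' u)⁻¹, ε, hε0, hεδ, ?_⟩
  rw [← hfr]
  refine ⟨fun u hu => ⟨(h3a u hu).1, (h3a u hu).2.1⟩, h3b, fun u hu => (h3a u hu).2.2,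
    fun u hu v hv => h4 K' ε hconv' hcomp' hint' hε0 hε4 hbd u hu v hv, ?_, ?_⟩
  · intro R hR
    obtain ⟨t, ht⟩ := hadm R hR
    refine ⟨t - c', fun j => ?_⟩
    rw [hfr]
    exact ⟨_, ht j, by simp only [add_sub_assoc]⟩
  · intro b
    obtain ⟨x, hx, h⟩ := hmin (b + c')
    refine ⟨x - c', ?_, ?_⟩
    · rw [hfr]
      exact ⟨x, hx, rfl⟩
    · have : x - c' - b = x - (b + c') := by abel
      rw [this]
      exact h

/-- The core theorem from parts A, B and the geometry. -/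
theorem core (hG1 : G_G1) (hG2 : G_G2) (hG3 : G_G3) (hG4 : G_G4) (hPA : G_PA) (hPB : G_PB) :
    CoreThm := by
  obtain ⟨C₀, hC₀, δ₀, hδ₀, hS⟩ := surf_of_K hG1 hG2 hG3 hG4
  obtain ⟨N, M, hN, hM, C, hA⟩ := hPA C₀
  obtain ⟨s₀, hs₀, hB⟩ := hPB N M hN hM C
  obtain ⟨ε₀, hε₀, hA⟩ := hA s₀ hs₀
  refine ⟨min δ₀ ε₀, lt_min hδ₀ hε₀, ?_⟩
  intro K c hconv hcomp hadm hδ
  obtain ⟨c', r, ε, hε0, hεδ, hs⟩ := hS K c (min δ₀ ε₀) hconv hcomp hadm hδ (min_le_left _ _)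
  have hε : ε = 0 := by
    by_contra hne
    have hpos : 0 < ε := lt_of_le_of_ne hε0 (Ne.symm hne)
    obtain ⟨s, ah, hs0, hs1, hb, hex, hR⟩ := hA _ r ε _ hs hpos (hεδ.trans (min_le_right _ _))
      (by positivity) le_rfl
    exact hB s ah hs0 hs1 hb hex hR
  subst hε
  have hr : ∀ u ∈ sph, r u = 1 := by
    intro u hu
    have h1 := hs.bd u hu
    have h2 := (hs.pos u hu).1
    have h3 : r u ^ 2 - 1 = 0 := abs_nonpos_iff.1 h1
    nlinarith
  refine ⟨c', ?_⟩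
  ext x
  constructor
  · intro hx
    have hx' : x - c' ∈ (fun x => x - c') '' frontier K := ⟨x, hx, rfl⟩
    obtain ⟨hne, heq⟩ := hs.onS _ hx'
    have hp := proj_sph hne
    rw [hr _ hp, one_smul] at heq
    show (x - c') ⬝ᵥ (x - c') = 1
    rw [heq]
    exact hp
  · intro hx
    have hx' : x - c' ∈ sph := hx
    have h := (hs.pos _ hx').2
    rw [hr _ hx', one_smul] at h
    obtain ⟨y, hy, hxy⟩ := h
    have : y = x := by
      have : y - c' = x - c' := hxy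
      exact sub_left_injective this
    exact this ▸ hy

end Pool.Agent.Helper26.LU
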