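import Pool.Agent.Helper26.LU.Defs

/-!
# Project LU: basic facts
-/

namespace Pool.Agent.Helper26.LU

open MeasureTheory Matrix Real

/-! ### The vertices -/

theorem e0 : e 0 = ![0, 0, 1] := rfl

theorem sq2 : Real.sqrt 2 * Real.sqrt 2 = 2 := Real.mul_self_sqrt (by norm_num)
theorem sq6 : Real.sqrt 6 * Real.sqrt 6 = 6 := Real.mul_self_sqrt (by norm_num)
theorem sq2' : Real.sqrt 2 ^ 2 = 2 := Real.sq_sqrt (by norm_num)
theorem sq6' : Real.sqrt 6 ^ 2 = 6 := Real.sq_sqrt (by norm_num)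

theorem e_dot (i j : Fin 4) : e i ⬝ᵥ e j = if i = j then 1 else -1 / 3 := by
  fin_cases i <;> fin_cases j <;>
    simp [e, dotProduct, Fin.sum_univ_three] <;> ring_nf <;> (try simp only [sq2', sq6']) <;>
    norm_num

theorem e_sph (j : Fin 4) : e j ∈ sph := by
  have := e_dot j j
  simpa [sph] using this

theorem e_sum : ∑ j, e j = 0 := by
  ext i
  fin_cases i <;> simp [e, Fin.sum_univ_four] <;> ring

/-- The four vertices form a tight frame. -/
theorem e_frame (x : V) : ∑ j, (x ⬝ᵥ e j) • e j = (4 / 3 : ℝ) • x := by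
  ext i
  fin_cases i <;> simp [e, Fin.sum_univ_four, dotProduct, Fin.sum_univ_three]
  all_goals ring_nf
  all_goals (try simp only [sq2', sq6'])
  all_goals (try ring)

/-! ### Rotations -/

theorem mem_SO3 (R : M3) : R ∈ SO3 ↔ R * Rᵀ = 1 ∧ R.det = 1 := by
  rw [Matrix.mem_specialOrthogonalGroup_iff, Matrix.mem_orthogonalGroup_iff]

theorem SO3_left {R : M3} (h : R ∈ SO3) : Rᵀ * R = 1 := by
  have := ((mem_SO3 R).1 h).1
  exact mul_eq_one_comm.1 this

theorem SO3_transpose {R : M3} (h : R ∈ SO3) : Rᵀ ∈ SO3 := by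
  rw [mem_SO3]
  refine ⟨by simpa using SO3_left h, ?_⟩
  rw [Matrix.det_transpose]
  exact ((mem_SO3 R).1 h).2

theorem SO3_mul {R S : M3} (h : R ∈ SO3) (h' : S ∈ SO3) : R * S ∈ SO3 :=
  mul_mem h h'

theorem SO3_one : (1 : M3) ∈ SO3 := one_mem _

theorem dot_mulVec {R : M3} (h : R ∈ SO3) (x y : V) : (R *ᵥ x) ⬝ᵥ (R *ᵥ y) = x ⬝ᵥ y := by
  rw [Matrix.dotProduct_mulVec, Matrix.vecMul_mulVec, SO3_left h]
  simp

theorem mulVec_sph {R : M3} (h : R ∈ SO3) {x : V} (hx : x ∈ sph) : R *ᵥ x ∈ sph := by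
  have : x ⬝ᵥ x = 1 := hx
  simp [sph, dot_mulVec h, this]

theorem Rot_SO3 (x : ℝ) : Rot x ∈ SO3 := by
  rw [mem_SO3]
  constructor
  · ext i j
    have := Real.sin_sq_add_cos_sq x
    fin_cases i <;> fin_cases j <;>
      simp [Rot, Matrix.mul_apply, Fin.sum_univ_three] <;> nlinarith
  · simp [Rot, Matrix.det_fin_three]
    have := Real.sin_sq_add_cos_sq x
    nlinarith

theorem Rot_e0 (x : ℝ) : Rot x *ᵥ e 0 = e 0 := by
  ext i
  fin_cases i <;> simp [Rot, e, Matrix.mulVec, dotProduct, Fin.sum_univ_three]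

theorem Rot_per (x : ℝ) : Rot (x + 2 * π) = Rot x := by simp [Rot]

theorem Rot_add (x y : ℝ) : Rot (x + y) = Rot x * Rot y := by
  ext i j
  fin_cases i <;> fin_cases j <;>
    simp [Rot, Matrix.mul_apply, Fin.sum_univ_three, Real.cos_add, Real.sin_add] <;> ring

/-- Cross product with `w` as a matrix. -/
theorem crossM_mulVec (w x : V) : crossM w *ᵥ x = crossProduct w x := by
  ext i
  fin_cases i <;> simp [crossM, Matrix.mulVec, dotProduct, Fin.sum_univ_three, cross_apply] <;>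
    ring

theorem crossM_transpose (w : V) : (crossM w)ᵀ = -crossM w := by
  ext i j
  fin_cases i <;> fin_cases j <;> simp [crossM]

theorem crossM_cube (w : V) :
    crossM w * crossM w * crossM w = -(w ⬝ᵥ w) • crossM w := by
  ext i j
  fin_cases i <;> fin_cases j <;>
    simp [crossM, Matrix.mul_apply, Fin.sum_univ_three, dotProduct] <;> ring

/-- `|p × q|² = 1 - (p·q)²` for unit vectors. -/
theorem cross_sq {p q : V} (hp : p ∈ sph) (hq : q ∈ sph) :
    crossProduct p q ⬝ᵥ crossProduct p q = 1 - (p ⬝ᵥ q) ^ 2 := by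
  have h1 : p ⬝ᵥ p = 1 := hp
  have h2 : q ⬝ᵥ q = 1 := hq
  rw [cross_dot_cross, h1, h2, dotProduct_comm q p]
  ring

theorem Bm_det (w : V) (k : ℝ) :
    (1 + crossM w + k • (crossM w * crossM w)).det
      = (1 - k * (w ⬝ᵥ w)) ^ 2 + w ⬝ᵥ w := by
  simp [crossM, Matrix.det_fin_three, Matrix.mul_apply, Fin.sum_univ_three, dotProduct,
    Matrix.one_apply]
  ring

theorem Bm_SO3 {p q : V} (hp : p ∈ sph) (hq : q ∈ sph) (hpq : 1 + p ⬝ᵥ q ≠ 0) :
    Bm p q ∈ SO3 := by
  rw [mem_SO3]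
  set w := crossProduct p q with hw
  set c := p ⬝ᵥ q with hc
  have hww : w ⬝ᵥ w = 1 - c ^ 2 := cross_sq hp hq
  have hB : Bm p q = 1 + crossM w + (1 + c)⁻¹ • (crossM w * crossM w) := rfl
  constructor
  · rw [hB]
    have ht : (1 + crossM w + (1 + c)⁻¹ • (crossM w * crossM w))ᵀ
        = 1 - crossM w + (1 + c)⁻¹ • (crossM w * crossM w) := by
      rw [Matrix.transpose_add, Matrix.transpose_add, Matrix.transpose_smul,
        Matrix.transpose_mul, crossM_transpose, Matrix.transpose_one]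
      simp [sub_eq_add_neg]
    rw [ht]
    have h3 := crossM_cube w
    have h4 : crossM w * crossM w * (crossM w * crossM w)
        = -(w ⬝ᵥ w) • (crossM w * crossM w) := by
      rw [← mul_assoc, h3, Matrix.smul_mul]
    have key : (1 + crossM w + (1 + c)⁻¹ • (crossM w * crossM w)) *
        (1 - crossM w + (1 + c)⁻¹ • (crossM w * crossM w))
        = 1 + (2 * (1 + c)⁻¹ - 1 - (1 + c)⁻¹ ^ 2 * (w ⬝ᵥ w)) • (crossM w * crossM w) := by
      have : (1 + crossM w + (1 + c)⁻¹ • (crossM w * crossM w)) *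
        (1 - crossM w + (1 + c)⁻¹ • (crossM w * crossM w))
        = 1 + (2 * (1 + c)⁻¹ - 1) • (crossM w * crossM w)
          + (1 + c)⁻¹ ^ 2 • (crossM w * crossM w * (crossM w * crossM w)) := by
        simp only [mul_add, add_mul, mul_sub, sub_mul, mul_one, one_mul, Matrix.mul_smul,
          Matrix.smul_mul, smul_smul, sub_smul, two_mul, add_smul, one_smul, pow_two]
        rw [← mul_assoc, ← mul_assoc]
        module
      rw [this, h4, smul_smul]
      module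
    rw [key]
    have hz : 2 * (1 + c)⁻¹ - 1 - (1 + c)⁻¹ ^ 2 * (w ⬝ᵥ w) = 0 := by
      rw [hww]
      field_simp
      ring
    rw [hz]
    simp
  · rw [hB, Bm_det, hww]
    have : (1 + c)⁻¹ * (1 - c ^ 2) = 1 - c := by
      field_simp
      ring
    rw [this]
    ring

theorem Bm_mulVec {p q : V} (hp : p ∈ sph) (hq : q ∈ sph) (hpq : 1 + p ⬝ᵥ q ≠ 0) :
    Bm p q *ᵥ p = q := by
  have h1 : p ⬝ᵥ p = 1 := hp
  have h2 : q ⬝ᵥ q = 1 := hq
  have hw : crossProduct (crossProduct p q) p = q - (p ⬝ᵥ q) • p := by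
    ext i
    simp only [dotProduct, Fin.sum_univ_three] at h1
    fin_cases i <;> simp [cross_apply, dotProduct, Fin.sum_univ_three]
    · linear_combination (q 0) * h1
    · linear_combination (q 1) * h1
    · linear_combination (q 2) * h1
  have hB : Bm p q = 1 + crossM (crossProduct p q) +
    (1 + p ⬝ᵥ q)⁻¹ • (crossM (crossProduct p q) * crossM (crossProduct p q)) := rfl
  rw [hB, Matrix.add_mulVec, Matrix.add_mulVec, Matrix.smul_mulVec, ← Matrix.mulVec_mulVec,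
    crossM_mulVec, hw, crossM_mulVec, Matrix.one_mulVec]
  have hw2 : crossProduct (crossProduct p q) (q - (p ⬝ᵥ q) • p)
      = (p ⬝ᵥ q - (p ⬝ᵥ q) * 0) • q - p - (p ⬝ᵥ q) • (q - (p ⬝ᵥ q) • p) := by
    have hq' : crossProduct (crossProduct p q) q = (p ⬝ᵥ q) • q - p := by
      ext i
      simp only [dotProduct, Fin.sum_univ_three] at h2
      fin_cases i <;> simp [cross_apply, dotProduct, Fin.sum_univ_three]
      · linear_combination -(p 0) * h2
      · linear_combination -(p 1) * h2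
      · linear_combination -(p 2) * h2
    rw [map_sub, map_smul, hq', hw]
    module
  rw [hw2]
  have h3 : (p ⬝ᵥ q - (p ⬝ᵥ q) * 0) • q - p - (p ⬝ᵥ q) • (q - (p ⬝ᵥ q) • p)
      = (1 + p ⬝ᵥ q) • ((p ⬝ᵥ q) • p - p) := by
    module
  rw [h3, smul_smul, inv_mul_cancel₀ hpq]
  module

theorem Bm_self {p : V} : Bm p p = 1 := by
  simp [Bm, crossM]
  ext i j
  fin_cases i <;> fin_cases j <;> simp [Matrix.mul_apply, Fin.sum_univ_three]

theorem e0_dot_ne (j : Fin 4) : 1 + e 0 ⬝ᵥ e j ≠ 0 := by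
  rw [e_dot]
  split_ifs <;> norm_num

theorem e_dot_ne (i j : Fin 4) : 1 + e i ⬝ᵥ e j ≠ 0 := by
  rw [e_dot]
  split_ifs <;> norm_num

theorem sg_SO3 (j : Fin 4) : sg j ∈ SO3 := Bm_SO3 (e_sph 0) (e_sph j) (e0_dot_ne j)

theorem sg_e0 (j : Fin 4) : sg j *ᵥ e 0 = e j := Bm_mulVec (e_sph 0) (e_sph j) (e0_dot_ne j)

/-! ### Norms and projections -/

theorem nrm_sq (x : V) : nrm x ^ 2 = x ⬝ᵥ x := by
  rw [nrm, Real.sq_sqrt]
  simp only [dotProduct, Fin.sum_univ_three]
  nlinarith [mul_self_nonneg (x 0), mul_self_nonneg (x 1), mul_self_nonneg (x 2)]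

theorem nrm_nonneg (x : V) : 0 ≤ nrm x := Real.sqrt_nonneg _

theorem nrm_sph {u : V} (h : u ∈ sph) : nrm u = 1 := by
  have : u ⬝ᵥ u = 1 := h
  simp [nrm, this]

theorem coord_le_nrm (x : V) (i : Fin 3) : |x i| ≤ nrm x := by
  apply abs_le_of_sq_le_sq _ (nrm_nonneg x)
  rw [nrm_sq]
  simp only [dotProduct, Fin.sum_univ_three]
  fin_cases i <;> simp <;>
    nlinarith [mul_self_nonneg (x 0), mul_self_nonneg (x 1), mul_self_nonneg (x 2)]

theorem norm_le_nrm (x : V) : ‖x‖ ≤ nrm x := by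
  rw [pi_norm_le_iff_of_nonneg (nrm_nonneg x)]
  intro i
  simpa using coord_le_nrm x i

theorem coord_le_norm (x : V) (i : Fin 3) : |x i| ≤ ‖x‖ := by
  simpa using norm_le_pi_norm x i

theorem nrm_le_norm (x : V) : nrm x ≤ 2 * ‖x‖ := by
  have h0 := norm_nonneg x
  apply le_of_sq_le_sq _ (by positivity)
  rw [nrm_sq]
  simp only [dotProduct, Fin.sum_univ_three]
  have h := fun i => sq_le_sq' (by linarith [neg_abs_le (x i), coord_le_norm x i])
    ((le_abs_self (x i)).trans (coord_le_norm x i))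
  nlinarith [h 0, h 1, h 2]

theorem nrm_pos {x : V} (hx : x ≠ 0) : 0 < nrm x :=
  (norm_pos_iff.2 hx).trans_le (norm_le_nrm x)

theorem proj_sph {x : V} (hx : x ≠ 0) : proj x ∈ sph := by
  have h := nrm_pos hx
  have h2 := nrm_sq x
  simp only [sph, proj, Set.mem_setOf_eq, smul_dotProduct, dotProduct_smul, smul_eq_mul]
  rw [← h2]
  field_simp

theorem proj_self {u : V} (h : u ∈ sph) : proj u = u := by simp [proj, nrm_sph h]

theorem nrm_proj (x : V) (hx : x ≠ 0) : nrm x • proj x = x := by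
  have h := (nrm_pos hx).ne'
  rw [proj, smul_smul, mul_inv_cancel₀ h, one_smul]

theorem sph_ne {u : V} (h : u ∈ sph) : u ≠ 0 := by
  rintro rfl
  simp [sph] at h

theorem sph_norm_le {u : V} (h : u ∈ sph) : ‖u‖ ≤ 1 := by
  have := norm_le_nrm u
  rwa [nrm_sph h] at this

theorem sph_coord_le {u : V} (h : u ∈ sph) (i : Fin 3) : |u i| ≤ 1 := by
  have := coord_le_nrm u i
  rwa [nrm_sph h] at this

theorem dot_le (x y : V) : |x ⬝ᵥ y| ≤ nrm x * nrm y := by
  apply abs_le_of_sq_le_sq _ (mul_nonneg (nrm_nonneg x) (nrm_nonneg y))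
  rw [mul_pow, nrm_sq, nrm_sq]
  simp only [dotProduct, Fin.sum_univ_three]
  nlinarith [sq_nonneg (x 0 * y 1 - x 1 * y 0), sq_nonneg (x 0 * y 2 - x 2 * y 0),
    sq_nonneg (x 1 * y 2 - x 2 * y 1)]

theorem nrm_add_le (x y : V) : nrm (x + y) ≤ nrm x + nrm y := by
  apply le_of_sq_le_sq _ (add_nonneg (nrm_nonneg x) (nrm_nonneg y))
  rw [nrm_sq, add_sq, nrm_sq, nrm_sq, dotProduct_add, add_dotProduct, add_dotProduct,
    dotProduct_comm y x]
  have := (le_abs_self _).trans (dot_le x y)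
  linarith

theorem nrm_smul (c : ℝ) (x : V) : nrm (c • x) = |c| * nrm x := by
  have h : 0 ≤ |c| * nrm x := mul_nonneg (abs_nonneg _) (nrm_nonneg _)
  rw [← Real.sqrt_sq h, mul_pow, nrm_sq, sq_abs, nrm]
  congr 1
  simp only [smul_dotProduct, dotProduct_smul, smul_eq_mul]
  ring

theorem nrm_mulVec {R : M3} (h : R ∈ SO3) (x : V) : nrm (R *ᵥ x) = nrm x := by
  rw [nrm, nrm, dot_mulVec h]

theorem nrm_neg (x : V) : nrm (-x) = nrm x := by simp [nrm]

theorem nrm_sub_comm (x y : V) : nrm (x - y) = nrm (y - x) := by rw [← nrm_neg, neg_sub]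

theorem abs_nrm_sub (x y : V) : |nrm x - nrm y| ≤ nrm (x - y) := by
  rw [abs_le]
  have h1 := nrm_add_le (x - y) y
  have h2 := nrm_add_le (y - x) x
  rw [nrm_sub_comm y x] at h2
  simp only [sub_add_cancel] at h1 h2
  constructor <;> linarith

/-- The projection is Lipschitz away from the origin. -/
theorem proj_lip {x y : V} (hx : 1 / 2 ≤ nrm x) (hy : 1 / 2 ≤ nrm y) :
    nrm (proj x - proj y) ≤ 4 * nrm (x - y) := by
  have hx0 : 0 < nrm x := by linarith
  have hy0 : 0 < nrm y := by linarith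
  have key : proj x - proj y = (nrm x)⁻¹ • (x - y) + ((nrm x)⁻¹ - (nrm y)⁻¹) • y := by
    simp only [proj]
    module
  rw [key]
  refine (nrm_add_le _ _).trans ?_
  rw [nrm_smul, nrm_smul, abs_of_pos (inv_pos.2 hx0)]
  have h1 : (nrm x)⁻¹ ≤ 2 := by
    rw [inv_le_comm₀ hx0 (by norm_num)]
    linarith
  have h2 : |(nrm x)⁻¹ - (nrm y)⁻¹| * nrm y = |nrm x - nrm y| * (nrm x)⁻¹ := by
    have : (nrm x)⁻¹ - (nrm y)⁻¹ = (nrm y - nrm x) * ((nrm x)⁻¹ * (nrm y)⁻¹) := by
      field_simp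
    rw [this, abs_mul, abs_of_pos (mul_pos (inv_pos.2 hx0) (inv_pos.2 hy0)), abs_sub_comm]
    field_simp
  rw [h2]
  have h3 := abs_nrm_sub x y
  have h4 := nrm_nonneg (x - y)
  have h5 : |nrm x - nrm y| * (nrm x)⁻¹ ≤ nrm (x - y) * 2 :=
    mul_le_mul h3 h1 (inv_pos.2 hx0).le h4
  have h6 : (nrm x)⁻¹ * nrm (x - y) ≤ 2 * nrm (x - y) := mul_le_mul_of_nonneg_right h1 h4
  linarith

theorem SO3_entry_le {R : M3} (h : R ∈ SO3) (i j : Fin 3) : |R i j| ≤ 1 := by
  have h1 := congrFun (congrFun ((mem_SO3 R).1 h).1 i) i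
  simp only [Matrix.mul_apply, Matrix.transpose_apply, Fin.sum_univ_three, Matrix.one_apply_eq]
    at h1
  have h2 : ∀ k : Fin 3, (R i k) ^ 2 ≤ R i 0 * R i 0 + R i 1 * R i 1 + R i 2 * R i 2 := by
    intro k
    have e0 := mul_self_nonneg (R i 0)
    have e1 := mul_self_nonneg (R i 1)
    have e2 := mul_self_nonneg (R i 2)
    fin_cases k <;> simp only [Fin.zero_eta, Fin.mk_one, Fin.reduceFinMk, pow_two] <;> linarith
  have : (R i j) ^ 2 ≤ 1 := h1 ▸ h2 j
  exact (sq_le_one_iff_abs_le_one _).1 this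

/-- Rotations act transitively on the sphere. -/
theorem exists_rot {u : V} (hu : u ∈ sph) : ∃ Q ∈ SO3, Q *ᵥ e 0 = u := by
  by_cases h : 1 + e 0 ⬝ᵥ u = 0
  · -- `u = -e 0`
    have hu1 : u ⬝ᵥ u = 1 := hu
    have h0 : u 2 = -1 := by
      simp [e, dotProduct, Fin.sum_univ_three] at h
      linarith
    simp only [dotProduct, Fin.sum_univ_three] at hu1
    have h1 : u 0 = 0 := by nlinarith [mul_self_nonneg (u 0), mul_self_nonneg (u 1)]
    have h2 : u 1 = 0 := by nlinarith [mul_self_nonneg (u 0), mul_self_nonneg (u 1)]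
    refine ⟨!![1, 0, 0; 0, -1, 0; 0, 0, -1], ?_, ?_⟩
    · rw [mem_SO3]
      constructor
      · ext i j
        fin_cases i <;> fin_cases j <;> simp [Matrix.mul_apply, Fin.sum_univ_three]
      · simp [Matrix.det_fin_three]
    · ext i
      fin_cases i <;>
        simp [e, Matrix.mulVec, dotProduct, Fin.sum_univ_three, h0, h1, h2]
  · exact ⟨Bm (e 0) u, Bm_SO3 (e_sph 0) hu h, Bm_mulVec (e_sph 0) hu h⟩

end Pool.Agent.Helper26.LU
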