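import Mathlib

/-!
# Project LU (MP_db6300_gt): local uniqueness of the sphere, definitions

Every convex surface near a round sphere that carries the regular tetrahedron in every
orientation (statically) is a sphere.
-/

namespace Pool.Agent.Helper26.LU

open MeasureTheory Matrix Real

/-- The space `ℝ³` (supremum norm as a normed space; the Euclidean length is `nrm`). -/
abbrev V := Fin 3 → ℝ

/-- Real 3 by 3 matrices. -/
abbrev M3 := Matrix (Fin 3) (Fin 3) ℝ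

/-- The rotation group. -/
abbrev SO3 : Submonoid M3 := Matrix.specialOrthogonalGroup (Fin 3) ℝ

instance : MeasurableSpace ↥SO3 := borel _
instance : BorelSpace ↥SO3 := ⟨rfl⟩

/-- Euclidean length. -/
noncomputable def nrm (x : V) : ℝ := Real.sqrt (x ⬝ᵥ x)

/-- Radial projection to the unit sphere. -/
noncomputable def proj (x : V) : V := (nrm x)⁻¹ • x

/-- The unit sphere. -/
def sph : Set V := {u | u ⬝ᵥ u = 1}

/-- The unit vertices of the regular tetrahedron; `e 0 = (0,0,1)` is the axis of `Rot`. -/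
noncomputable def e : Fin 4 → V :=
  ![![0, 0, 1],
    ![2 * Real.sqrt 2 / 3, 0, -1 / 3],
    ![-Real.sqrt 2 / 3, Real.sqrt 6 / 3, -1 / 3],
    ![-Real.sqrt 2 / 3, -Real.sqrt 6 / 3, -1 / 3]]

/-- Exponents `(i,j,k)`, `k ≤ 1`, `i + j + k ≤ N`: the monomials of normal form. -/
abbrev Idx (N : ℕ) := {t : Fin (N + 1) × Fin (N + 1) × Fin 2 //
  (t.1 : ℕ) + (t.2.1 : ℕ) + (t.2.2 : ℕ) ≤ N}

/-- Degree of a monomial. -/
def dg {N : ℕ} (t : Idx N) : ℕ := (t.1.1 : ℕ) + (t.1.2.1 : ℕ) + (t.1.2.2 : ℕ)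

/-- Weight of a monomial: its degree, but 2 for the degrees 0 and 1. -/
def wt {N : ℕ} (t : Idx N) : ℕ := max 2 (dg t)

/-- The monomial. -/
def mon {A : Type} [CommRing A] {N : ℕ} (t : Idx N) (x : Fin 3 → A) : A :=
  x 0 ^ (t.1.1 : ℕ) * x 1 ^ (t.1.2.1 : ℕ) * x 2 ^ (t.1.2.2 : ℕ)

/-- Evaluation of the polynomial with coefficients `a`. -/
def ev {A : Type} [CommRing A] {N : ℕ} (a : Idx N → A) (x : Fin 3 → A) : A :=
  ∑ t, a t * mon t x

/-- The vertices in an algebra over `ℝ`. -/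
noncomputable def eA (A : Type) [CommRing A] [Algebra ℝ A] (j : Fin 4) : Fin 3 → A :=
  fun i => algebraMap ℝ A (e j i)

/-- The iteration for the translation vector. -/
noncomputable def Ti {A : Type} [CommRing A] [Algebra ℝ A] {N : ℕ} (a : Idx N → A)
    (X : Matrix (Fin 3) (Fin 3) A) : ℕ → Fin 3 → A
  | 0 => 0
  | k + 1 => fun i => algebraMap ℝ A (3 / 8) *
      ∑ j, ev a (X *ᵥ eA A j + Ti a X k) * (X *ᵥ eA A j) i

/-- The value of the polynomial at the `j`-th vertex (after `M` iterations). -/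
noncomputable def Fv {A : Type} [CommRing A] [Algebra ℝ A] {N : ℕ} (M : ℕ) (a : Idx N → A)
    (X : Matrix (Fin 3) (Fin 3) A) (j : Fin 4) : A :=
  ev a (X *ᵥ eA A j + Ti a X M)

/-- The left-hand side of the equation for the polynomial part. -/
noncomputable def Ph {A : Type} [CommRing A] [Algebra ℝ A] {N : ℕ} (M : ℕ) (a : Idx N → A)
    (X : Matrix (Fin 3) (Fin 3) A) : A :=
  ∑ j, Fv M a X j - algebraMap ℝ A (3 / 16) *
    (4 * ∑ j, Fv M a X j ^ 2 - (∑ j, Fv M a X j) ^ 2)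

/-- The `j`-th approximate vertex. -/
noncomputable def yv {N : ℕ} (M : ℕ) (a : Idx N → ℝ) (R : M3) (j : Fin 4) : V :=
  R *ᵥ e j + Ti a R M

/-- Its projection to the unit sphere. -/
noncomputable def yh {N : ℕ} (M : ℕ) (a : Idx N → ℝ) (R : M3) (j : Fin 4) : V :=
  proj (yv M a R j)

/-- The skew matrix of the cross product with `w`. -/
def crossM (w : V) : M3 := !![0, -w 2, w 1; w 2, 0, -w 0; -w 1, w 0, 0]

/-- The rotation taking the unit vector `p` to the unit vector `q` (`p ≠ -q`). -/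
noncomputable def Bm (p q : V) : M3 :=
  1 + crossM (crossProduct p q) +
    (1 + p ⬝ᵥ q)⁻¹ • (crossM (crossProduct p q) * crossM (crossProduct p q))

/-- The rotation about the third axis. -/
noncomputable def Rot (x : ℝ) : M3 := !![cos x, -sin x, 0; sin x, cos x, 0; 0, 0, 1]

/-- A rotation taking `e 0` to `e j`. -/
noncomputable def sg (j : Fin 4) : M3 := Bm (e 0) (e j)

/-- Iteration for the approximate inverse of `R ↦ yh M a R 0`. -/
noncomputable def Rk {N : ℕ} (M : ℕ) (a : Idx N → ℝ) (Q : M3) : ℕ → M3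
  | 0 => Q
  | k + 1 => (Bm (Rk M a Q k *ᵥ e 0) (yh M a (Rk M a Q k) 0))ᵀ * Q

/-- The second rotation of the chain. -/
noncomputable def Qp {N : ℕ} (M : ℕ) (a : Idx N → ℝ) (Q : M3) (j : Fin 4) (x y : ℝ) : M3 :=
  Bm ((Q * Rot x) *ᵥ e j) (yh M a (Rk M a (Q * Rot x) M) j) * (Q * Rot x) * sg j * Rot y

/-- Parameters: a coefficient vector and a matrix. -/
abbrev Par (N : ℕ) := (Idx N → ℝ) × (Fin 3 → Fin 3 → ℝ)

/-- The end point of the chain (not normalised). -/
noncomputable def FA (N M : ℕ) (j k : Fin 4) (x : Par N × ℝ × ℝ) : V :=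
  yv M x.1.1 (Rk M x.1.1 (Qp M x.1.1 (Matrix.of x.1.2) j x.2.1 x.2.2) M) k

/-- A two-parameter family of rotations taking the `j`-th vertex around. -/
noncomputable def Sm (j : Fin 4) (x y : ℝ) : M3 := Rot x * sg 1 * Rot y * Bm (e j) (e 1)

/-- The `j`-th approximate vertex along `R * Sm j x y`. -/
noncomputable def FB (N M : ℕ) (j : Fin 4) (x : Par N × ℝ × ℝ) : V :=
  yv M x.1.1 (Matrix.of x.1.2 * Sm j x.2.1 x.2.2) j

/-- A monomial in the entries of `R * Sm j x y`. -/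
noncomputable def hB (N : ℕ) (j : Fin 4) (n : ℕ) (p q : Fin n → Fin 3)
    (x : Par N × ℝ × ℝ) : ℝ :=
  ∏ i, (Matrix.of x.1.2 * Sm j x.2.1 x.2.2) (p i) (q i)

/-- The average over the torus. -/
noncomputable def tavg (g : ℝ → ℝ → ℝ) : ℝ :=
  (∫ x in (0 : ℝ)..2 * π, ∫ y in (0 : ℝ)..2 * π, g x y) / (4 * π ^ 2)

/-- Partial derivatives of functions of two variables. -/
noncomputable def dx {E : Type} [NormedAddCommGroup E] [NormedSpace ℝ E] (F : ℝ × ℝ → E)
    (z : ℝ × ℝ) : E := fderiv ℝ F z (1, 0)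

noncomputable def dy {E : Type} [NormedAddCommGroup E] [NormedSpace ℝ E] (F : ℝ × ℝ → E)
    (z : ℝ × ℝ) : E := fderiv ℝ F z (0, 1)

/-- The determinant with columns (equivalently rows) `u, v, w`. -/
def det3 (u v w : V) : ℝ := u ⬝ᵥ (crossProduct v w)

/-- The Jacobian of the projection of `F` to the sphere (up to a positive factor). -/
noncomputable def Jac (F : ℝ × ℝ → V) (z : ℝ × ℝ) : ℝ := det3 (dx F z) (dy F z) (F z)

/-- `F` is `2π`-periodic in each variable. -/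
def Per2 {E : Type} (F : ℝ × ℝ → E) : Prop :=
  ∀ x y : ℝ, F (x + 2 * π, y) = F (x, y) ∧ F (x, y + 2 * π) = F (x, y)

/-- Hypotheses of the total variation lemma (uniform version). -/
structure TVok {N : ℕ} (F : Par N × ℝ × ℝ → V) (h : Par N × ℝ × ℝ → ℝ) : Prop where
  per : ∀ p, Per2 (fun z => F (p, z))
  hper : ∀ p, Per2 (fun z => h (p, z))
  smooth : ∀ Q : M3, Q ∈ SO3 → ∀ z : ℝ × ℝ, ContDiffAt ℝ 2 F ((0, Q), z)
  hsmooth : ∀ Q : M3, Q ∈ SO3 → ∀ z : ℝ × ℝ, ContDiffAt ℝ 2 h ((0, Q), z)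
  nz : ∀ Q : M3, Q ∈ SO3 → ∀ z : ℝ × ℝ, F ((0, Q), z) ≠ 0
  jac : ∀ Q : M3, Q ∈ SO3 → ∀ᵐ z : ℝ × ℝ, Jac (fun z => F ((0, Q), z)) z ≠ 0

/-- A probability measure on the rotation group, right invariant, positive on open sets. -/
structure Haar3 (μ : Measure ↥SO3) : Prop where
  prob : IsProbabilityMeasure μ
  inv : ∀ S : ↥SO3, μ.map (fun R => R * S) = μ
  opn : ∀ U : Set ↥SO3, IsOpen U → U.Nonempty → 0 < μ U

/-- The surface `S` (a set of points), star-shaped with respect to `0` with radial function `r`,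
`|r² - 1| ≤ ε`, `κ`-Lipschitz, admitting the tetrahedron for every rotation, `0` a best centre. -/
structure Surf (S : Set V) (r : V → ℝ) (ε κ : ℝ) : Prop where
  pos : ∀ u ∈ sph, 0 < r u ∧ r u • u ∈ S
  onS : ∀ x ∈ S, x ≠ 0 ∧ x = r (proj x) • proj x
  bd : ∀ u ∈ sph, |r u ^ 2 - 1| ≤ ε
  lip : ∀ u ∈ sph, ∀ v ∈ sph, |r u ^ 2 - r v ^ 2| ≤ κ * ‖u - v‖
  adm : ∀ R : M3, R ∈ SO3 → ∃ t : V, ∀ j, R *ᵥ e j + t ∈ S
  min : ∀ b : V, ∃ x ∈ S, ε ≤ |(x - b) ⬝ᵥ (x - b) - 1|

/-- The remainder of `r² - 1` after the polynomial part. -/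
noncomputable def res {N : ℕ} (r : V → ℝ) (a : Idx N → ℝ) (u : V) : ℝ :=
  r u ^ 2 - 1 - ev a (r u • u)

/-- Complex null matrix attached to two rotations. -/
noncomputable def Zm (A B : M3) : Matrix (Fin 3) (Fin 3) ℂ := fun i k =>
  (1 / 2 : ℂ) * ((A i 0 : ℂ) + Complex.I * (A i 1 : ℂ)) * ((B 0 k : ℂ) - Complex.I * (B 1 k : ℂ))

/-- The iteration of the null equation. -/
noncomputable def tauI {A : Type} [CommRing A] [Algebra ℝ A] (N : ℕ) (a : ℕ → A)
    (y : Fin 4 → A) : ℕ → A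
  | 0 => 0
  | k + 1 => algebraMap ℝ A (3 / 8) *
      ∑ j, (∑ l ∈ Finset.Icc 2 N, a l * (y j + tauI N a y k) ^ l) * y j

/-- Values in the null equation. -/
noncomputable def phN {A : Type} [CommRing A] [Algebra ℝ A] (M N : ℕ) (a : ℕ → A)
    (y : Fin 4 → A) (j : Fin 4) : A :=
  ∑ l ∈ Finset.Icc 2 N, a l * (y j + tauI N a y M) ^ l

/-- The null equation. -/
noncomputable def Nl {A : Type} [CommRing A] [Algebra ℝ A] (M N : ℕ) (a : ℕ → A)
    (y : Fin 4 → A) : A :=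
  ∑ j, phN M N a y j - algebraMap ℝ A (3 / 16) *
    (4 * ∑ j, phN M N a y j ^ 2 - (∑ j, phN M N a y j) ^ 2)

/-- The null equation at `y j = z j * X` in `ℂ[X]`. -/
noncomputable def NlX (M N : ℕ) (a : ℕ → ℂ) (z : Fin 4 → ℂ) : Polynomial ℂ :=
  Nl M N (fun l => Polynomial.C (a l)) (fun j => Polynomial.C (z j) * Polynomial.X)

end Pool.Agent.Helper26.LU
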