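import Pool.Agent.Helper26.LU.GoalsB

/-!
# Project LU: packet E9
-/

namespace Pool.Agent.Helper26.LU

open MeasureTheory Matrix Real Filter Topology

theorem rows_SO3 {p q : V} (hp : p ⬝ᵥ p = 1) (hq : q ⬝ᵥ q = 1) (hpq : p ⬝ᵥ q = 0) :
    (!![p 0, p 1, p 2; q 0, q 1, q 2; p 1 * q 2 - p 2 * q 1, p 2 * q 0 - p 0 * q 2,
      p 0 * q 1 - p 1 * q 0] : M3) ∈ SO3 := by
  simp only [dotProduct, Fin.sum_univ_three] at hp hq hpq
  have key : (p 1 * q 2 - p 2 * q 1) ^ 2 + (p 2 * q 0 - p 0 * q 2) ^ 2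
      + (p 0 * q 1 - p 1 * q 0) ^ 2 = 1 := by
    have : (p 1 * q 2 - p 2 * q 1) ^ 2 + (p 2 * q 0 - p 0 * q 2) ^ 2
        + (p 0 * q 1 - p 1 * q 0) ^ 2
        = (p 0 * p 0 + p 1 * p 1 + p 2 * p 2) * (q 0 * q 0 + q 1 * q 1 + q 2 * q 2)
          - (p 0 * q 0 + p 1 * q 1 + p 2 * q 2) ^ 2 := by ring
    rw [this, hp, hq, hpq]
    ring
  rw [mem_SO3]
  constructor
  · ext i j
    fin_cases i <;> fin_cases j <;>
      simp [Matrix.mul_apply, Fin.sum_univ_three]
    · linear_combination hp
    · linear_combination hpq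
    · ring
    · linear_combination hpq
    · linear_combination hq
    · ring
    · ring
    · ring
    · linear_combination key
  · rw [Matrix.det_fin_three]
    simp
    linear_combination key

theorem gE9 : G_E9 := by
  intro z h1 h2
  set m : Fin 3 → ℂ := fun k => (3 / 4 : ℂ) * ∑ j, z j * (e j k : ℂ) with hm
  have hdot : ∀ i j : Fin 4, ∑ k, (e j k : ℂ) * (e i k : ℂ)
      = if j = i then 1 else -1 / 3 := by
    intro i j
    have h := e_dot j i
    have h' : (((e j ⬝ᵥ e i : ℝ)) : ℂ) = ∑ k, (e j k : ℂ) * (e i k : ℂ) := by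
      simp [dotProduct]
    rw [← h', h]
    split_ifs <;> push_cast <;> rfl
  have hz : ∀ i, ∑ k, m k * (e i k : ℂ) = z i := by
    intro i
    have e1 : ∑ k, m k * (e i k : ℂ) = (3 / 4 : ℂ) * ∑ j, z j * ∑ k, (e j k : ℂ) * (e i k : ℂ) := by
      simp only [hm, Finset.mul_sum, Finset.sum_mul]
      rw [Finset.sum_comm]
      apply Finset.sum_congr rfl
      intro j _
      apply Finset.sum_congr rfl
      intro k _
      ring
    rw [e1]
    simp only [hdot]
    have e2 : ∀ j, z j * (if j = i then (1 : ℂ) else -1 / 3)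
        = -1 / 3 * z j + (if j = i then 4 / 3 * z j else 0) := by
      intro j
      split_ifs <;> ring
    simp only [e2, Finset.sum_add_distrib, ← Finset.mul_sum, h1]
    simp
    ring
  have hmm : ∑ k, m k * m k = 0 := by
    have e1 : ∑ k, m k * m k = (3 / 4 : ℂ) * ∑ j, z j * ∑ k, m k * (e j k : ℂ) := by
      have e3 : ∀ k, m k * m k = ∑ j, (3 / 4 : ℂ) * (z j * (m k * (e j k : ℂ))) := by
        intro k
        have e4 : m k = (3 / 4 : ℂ) * ∑ j, z j * (e j k : ℂ) := rfl
        calc m k * m k = m k * ((3 / 4 : ℂ) * ∑ j, z j * (e j k : ℂ)) := by rw [← e4]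
          _ = _ := by
            simp only [Finset.mul_sum]
            exact Finset.sum_congr rfl fun j _ => by ring
      simp only [e3]
      rw [Finset.sum_comm]
      simp only [Finset.mul_sum]
    rw [e1]
    simp only [hz]
    have : ∑ j, z j * z j = 0 := by
      rw [← h2]
      exact Finset.sum_congr rfl fun j _ => (pow_two _).symm
    rw [this, mul_zero]
  set p : V := fun k => (m k).re with hp
  set q : V := fun k => -(m k).im with hq
  have hmpq : ∀ k, m k = (p k : ℂ) - Complex.I * (q k : ℂ) := by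
    intro k
    apply Complex.ext <;> simp [hp, hq]
  have hre : p ⬝ᵥ p = q ⬝ᵥ q := by
    have := congrArg Complex.re hmm
    simp only [Fin.sum_univ_three, Complex.add_re, Complex.mul_re, Complex.zero_re] at this
    simp only [dotProduct, Fin.sum_univ_three, hp, hq]
    linarith
  have him : p ⬝ᵥ q = 0 := by
    have := congrArg Complex.im hmm
    simp only [Fin.sum_univ_three, Complex.add_im, Complex.mul_im, Complex.zero_im] at this
    simp only [dotProduct, Fin.sum_univ_three, hp, hq]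
    linarith
  by_cases h0 : nrm p = 0
  · have hp0 : p = 0 := by
      by_contra hne
      exact (nrm_pos hne).ne' h0
    have hq0 : q = 0 := by
      by_contra hne
      have h3 := nrm_pos hne
      have h4 := nrm_sq q
      rw [← hre, hp0] at h4
      simp at h4
      exact h3.ne' h4
    refine ⟨0, 1, SO3_one, fun j => ?_⟩
    rw [← hz j]
    simp [hmpq, hp0, hq0]
  · set r : ℝ := nrm p with hr
    have hrp : p ⬝ᵥ p = r ^ 2 := (nrm_sq p).symm
    have hp1 : (r⁻¹ • p) ⬝ᵥ (r⁻¹ • p) = 1 := by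
      rw [smul_dotProduct, dotProduct_smul, hrp]
      simp only [smul_eq_mul]
      field_simp
    have hq1 : (r⁻¹ • q) ⬝ᵥ (r⁻¹ • q) = 1 := by
      rw [smul_dotProduct, dotProduct_smul, ← hre, hrp]
      simp only [smul_eq_mul]
      field_simp
    have hpq1 : (r⁻¹ • p) ⬝ᵥ (r⁻¹ • q) = 0 := by
      rw [smul_dotProduct, dotProduct_smul, him]
      simp
    refine ⟨2 * r, _, rows_SO3 hp1 hq1 hpq1, fun j => ?_⟩
    rw [← hz j]
    have hrc : (r : ℂ) ≠ 0 := by exact_mod_cast h0
    simp only [hmpq, Fin.sum_univ_three]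
    simp
    field_simp

end Pool.Agent.Helper26.LU
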