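import Pool.Agent.Helper26.LU.GoalsB

/-!
# Project LU: packet G1
-/

namespace Pool.Agent.Helper26.LU

open MeasureTheory Matrix Real Filter Topology

theorem norm_sq_le_dot (x : V) : ‖x‖ ^ 2 ≤ x ⬝ᵥ x := by
  rw [← nrm_sq]
  exact pow_le_pow_left₀ (norm_nonneg _) (norm_le_nrm x) 2

theorem gG1 : G_G1 := by
  intro S hS hne
  set f : V → V → ℝ := fun b x => |(x - b) ⬝ᵥ (x - b) - 1| with hf
  have hfc : Continuous ↿f := by
    have : ↿f = fun z : V × V => |(z.2 - z.1) ⬝ᵥ (z.2 - z.1) - 1| := rfl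
    rw [this]
    simp only [dotProduct]
    fun_prop
  set J : V → ℝ := fun b => sSup (f b '' S) with hJ
  have hJc : Continuous J := hS.continuous_sSup hfc
  have hfb : ∀ b, Continuous (f b) := fun b => by
    have : f b = fun x => |(x - b) ⬝ᵥ (x - b) - 1| := rfl
    rw [this]
    simp only [dotProduct]
    fun_prop
  have hle : ∀ b, ∀ x ∈ S, f b x ≤ J b := fun b x hx =>
    le_csSup (hS.image (hfb b)).bddAbove ⟨x, hx, rfl⟩
  obtain ⟨x₀, hx₀⟩ := hne
  have hlim : Tendsto (fun b : V => ‖x₀ - b‖ ^ 2 - 1) (cocompact V) atTop := by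
    have h1 : Tendsto (fun b : V => ‖x₀ - b‖) (cocompact V) atTop := by
      have h2 : Tendsto (fun b : V => ‖b‖ - ‖x₀‖) (cocompact V) atTop :=
        tendsto_atTop_add_const_right _ _ (tendsto_norm_cocompact_atTop (E := V))
      refine tendsto_atTop_mono (fun b => ?_) h2
      have := norm_sub_norm_le b x₀
      rwa [norm_sub_rev] at this
    have h3 : Tendsto (fun b : V => ‖x₀ - b‖ ^ 2) (cocompact V) atTop :=
      (tendsto_pow_atTop (by norm_num : (2 : ℕ) ≠ 0)).comp h1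
    exact tendsto_atTop_add_const_right _ _ h3
  obtain ⟨c, hc⟩ := hJc.exists_forall_le' 0 (by
    filter_upwards [hlim.eventually_ge_atTop (J 0)] with b hb
    refine hb.trans (le_trans ?_ (hle b x₀ hx₀))
    have h1 := norm_sq_le_dot (x₀ - b)
    have h2 := le_abs_self ((x₀ - b) ⬝ᵥ (x₀ - b) - 1)
    simp only [hf]
    linarith)
  refine ⟨c, J c, fun x hx => hle c x hx, fun b => ?_⟩
  obtain ⟨x, hx, hmax⟩ := hS.exists_isMaxOn ⟨x₀, hx₀⟩ (hfb b).continuousOn
  refine ⟨x, hx, (hc b).trans ?_⟩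
  exact csSup_le ⟨_, x₀, hx₀, rfl⟩ (by rintro _ ⟨y, hy, rfl⟩; exact hmax hy)

end Pool.Agent.Helper26.LU
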