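import Pool.Agent.Helper26.LU.All
import Pool.Agent.Helper11.LU.TA
import Pool.Agent.Helper31.LU.T1e
import Pool.Agent.Helper26.LU.G1
import Pool.Agent.Helper26.LU.E9

/-!
# Project LU: the main theorem
-/

namespace Pool.Agent.Helper26.LU

theorem fT1e : G_T1e := Pool.Agent.Helper31.LU.gT1e
theorem fTA : G_TA := Pool.Agent.Helper11.LU.gTA fS1 fS2 fT2

/-- Local uniqueness of the sphere. -/
theorem main_theorem : MainThm := fMain fT1e fTA gE9 gG1

end Pool.Agent.Helper26.LU
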