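import Pool.Agent.Helper26.LU.Base2

/-!
# Project LU: goals, part B (null equation, geometry of convex bodies, reduction)
-/

namespace Pool.Agent.Helper26.LU

open MeasureTheory Matrix Real Filter Topology

/-- **E4. `Ph` at a null matrix of rank one is the null equation.** Let `n, m : Fin 3 → ℂ`,
`z j = ∑_k m k e j k`. Proof. Write `b' = fun α => if 2 ≤ dg α then C (b α) else 0`,
`Z = of (fun i k => C (n i * m k) * X)`, `y j = C (z j) * X`, `a l = C (∑_{dg α = l} b α mon α n)`.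
Then `Z *ᵥ eA j = y j • (C ∘ n)`. By induction `Ti b' Z k = tauI N a y k • (C ∘ n)`: for a scalar
`λ`, `ev b' (λ • (C ∘ n)) = ∑_{dg α ≥ 2} C(b α) λ^(dg α) C(mon α n) = ∑_{l=2}^N a l λ^l`
(`mon α (λ • x) = λ^(dg α) mon α x`, group by degree, `dg α ≤ N`). With
`λ = y j + tauI N a y k` this is the inner sum of `tauI`, and
`Ti (k+1) i = (3/8) ∑_j (...) * (y j * C (n i))`. Hence `Fv M b' Z j = phN M N a y j` and
`Ph = Nl`. -/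
def G_E4 : Prop := ∀ (N M : ℕ) (b : Idx N → ℂ) (n m : Fin 3 → ℂ),
  Ph M (fun α => if 2 ≤ dg α then Polynomial.C (b α) else 0)
      (Matrix.of fun i k => Polynomial.C (n i * m k) * Polynomial.X)
    = NlX M N (fun l => ∑ α with dg α = l, b α * mon α n)
      (fun j => ∑ k, m k * (e j k : ℂ))

/-- **E8. Vanishing on null vectors.** Proof. For real `t` the vectors
`p = ((1-t²)/(1+t²), 0, 2t/(1+t²))`, `q = (0,1,0)`, `p × q` are the columns of some `A ∈ SO3`,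
and `(1+t²)(p + i q) = (1-t², i(1+t²), 2t) =: n_t`. By homogeneity (`mon α (c • x) =
c^(dg α) mon α x`) the hypothesis gives
`∑_{i+j+k=l, k ≤ 1} b_{ijk} (1-t²)^i (i(1+t²))^j (2t)^k = 0` for all real `t`. The part `k = 0`
is even in `t`, the part `k = 1` is odd, so both vanish (replace `t` by `-t`):
`∑_{i+j=l} b_{ij0} i^j (1-t²)^i (1+t²)^j = 0`; divide by `(1+t²)^l`, put
`x = (1-t²)/(1+t²)`, which takes infinitely many values: `∑_i b_{i,l-i,0} i^{l-i} x^i = 0`, so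
all coefficients vanish. The same for `k = 1` (`t ≠ 0`, exponent sum `l - 1`). -/
def G_E8 : Prop := ∀ (N l : ℕ) (b : Idx N → ℝ),
  (∀ A ∈ SO3, ∑ α with dg α = l,
    (b α : ℂ) * mon α (fun i => (A i 0 : ℂ) + Complex.I * (A i 1 : ℂ)) = 0) →
  ∀ α : Idx N, dg α = l → b α = 0

/-- **E9. Parametrisation of the null vectors `z`.** Proof. `m k = (3/4) ∑_j z j e j k`. Then
`∑_k m k e i k = (3/4) ∑_j z j (e j · e i) = (3/4)(z i - (1/3) ∑_{j≠i} z j) = z i` (`e_dot`,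
`∑ z = 0`) and `∑_k m k² = (9/16) ∑_{ij} z i z j (e i · e j)
= (9/16)((4/3) ∑ z j² - (1/3)(∑ z j)²) = 0`. Write `m = (p - i q)/2·λ`...: let
`p' = Re m`, `q' = -Im m`; `∑ m² = 0` gives `p'·p' = q'·q'`, `p'·q' = 0`. If `p' = 0` then
`q' = 0`, `z = 0`, take `λ = 0`, `B = 1`. Otherwise `λ = 2 |p'|`, rows of `B`: `p'/|p'|`,
`q'/|p'|`, their cross product; `B ∈ SO3` and `m k = λ (1/2)(B 0 k - i B 1 k)`. -/
def G_E9 : Prop := ∀ z : Fin 4 → ℂ, ∑ j, z j = 0 → ∑ j, z j ^ 2 = 0 →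
  ∃ (lam : ℝ) (B : M3), B ∈ SO3 ∧ ∀ j, z j = (lam : ℂ) *
    ∑ k, (1 / 2 : ℂ) * ((B 0 k : ℂ) - Complex.I * (B 1 k : ℂ)) * (e j k : ℂ)

/-- **E12. Scaling of the null equation.** Proof. `Polynomial.aeval (C c * X)` (composition with
`c X`) is a ring homomorphism `φ : ℂ[X] → ℂ[X]` fixing constants, mapping `C (z j) * X` to
`C (c z j) * X`, and `Nl` is natural for `ℝ`-algebra homomorphisms (induction for `tauI`);
`(φ P).coeff w = c^w P.coeff w`. -/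
def G_E12 : Prop := ∀ (M N : ℕ) (a : ℕ → ℂ) (z : Fin 4 → ℂ) (c : ℂ) (w : ℕ),
  (NlX M N a (fun j => c * z j)).coeff w = c ^ w * (NlX M N a z).coeff w

/-- **E11. The equation of weight 2.** Proof. Let `a = s^wt â` (`s = s_k ≤ 1` eventually, `â_k`
bounded by `C'`), so `‖a‖ ≤ C' s²`. By `Ti_bound`, `ev_lip`: `Fv M a R j = ev a (R e j) + O(s⁴)`,
`|Fv| = O(s²)`, so `Ph M a R = ∑_j ev a (R e j) + O(s⁴)`. In
`∑_j ev a (R e j) = ∑_α s^(wt α) â α ∑_j mon α (R e j)` the terms with `dg α = 1` vanish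
(`e_sum`), those with `dg α ≥ 3` are `O(s³)`, the others are
`s² (4 ∑_{dg α = 0} â α + ∑_{dg α = 2} â α ∑_j mon α (R e j))`. Divide the bound
`|Ph| ≤ C s^(N+1) ≤ C s³` by `s²` and let `k → ∞`. (`mon α x = 1` for `dg α = 0`.) -/
def G_E11 : Prop := ∀ (N M : ℕ) (C : ℝ) (s : ℕ → ℝ) (ah : ℕ → Idx N → ℝ) (as : Idx N → ℝ),
  2 ≤ N → (∀ k, 0 < s k) → Tendsto s atTop (𝓝 0) → Tendsto ah atTop (𝓝 as) →
  (∀ k, ∀ R ∈ SO3, |Ph M (fun α => s k ^ wt α * ah k α) R| ≤ C * s k ^ (N + 1)) →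
  ∀ R ∈ SO3, 4 * ∑ α with dg α = 0, as α
    + ∑ j, ∑ α with dg α = 2, as α * mon α (R *ᵥ e j) = 0

/-- **AC1. A coefficient enters linearly.** Proof. Let `y j = C (z j) X`, `I = (X)` (divisibility by
powers of `X` in `ℂ[X]`). By induction `X ∣ tauI` (indeed `X^3 ∣ tauI`). Let `a'` agree with `a` below
`w` and write `τ, φ_j` (`τ', φ'_j`) for the iterates and values for `a` (`a'`). By induction on
`k`: `X^(w+1) ∣ τ_k - τ'_k` and, for the inner sums,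
`φ_j - φ'_j ≡ C((a w - a' w)) y_j^w mod X^(w+1)`: write
`a_l (y+τ)^l - a'_l (y+τ')^l = a_l ((y+τ)^l - (y+τ')^l) + (a_l - a'_l)(y+τ')^l`; the first is
divisible by `τ - τ'`, so by `X^(w+1)`; the second is `0` for `l < w`, divisible by `X^(w+1)` for
`l > w` (`X ∣ y + τ'`), and for `l = w` `(y + τ')^w ≡ y^w mod X^(w+1)` since `X² ∣ τ'`. Then
`τ_{k+1} - τ'_{k+1} = (3/8) ∑ (φ_j - φ'_j) y_j` is divisible by `X^(w+1)`. Finally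
`Nl a - Nl a' ≡ ∑_j C(a w - a' w) y_j^w` modulo `X^(w+1)`: the quadratic part changes by products
`(φ_j - φ'_j) φ_i` divisible by `X^w X²`. Take the coefficient of `X^w`. -/
def G_AC1 : Prop := ∀ (M N w : ℕ) (a a' : ℕ → ℂ) (z : Fin 4 → ℂ), 2 ≤ w → w ≤ N →
  (∀ l < w, a l = a' l) →
  (NlX M N a z).coeff w - (NlX M N a' z).coeff w = (a w - a' w) * ∑ j, z j ^ w

/-- **AC2. Roots.** Proof. The polynomial `Z⁴ - c Z - d` splits over `ℂ`; let `z 0, ..., z 3` be its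
roots with multiplicity. Vieta: `e₁ = 0`, `e₂ = 0`, `e₃ = c`, `e₄ = -d`. So `∑ z = 0`,
`∑ z² = e₁² - 2 e₂ = 0`, `∑ z³ = e₁³ - 3 e₁ e₂ + 3 e₃ = 3 c`. -/
def G_AC2 : Prop := ∀ c d : ℂ, ∃ z : Fin 4 → ℂ, ∑ j, z j = 0 ∧ ∑ j, z j ^ 2 = 0 ∧
  ∑ j, z j ^ 3 = 3 * c ∧ ∀ j, z j ^ 4 = c * z j + d

/-- The coefficients forced by the null equations of weight at most 15, `p = a 2`, `q = a 5`. -/
noncomputable def aseq (p q : ℂ) : ℕ → ℂ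
  | 2 => p
  | 4 => 3 / 4 * p ^ 2
  | 5 => q
  | 6 => -(9 / 16) * p ^ 3
  | 7 => -(12 / 7) * p * q
  | 8 => -(27 / 32) * p ^ 4
  | 9 => 1755 / 224 * p ^ 2 * q
  | 10 => -(3 / 2) * q ^ 2 + 22599 / 2560 * p ^ 5
  | 11 => -(675 / 22) * p ^ 3 * q
  | 12 => 225 / 28 * p * q ^ 2 + 17253 / 1280 * p ^ 6
  | 13 => 81717417 / 512512 * p ^ 4 * q
  | 14 => -(16767 / 224) * p ^ 2 * q ^ 2 - 4105971 / 57344 * p ^ 7
  | 15 => 6 * q ^ 3 - 10056393 / 14560 * p ^ 5 * q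
  | _ => 0

/-- **AC3. The computation** (helper26 does this one). -/
def G_AC3 : Prop := ∀ (M N : ℕ) (p q c d : ℂ) (z : Fin 4 → ℂ), 15 ≤ N → N ≤ M →
  ∑ j, z j = 0 → ∑ j, z j ^ 2 = 0 → ∑ j, z j ^ 3 = 3 * c → (∀ j, z j ^ 4 = c * z j + d) →
  ∀ w ≤ 15, (NlX M N (aseq p q) z).coeff w =
    if w = 12 then (112995 / 512 * p ^ 6 - 1809 / 56 * p * q ^ 2) * c ^ 4
    else if w = 15 then (52581069 / 71680 * p ^ 5 * q - 423 / 32 * q ^ 3) * c ^ 5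
    else 0

/-- **AC. The null equations have only the zero solution.** Proof (hypotheses `G_AC1`, `G_AC2`,
`G_AC3`). For `z` from `G_AC2` put `P_w = ∑ z^w`; `P_0..P_3 = 4,0,0,3c`,
`P_{w+4} = c P_{w+1} + d P_w`. For `(c,d) = (1,1)`: `P_w` is a positive integer for all `w ≥ 3`
except `P_5 = 0` (`P_3..P_11 = 3,4,0,3,7,4,3,10,11`, then induction: all `P_w ≥ 1` for `w ≥ 6`).
Let `p = a 2`, `q = a 5`, `ã = aseq p q`. Induction: `a l = ã l` for `l = 2..11` (below 2 the values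
are irrelevant: replace `a` by `a` with `a 0 = a 1 = 0`; `NlX` only uses `l ∈ Icc 2 N`, so it does
not change): for `w = 3,4,6,...,11` `G_AC1` gives `0 - 0 = (a w - ã w) P_w` at `(1,1)`. At
`w = 12` for every `(c,d)` (with `P_12 = 3c⁴ + 4d³`):
`0 - κ c⁴ = (a 12 - ã 12)(3c⁴+4d³)`, `κ = 112995/512 p⁶ - 1809/56 p q²`; `(c,d) = (0,1)`:
`a 12 = ã 12`, `(1,0)`: `κ = 0`. `w = 13, 14` as before. `w = 15`:
`-κ' c⁵ = (a 15 - ã 15)(3c⁵ + 15 c d³)`, `κ' = 52581069/71680 p⁵q - 423/32 q³`; `(1,0)` and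
`(1,1)`: `-κ' = 3x = 18x`, so `a 15 = ã 15`, `κ' = 0`. So `p (A p⁵ - B q²) = 0`,
`q (A' p⁵ - B' q²) = 0`, with `A/B ≠ A'/B'` (`A = 112995/512`, `B = 1809/56`,
`A' = 52581069/71680`, `B' = 423/32`), `A, A', B, B' ≠ 0`: if `p = 0` then `q³ = 0`; if `q = 0`
then `p⁶ = 0`; otherwise `p⁵ = (B/A) q² = (B'/A') q²` gives `q = 0`. So `p = q = 0`, `ã = 0`,
`a l = 0` for `2 ≤ l ≤ 15`; for `w > 15` by induction `G_AC1` with `a' = 0`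
(`NlX M N 0 z = 0`) at `(1,1)`: `a w P_w = 0`, `P_w ≠ 0`. -/
def G_AC : Prop := ∀ (M N : ℕ) (a : ℕ → ℂ), 15 ≤ N → N ≤ M →
  (∀ z : Fin 4 → ℂ, ∑ j, z j = 0 → ∑ j, z j ^ 2 = 0 → ∀ w ≤ N, (NlX M N a z).coeff w = 0) →
  ∀ l, 2 ≤ l → l ≤ N → a l = 0

/-- **PB. Part B** (helper26). -/
def G_PB : Prop := ∀ N M : ℕ, 15 ≤ N → N ≤ M → ∀ C : ℝ, ∃ s₀ : ℝ, 0 < s₀ ∧
  ∀ (s : ℝ) (ah : Idx N → ℝ), 0 < s → s ≤ s₀ → (∀ α, |ah α| ≤ C) →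
    (∃ α, dg α ≠ 1 ∧ |ah α| = 1) →
    ¬ ∀ R ∈ SO3, |Ph M (fun α => s ^ wt α * ah α) R| ≤ C * s ^ (N + 1)

/-- **PA. Part A** (helper26). -/
def G_PA : Prop := ∀ C₀ : ℝ, ∃ N M : ℕ, 15 ≤ N ∧ N ≤ M ∧ ∃ C : ℝ, ∀ s₀ : ℝ, 0 < s₀ →
  ∃ ε₀ : ℝ, 0 < ε₀ ∧ ∀ (S : Set V) (r : V → ℝ) (ε κ : ℝ), Surf S r ε κ → 0 < ε → ε ≤ ε₀ →
    0 ≤ κ → κ ≤ C₀ * Real.sqrt ε →
    ∃ (s : ℝ) (ah : Idx N → ℝ), 0 < s ∧ s ≤ s₀ ∧ (∀ α, |ah α| ≤ C) ∧
      (∃ α, dg α ≠ 1 ∧ |ah α| = 1) ∧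
      ∀ R ∈ SO3, |Ph M (fun α => s ^ wt α * ah α) R| ≤ C * s ^ (N + 1)

/-- **G1. A best centre.** Proof. `J(b) = sup_{x ∈ S} |(x-b)·(x-b) - 1|` is finite (`S` compact) and
attained for each `b`; `J` is lower semicontinuous (a supremum of continuous functions) and
`J(b) → ∞` as `‖b‖ → ∞` (fix `x₀ ∈ S`). So `J` attains its minimum at some `c` (on a compact ball
outside of which `J > J(0)`); put `ε = J(c)`. The first claim is the definition; for every `b`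
some `x ∈ S` has `|(x-b)·(x-b) - 1| = J(b) ≥ J(c) = ε`. -/
def G_G1 : Prop := ∀ S : Set V, IsCompact S → S.Nonempty →
  ∃ (c : V) (ε : ℝ), (∀ x ∈ S, |(x - c) ⬝ᵥ (x - c) - 1| ≤ ε) ∧
    ∀ b : V, ∃ x ∈ S, ε ≤ |(x - b) ⬝ᵥ (x - b) - 1|

/-- **G2. The centre is interior.** Proof. Let `t' = t - c`, `x_j - c = R e j + t'`,
`f_j = (x_j-c)·(x_j-c) - 1 = 2 (R e j)·t' + t'·t'`, `|f_j| ≤ 1/16`. As in the main equation
`∑ f_j R e j = (8/3) t'` (`e_frame`, `e_sum`, rotated), so `|t'| ≤ (3/8)·4·(1/16) < 1/8`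
(Euclidean length). Let `y` have `|y| < 1/8`. Then `y - t' = ∑ λ_j R e j` with
`λ_j = 1/4 + (3/4) (y - t')·R e j ≥ 1/4 - 3/16 > 0`, `∑ λ_j = 1`, so
`c + y = ∑ λ_j (c + R e j + t') = ∑ λ_j x_j ∈ K` (convex, `x_j ∈ frontier K ⊆ K` as `K` is
closed). So a ball around `c` is contained in `K`. -/
def G_G2 : Prop := ∀ (K : Set V), Convex ℝ K → IsCompact K → ∀ (c t : V), ∀ R ∈ SO3,
  (∀ j, R *ᵥ e j + t ∈ frontier K) →
  (∀ x ∈ frontier K, |(x - c) ⬝ᵥ (x - c) - 1| ≤ 1 / 16) → c ∈ interior K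

/-- **G3. The radial function.** `K` a compact convex set with `0` in its interior and
`|x·x - 1| ≤ ε ≤ 1/4` on the frontier, `r u = (gauge K u)⁻¹`. Proof. `K` is absorbent, closed and
bounded, so for `x ≠ 0` `gauge K x > 0`; `{gauge K ≤ 1} = K`, `{gauge K < 1} = interior K`
(`gauge_le_one_iff_mem_closure`, `gauge_lt_one_eq_self_of_isOpen`,
`interior_subset_gauge_lt_one`, ...), so `frontier K = {x : gauge K x = 1}` (Mathlib: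
`frontier_eq_gauge_..`/`gauge_eq_one_iff_mem_frontier`). For `u ∈ sph` `gauge K (r u • u) =
r u · gauge K u = 1`, so `r u • u ∈ frontier K` and `|r u ^ 2 - 1| = |(r u•u)·(r u•u) - 1| ≤ ε`.
If `x ∈ frontier K` then `x ≠ 0`, `u = proj x`, `x = |x| u`, `1 = gauge K x = |x| gauge K u`, so
`r u = |x|`. -/
def G_G3 : Prop := ∀ (K : Set V) (ε : ℝ), Convex ℝ K → IsCompact K → (0 : V) ∈ interior K →
  0 ≤ ε → ε ≤ 1 / 4 → (∀ x ∈ frontier K, |x ⬝ᵥ x - 1| ≤ ε) →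
  (∀ u ∈ sph, 0 < (gauge K u)⁻¹ ∧ (gauge K u)⁻¹ • u ∈ frontier K ∧
    |(gauge K u)⁻¹ ^ 2 - 1| ≤ ε) ∧
  ∀ x ∈ frontier K, x ≠ 0 ∧ x = (gauge K (proj x))⁻¹ • proj x

/-- **G4. Lipschitz bound of the radial function by convexity.** Proof (`G_G3` as hypothesis). Let
`g = gauge K`: convex and positively homogeneous (sublinear). On `sph`
`|g(u)^{-2} - 1| ≤ ε ≤ 1/4`, so `|g(u) - 1| ≤ 2 ε` and `g ≤ 2`, `g ≥ 1/2`. Let `u, v ∈ sph`,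
`d = |u - v|` (Euclidean length) `> 0`. For `λ > 0` put `w = v + λ (v - u)`, so
`v = (w + λ u)/(1 + λ)` and `(1+λ) g(v) ≤ g(w) + λ g(u)`, i.e.
`(1+λ)(g(v) - g(u)) ≤ g(w) - g(u) ≤ (1+2ε)|w| - (1-2ε)`. Since `v·(v-u) = d²/2`:
`|w|² = 1 + λ d² + λ² d²`, `|w| ≤ 1 + (λ + λ²) d²/2`. So
`(1+λ)(g(v)-g(u)) ≤ 4ε + (1+2ε)(λ+λ²) d²/2 ≤ 4ε + (3/4)(1+λ) λ d²`, hence
`g(v) - g(u) ≤ 4ε/λ + λ d²`. If `ε > 0` take `λ = √ε/d`: `≤ 5 √ε d`. If `ε = 0` let `λ → 0`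
with `4ε/λ = 0`: `≤ 0`. By symmetry `|g(u) - g(v)| ≤ 5 √ε d`. Then
`|g(u)^{-2} - g(v)^{-2}| = |g(u) - g(v)| (g(u) + g(v))/(g(u)² g(v)²) ≤ 64·5 √ε d` and
`d ≤ 2 ‖u - v‖` (`nrm_le_norm`). -/
def G_G4 : Prop := ∃ C : ℝ, 0 < C ∧ ∀ (K : Set V) (ε : ℝ), Convex ℝ K → IsCompact K →
  (0 : V) ∈ interior K → 0 ≤ ε → ε ≤ 1 / 4 → (∀ x ∈ frontier K, |x ⬝ᵥ x - 1| ≤ ε) →
  ∀ u ∈ sph, ∀ v ∈ sph,
    |(gauge K u)⁻¹ ^ 2 - (gauge K v)⁻¹ ^ 2| ≤ C * Real.sqrt ε * ‖u - v‖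

/-- The theorem for the unit tetrahedron `e`. -/
def CoreThm : Prop := ∃ δ : ℝ, 0 < δ ∧ ∀ (K : Set V) (c : V), Convex ℝ K → IsCompact K →
  (∀ R ∈ SO3, ∃ t : V, ∀ j, R *ᵥ e j + t ∈ frontier K) →
  (∀ x ∈ frontier K, |(x - c) ⬝ᵥ (x - c) - 1| ≤ δ) →
  ∃ c' : V, frontier K = {x | (x - c') ⬝ᵥ (x - c') = 1}

/-- The theorem for general regular tetrahedra (the target). -/
def MainThm : Prop := ∃ δ : ℝ, 0 < δ ∧ ∀ (v : Fin 4 → Fin 3 → ℝ) (a : ℝ), 0 < a →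
  (∀ i j, i ≠ j → (v i - v j) ⬝ᵥ (v i - v j) = a ^ 2) →
  ∀ (K : Set (Fin 3 → ℝ)), Convex ℝ K → IsCompact K →
  (∀ R ∈ Matrix.specialOrthogonalGroup (Fin 3) ℝ, ∃ t : Fin 3 → ℝ, ∀ i,
    R *ᵥ v i + t ∈ frontier K) →
  ∀ c : Fin 3 → ℝ, (∀ x ∈ frontier K, |(x - c) ⬝ᵥ (x - c) - 3 * a ^ 2 / 8| ≤ δ * a ^ 2) →
  ∃ c' : Fin 3 → ℝ, frontier K = {x | (x - c') ⬝ᵥ (x - c') = 3 * a ^ 2 / 8}

/-- **F1. Reduction to the unit tetrahedron.** Proof. Let `ρ = a √6/4` (`ρ² = 3a²/8`),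
`w = (1/4) ∑ v j`, `x_j = (v j - w)/ρ`. From the six distances: `∑ x_j = 0` and
`x_i · x_j = 1` for `i = j`, `-1/3` for `i ≠ j` (standard:
`|v_i - w|² = (1/4) ∑_j |v_i - v_j|² - (1/32) ∑_{jk} |v_j - v_k|² = (3/4)a² - (3/8)a² = 3a²/8`,
and `2 (v_i-w)·(v_j-w) = 2·3a²/8 - a² = -a²/4`). Put `O = (3/4) ∑_j x_j e_jᵀ` (`O_{kl} = (3/4) ∑_j
x_j k * e j l`). Then `O e_k = (3/4) ∑_j x_j (e j · e k) = x_k` and
`Oᵀ O = 1` because `(O e_i)·(O e_j) = e i · e j` for all `i, j` and the `e j` span (`e_frame`: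
`x = (3/4) ∑ (x·e j) e j`). So `O` is orthogonal, `det O = ±1`. If `det O = -1` let
`P = diag(1,-1,1)`, which fixes `e 0, e 1` and exchanges `e 2, e 3`; then `O' = O P ∈ SO3` and
`x_j = O e_j = O' e_{π j}`. In both cases there are `O' ∈ SO3` and a permutation `π` with
`v j = ρ O' e (π j) + w`. Let `K' = {y : ρ y ∈ K}` `= ρ⁻¹ • K`, convex, compact, with
`y ∈ frontier K' ↔ ρ y ∈ frontier K` (homeomorphism). For `R' ∈ SO3` take `R = R' O'ᵀ ∈ SO3` and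
its `t`: `R v_j + t = ρ R' e (π j) + R w + t ∈ frontier K`, so
`R' e (π j) + ρ⁻¹(R w + t) ∈ frontier K'` for all `j`, i.e. for all `j' = π j`. The hypothesis
gives `|(y - c/ρ)·(y - c/ρ) - 1| ≤ δ a²/ρ² = 8δ/3` on `frontier K'`. Apply `CoreThm` (with its
`δ₁`, `δ = 3δ₁/8`), and scale back: `c' = ρ c₁`. -/
def G_F1 : Prop := CoreThm → MainThm

end Pool.Agent.Helper26.LU
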