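import Pool.Agent.Helper26.LU.Base2

/-!
# Project LU: goals, part D (the data of a surface, geometry, polynomial structure)
-/

namespace Pool.Agent.Helper26.LU

open MeasureTheory Matrix Real Filter Topology

/-- Value of a polynomial in the matrix entries. -/
noncomputable def evM (P : MvPolynomial (Fin 3 × Fin 3) ℝ) (R : M3) : ℝ :=
  MvPolynomial.eval (fun ij => R ij.1 ij.2) P

/-- Complex value of a polynomial in the matrix entries. -/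
noncomputable def evC (P : MvPolynomial (Fin 3 × Fin 3) ℝ) (Z : Matrix (Fin 3) (Fin 3) ℂ) : ℂ :=
  MvPolynomial.aeval (fun ij => Z ij.1 ij.2) P

/-- **D1. Least squares.** Proof (hypothesis `G_M5`, restated below as `hM5`). Let
`φ_α(u) = mon α (r u • u)`, `f = r² - 1`; `r` is continuous on `sph` (`r > 0`, `r²` Lipschitz;
for `ε ≤ 1/2` `r ≥ 1/2`, `|r - 1| = |r² - 1|/(r + 1) ≤ ε`, `|r u - r v| ≤ |r u² - r v²|`).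
`‖r u • u‖ ≤ 2`. By `ev_lip` `|ev a (r u • u) - ev a u| ≤ C₁ ‖a‖ ε` on `sph`. With `c` from `M5`
and `(x+y)² ≥ x²/2 - y²`: `∫ (ev a (r u • u))² ≥ (c/2 - C₁² ε²) ‖a‖² ≥ (c/4) ‖a‖²` (`u = R e 0`)
for `ε ≤ ε₀`. The linear map `L : (Idx N → ℝ) → (Idx N → ℝ)`, `(L a)_β = ∫ ev a (r u•u) φ_β`, is
injective (`∑ a_β (L a)_β = ∫ (ev a (r u • u))²`), so surjective
(`LinearMap.injective_iff_surjective`); choose `a` with `(L a)_β = ∫ f φ_β`, i.e.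
`∫ res · φ_β = 0` for all `β` (`res r a u = f u - ev a (r u • u)`). Then
`∫ f² = ∫ res² + ∫ (ev a)²` so `(c/4)‖a‖² ≤ ∫ f² ≤ ε²`, `‖a‖ ≤ C ε`. Next
`|res| ≤ ε + C ‖a‖ ≤ C ε` (`ev_bound`), the Lipschitz bound by `ev_lip` and
`‖r u • u - r v • v‖ ≤ |r u - r v| ‖u‖ + r v ‖u - v‖ ≤ (κ + 2) ‖u - v‖`, and
`|∫ res(R e 0) mon α (R e 0)| = |∫ res (mon α u - φ_α u)| ≤ E C ε` (`mon_lip`; `E ≥ 0`; `μ` is a
probability measure). Integrability: continuous functions on the compact group. -/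
def G_D1 : Prop := ∀ μ : Measure ↥SO3, Haar3 μ → ∀ N : ℕ,
  (∃ c : ℝ, 0 < c ∧ ∀ a : Idx N → ℝ, c * ‖a‖ ^ 2 ≤ ∫ R : ↥SO3, (ev a (R.1 *ᵥ e 0)) ^ 2 ∂μ) →
  ∃ C : ℝ, 0 < C ∧ ∃ ε₀ : ℝ, 0 < ε₀ ∧ ∀ (r : V → ℝ) (ε κ : ℝ), 0 ≤ ε → ε ≤ ε₀ → 0 ≤ κ → κ ≤ 1 →
    (∀ u ∈ sph, 0 < r u) → (∀ u ∈ sph, |r u ^ 2 - 1| ≤ ε) →
    (∀ u ∈ sph, ∀ v ∈ sph, |r u ^ 2 - r v ^ 2| ≤ κ * ‖u - v‖) →
    ∃ a : Idx N → ℝ, ‖a‖ ≤ C * ε ∧ (∀ u ∈ sph, |res r a u| ≤ C * ε) ∧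
      (∀ u ∈ sph, ∀ v ∈ sph, |res r a u - res r a v| ≤ C * (κ + ε) * ‖u - v‖) ∧
      ∀ E : ℝ, (∀ u ∈ sph, |res r a u| ≤ E) → ∀ α : Idx N,
        |∫ R : ↥SO3, res r a (R.1 *ᵥ e 0) * mon α (R.1 *ᵥ e 0) ∂μ| ≤ C * ε * E

/-- **D3. The main equation.** Proof. Let `R ∈ SO3`, `t` with `x_j = R e j + t ∈ S`,
`u_j = proj x_j ∈ sph`, `x_j = r(u_j) u_j`, `f_j = |x_j|² - 1 = r(u_j)² - 1`, so `|f_j| ≤ ε` and
`f_j = ev a x_j + g(u_j)`, `g = res r a`. Expanding, `f_j = 2 (R e j)·t + t·t`. By `e_frame`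
(rotated) and `e_sum`: `∑ f_j R e j = 2 ∑ ((R e j)·t) R e j + (t·t) ∑ R e j = (8/3) t`, i.e.
`t = (3/8) ∑ f_j R e j`, `‖t‖ ≤ (3/2) ε`; `∑ f_j = 4 t·t`, and
`t·t = (9/64) ∑_{jk} f_j f_k e j·e k = (3/64)(4 ∑ f_j² - (∑ f_j)²)`, so
(*) `∑ f_j = (3/16)(4 ∑ f_j² - (∑ f_j)²)`.
With `T_k = Ti a R k`: `t - T_{k+1} = (3/8) ∑ [ev a x_j + g(u_j) - ev a (R e j + T_k)] R e j`, so
`‖t - T_{k+1}‖ ≤ C ‖a‖ ‖t - T_k‖ + (3/2) E` (`ev_lip`; all vectors bounded by `Ti_bound`), hence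
`‖t - T_M‖ ≤ (C‖a‖)^M ‖t‖ + 2 C E ≤ C' (‖a‖^M + E)` if `C ‖a‖ ≤ 1/2`. Let
`F_j = ev a (R e j + T_M) = Fv M a R j`, `y_j = yh M a R j`. Then
`|f_j - F_j - g(u_j)| ≤ C ‖a‖ ‖t - T_M‖`, `|g(u_j) - g(y_j)| ≤ κe ‖u_j - y_j‖
 ≤ C κe ‖t - T_M‖` (`proj_lip`, the vectors `x_j`, `yv M a R j` have length `≥ 1/2`). With
`q(f) = (3/16)(4∑f_j² - (∑f_j)²)`: `|q(f) - q(F)| ≤ C (ε + ‖a‖)(‖a‖ ‖t - T_M‖ + E)`
(`|f_j| ≤ ε`, `|F_j| ≤ C ‖a‖`). Since `Ph M a R = ∑ F_j - q(F)` and `∑ f_j = q(f)`: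
`|∑ g(y_j) + Ph M a R| ≤ C (κe + ‖a‖)‖t - T_M‖ + C (ε + ‖a‖)(‖a‖‖t - T_M‖ + E)
 ≤ C (κe + ‖a‖ + ε) E + C ‖a‖^M` (using `κe ≤ 1`, `‖a‖ ≤ 1`, `ε ≤ 1`). -/
def G_D3 : Prop := ∀ N M : ℕ, ∃ C : ℝ, 0 < C ∧ ∃ ε₀ : ℝ, 0 < ε₀ ∧
  ∀ (S : Set V) (r : V → ℝ) (ε κ : ℝ), Surf S r ε κ → 0 ≤ ε → ε ≤ ε₀ →
  ∀ (a : Idx N → ℝ) (E κe : ℝ), ‖a‖ ≤ ε₀ → (∀ u ∈ sph, |res r a u| ≤ E) → E ≤ 1 →
    0 ≤ κe → κe ≤ 1 →
    (∀ u ∈ sph, ∀ v ∈ sph, |res r a u - res r a v| ≤ κe * ‖u - v‖) →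
    ∀ R ∈ SO3, |∑ j, res r a (yh M a R j) + Ph M a R|
      ≤ C * (κe + ‖a‖ + ε) * E + C * ‖a‖ ^ M

/-- **D4. The polynomial part is controlled by the coefficients of degree `≠ 1`.** Proof.
`Ph = ∑ F_j - (3/16)(...)`, `F_j = ev a (R e j + T)`, `T = Ti a R M`, `‖T‖ ≤ C ‖a‖`
(`Ti_bound`), `|F_j| ≤ C ‖a‖`, so the quadratic part is `O(‖a‖²)` and
`∑ F_j = ∑ ev a (R e j) + O(‖a‖ ‖T‖)` (`ev_lip`). `∑_j ev a (R e j) = ∑_α a_α ∑_j mon α (R e j)`;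
for `dg α = 1` `mon α` is a coordinate function, linear, and `∑ R e j = 0` (`e_sum`), the other
terms are at most `4 σ`. -/
def G_D4 : Prop := ∀ N M : ℕ, ∃ C : ℝ, 0 < C ∧ ∀ (a : Idx N → ℝ) (σ : ℝ), ‖a‖ ≤ 1 → 0 ≤ σ →
  (∀ α, dg α ≠ 1 → |a α| ≤ σ) → ∀ R ∈ SO3, |Ph M a R| ≤ C * (σ + ‖a‖ ^ 2)

/-- **D5. The best centre.** Proof. Let `b₀ i = ∑_{dg α = 1} a_α mon α (δ_i)` (`δ_i` the standard
basis vector), so `∑_{dg α = 1} a_α mon α x = b₀ · x` and `‖b₀‖ ≤ C ‖a‖`. Apply `Surf.min` with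
`b = b₀/2`: some `x ∈ S` has `ε ≤ |(x-b)·(x-b) - 1|`. With `u = proj x`, `x = r u • u`:
`x·x - 1 = r(u)² - 1 = res r a u + ev a x`, so
`(x-b)·(x-b) - 1 = res r a u + ev a x - b₀·x + b·b = res r a u + ∑_{dg α ≠ 1} a_α mon α x + b·b`,
`|...| ≤ E + C σ + C ‖a‖²` (`‖x‖ ≤ 2`, `mon_bound`). -/
def G_D5 : Prop := ∀ N : ℕ, ∃ C : ℝ, 0 < C ∧
  ∀ (S : Set V) (r : V → ℝ) (ε κ : ℝ), Surf S r ε κ → 0 ≤ ε → ε ≤ 1 →
  ∀ (a : Idx N → ℝ) (σ E : ℝ), ‖a‖ ≤ 1 → 0 ≤ σ → (∀ α, dg α ≠ 1 → |a α| ≤ σ) →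
    (∀ u ∈ sph, |res r a u| ≤ E) → ε ≤ E + C * (σ + ‖a‖ ^ 2)

/-- **FD. Finite-dimensionality.** Proof. Let `W = MvPolynomial.restrictTotalDegree (Fin 3 × Fin 3)
ℝ N`, a finite-dimensional space, `ℳ` the finite type of all `(n, p, q)`, `n ≤ N`,
`Λ : W → (ℳ → ℝ)`, `Λ(P)_{(n,p,q)} = ∫ ∏ R_{p_i q_i} P(R) dμ`, and `ι : W → C(↥SO3, ℝ)` the
restriction. `ker Λ ≤ ker ι`: if `Λ(P) = 0` then, `P` being a linear combination of monomials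
`∏ R_{p_i q_i}` with `n ≤ N` factors, `∫ P² = 0`, so `P = 0` on `SO3` (continuous, `μ` positive on
open sets). So there is a linear `L : (ℳ → ℝ) → C(↥SO3, ℝ)` with `ι = L ∘ Λ`
(factor over the range of `Λ`, extend); `L` is continuous (finite-dimensional domain), so
`sup |P| ≤ ‖L‖ ‖Λ(P)‖ ≤ ‖L‖ B`. (Alternative without `L`: compactness of the unit sphere of the
finite-dimensional space `ι(W)`.) -/
def G_FD : Prop := ∀ μ : Measure ↥SO3, Haar3 μ → ∀ N : ℕ, ∃ C : ℝ, 0 < C ∧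
  ∀ (P : MvPolynomial (Fin 3 × Fin 3) ℝ) (B : ℝ), P.totalDegree ≤ N →
    (∀ n ≤ N, ∀ p q : Fin n → Fin 3,
      |∫ R : ↥SO3, (∏ i, R.1 (p i) (q i)) * evM P R.1 ∂μ| ≤ B) →
    ∀ R ∈ SO3, |evM P R| ≤ C * B

/-- **E0. Structure of `Ph`.** Proof. Naturality: for an `ℝ`-algebra homomorphism `φ : A → A'`,
`φ (Ph M a X) = Ph M (φ ∘ a) (X.map φ)` (induction for `Ti`). Scaling: for `s : A`,
`Ph M (fun α => s ^ dg α * a α) X = Ph M a (s • X)`: indeed `ev (s^dg a) x = ev a (s • x)`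
(`mon α (s • x) = s ^ dg α * mon α x`), by induction
`s • Ti (s^dg a) X k = Ti a (s • X) k`, so `Fv M (s^dg a) X j = Fv M a (s • X) j`.
Let `A₀ = MvPolynomial (Idx N) ℝ`, `A₁ = MvPolynomial (Fin 3 × Fin 3) A₀`,
`G = Ph M (C ∘ X) (X matrix) ∈ A₁` (coefficients the generic vector, matrix of variables),
`D = G.totalDegree`, and `Γ d b = map (eval b) (homogeneousComponent d G)`. (i) homogeneous;
(ii) the coefficients are values at `b` of fixed polynomials, hence continuous in `b`;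
(iii) `Ph M (s^dg b) X = Ph M b (s • X) = eval of map (eval b) G at s • X
= ∑_{d ≤ D} s^d evM (Γ d b) X` (a homogeneous polynomial of degree `d` scales by `s^d`);
(iv) in `ℂ[X]`: `Ph M (C ∘ b) (X • Z) = ∑_{d ≤ D} X^d C (evC (Γ d b) Z)` by naturality, and
`Γ d b = 0` for `d > D`; take the coefficient. (One can also avoid `A₁` by working over
`MvPolynomial (Idx N ⊕ Fin 3 × Fin 3) ℝ` with weighted homogeneous components.) -/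
def G_E0 : Prop := ∀ N M : ℕ, ∃ (D : ℕ)
  (Γ : ℕ → (Idx N → ℝ) → MvPolynomial (Fin 3 × Fin 3) ℝ),
  (∀ d b, (Γ d b).IsHomogeneous d) ∧ (∀ d b, D < d → Γ d b = 0) ∧
  (∀ d m, Continuous fun b => MvPolynomial.coeff m (Γ d b)) ∧
  (∀ (b : Idx N → ℝ) (s : ℝ) (X : M3),
    Ph M (fun α => s ^ dg α * b α) X = ∑ d ∈ Finset.range (D + 1), s ^ d * evM (Γ d b) X) ∧
  (∀ (b : Idx N → ℝ) (Z : Matrix (Fin 3) (Fin 3) ℂ) (w : ℕ),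
    (Ph M (fun α => Polynomial.C (b α : ℂ))
      (Matrix.of fun i k => Polynomial.C (Z i k) * Polynomial.X)).coeff w = evC (Γ w b) Z)

/-- **E1. Truncation.** Proof (`G_E0` as hypothesis). With `b α = s^(wt α - dg α) â α`
(`dg ≤ wt`), `|b α| ≤ C`, `s^wt â = s^dg b`, so `Ph M (s^wt â) R = ∑_{d ≤ D} s^d evM (Γ d b) R`.
Let `P = ∑_{d ≤ min(N,D)} s^d • Γ d b`, total degree `≤ N`. The rest is
`∑_{N < d ≤ D} s^d evM (Γ d b) R`, at most `s^(N+1) ∑_{d ≤ D} |evM (Γ d b) R|`, and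
`|evM (Γ d b) R| ≤ ∑_m |coeff m (Γ d b)|` (entries of `R` are `≤ 1` in absolute value;
`m` ranges over the finite set of exponents of degree `d`), bounded for `b` in the compact box
`|b α| ≤ C` by continuity. -/
def G_E1 : Prop := ∀ (N M : ℕ) (C : ℝ), ∃ C' : ℝ, 0 < C' ∧
  ∀ (s : ℝ) (a : Idx N → ℝ), 0 ≤ s → s ≤ 1 → (∀ α, |a α| ≤ C) →
    ∃ P : MvPolynomial (Fin 3 × Fin 3) ℝ, P.totalDegree ≤ N ∧
      ∀ R ∈ SO3, |Ph M (fun α => s ^ wt α * a α) R - evM P R| ≤ C' * s ^ (N + 1)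

/-- **E3. Fourier functional.** Proof. With `u = e^{ix}` one has
`A Rot x B = u Z₊ + Z₀ + u⁻¹ Z₋`, `Z₋ = Zm A B`, `Z₊` its conjugate, `Z₀ = A_{·2} B_{2·}` (check
on `Rot x`: `cos x = (u+u⁻¹)/2`, `sin x = (u - u⁻¹)/(2i)`). For a homogeneous `P` of degree `d`:
`P(A Rot x B) = u^{-d} P(Z₋ + u Z₀ + u² Z₊) = u^{-d} Q(u)`, `Q` a polynomial in `u` with
`Q(0) = P(Z₋)`. So `P(A Rot x B) e^{iwx} = u^{w-d} Q(u)`, whose integral over `[0,2π]` is zero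
for `d < w` and `2π Q(0)` for `d = w` (`∫ e^{ikx} = 0` for `k ≥ 1`). -/
def G_E3 : Prop := ∀ (P : MvPolynomial (Fin 3 × Fin 3) ℝ) (d w : ℕ) (A B : M3),
  P.IsHomogeneous d →
  (d < w → ∫ x in (0 : ℝ)..2 * π,
    (evM P (A * Rot x * B) : ℂ) * Complex.exp (Complex.I * w * x) = 0) ∧
  (d = w → ∫ x in (0 : ℝ)..2 * π,
    (evM P (A * Rot x * B) : ℂ) * Complex.exp (Complex.I * w * x) = 2 * π * evC P (Zm A B))

/-- **E2. The null equations for the limit.** Proof (`G_E0`, `G_E3` as hypotheses). Put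
`b_k α = s_k^(wt α - dg α) â_k α`; then `b_k → b* α = (if 2 ≤ dg α then â* α else 0)` (for
`dg α ≥ 2` the exponent is 0, for `dg α ≤ 1` it is positive), and
`q_k(R) := Ph M (s_k^wt â_k) R = ∑_{d ≤ D} s_k^d evM (Γ d b_k) R`. For `A, B ∈ SO3`
`A Rot x B ∈ SO3`; apply `c(q) = (2π)⁻¹ ∫_0^{2π} q(A Rot x B) e^{iwx} dx`, `|c(q)| ≤ sup_{SO3}|q|`:
`|c(q_k)| ≤ C s_k^(N+1)`. By `G_E3` the terms `d < w` vanish, the term `d = w` is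
`s_k^w evC (Γ w b_k) (Zm A B)`, the terms `d > w` are at most `C'' s_k^(w+1)` (`b_k` bounded).
Divide by `s_k^w` (`w ≤ N`): `evC (Γ w b_k) (Zm A B) → 0`. By continuity in `b` it tends to
`evC (Γ w b*) (Zm A B)`, which is the coefficient in question. If `w > D` the
coefficient is `evC (Γ w b*) Z = 0` because `Γ w b* = 0`. -/
def G_E2 : Prop := ∀ (N M : ℕ) (C : ℝ) (s : ℕ → ℝ) (ah : ℕ → Idx N → ℝ) (as : Idx N → ℝ),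
  (∀ k, 0 < s k) → Tendsto s atTop (𝓝 0) → Tendsto ah atTop (𝓝 as) →
  (∀ k, ∀ R ∈ SO3, |Ph M (fun α => s k ^ wt α * ah k α) R| ≤ C * s k ^ (N + 1)) →
  ∀ A ∈ SO3, ∀ B ∈ SO3, ∀ w ≤ N,
    (Ph M (fun α => if 2 ≤ dg α then Polynomial.C (as α : ℂ) else 0)
      (Matrix.of fun i k => Polynomial.C (Zm A B i k) * Polynomial.X)).coeff w = 0

end Pool.Agent.Helper26.LU
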