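import Pool.Agent.Helper26.LU.GoalsT
import Pool.Agent.Helper26.LU.GoalsD
import Pool.Agent.Helper26.LU.GoalsB

/-!
# Project LU: all goals
-/
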