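import Pool.Agent.Helper26.LU.Base2

/-!
# Project LU: goals, part T (averages, total variation lemma, coercivity)

Every `G_*` is a proposition; its docstring contains a complete proof.  Basic facts:
`Base.lean` (vertices `e_dot e_sum e_frame e_sph`, rotations `mem_SO3 SO3_left SO3_transpose
SO3_mul dot_mulVec mulVec_sph Rot_SO3 Rot_e0 Rot_per Rot_add Bm_SO3 Bm_mulVec Bm_self sg_SO3
sg_e0 exists_rot`, norms `nrm_* proj_* dot_le`), `Base2.lean` (`isCompact_SO3`, instances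
`CompactSpace ↥SO3`, `IsTopologicalGroup ↥SO3`, `mon_bound ev_bound mon_lip ev_lip
ev_continuous Ti_zero Ti_succ yv_zero yh_zero Rk_zero Qp_zero FA_zero FB_zero Sm_SO3 Ti_bound
yv_near cont_comp tavg_const tavg_le tavg_smul tavg_add`).
-/

namespace Pool.Agent.Helper26.LU

open MeasureTheory Matrix Real Filter Topology

/-- **M1. Haar measure.** Proof: `↥SO3` (a subtype of the submonoid
`Matrix.specialOrthogonalGroup (Fin 3) ℝ`, on which Mathlib has a `Group` instance) is a compact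
topological group (`Base2.lean`), Hausdorff, with its Borel sets. Take the Haar measure
(`MeasureTheory.Measure.haar`) divided by its total mass (finite and positive by compactness). It
is left invariant and positive on nonempty open sets. Push it forward by `R ↦ R⁻¹`
(`Measure.inv`): this makes it right invariant, still a probability measure, positive on nonempty
open sets (the preimage of an open set is open and nonempty). (Alternatively Mathlib knows that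
Haar measure of a compact group is also right invariant.) -/
def G_M1 : Prop := ∃ μ : Measure ↥SO3, Haar3 μ

/-- **M6. Normal form.** On the unit sphere every monomial of degree at most `N` is a polynomial
of normal form of degree at most `N`. Proof: strong induction on `k`. If `k ≤ 1` take the
coordinate vector of the index `(i,j,k)` (`i ≤ N`, `j ≤ N`). If `k ≥ 2`, on the sphere
`z^k = z^(k-2) (1 - x² - y²)`, so the monomial is the sum of `x^i y^j z^(k-2)`,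
`- x^(i+2) y^j z^(k-2)`, `- x^i y^(j+2) z^(k-2)`, all of degree at most `N` with smaller exponent
of `z`; add the coefficient vectors (`ev` is additive in `c`). -/
def G_M6 : Prop := ∀ N i j k : ℕ, i + j + k ≤ N →
  ∃ c : Idx N → ℝ, ∀ x ∈ sph, x 0 ^ i * x 1 ^ j * x 2 ^ k = ev c x

/-- **M2a. Averaging a matrix monomial over the stabiliser of `e 0` gives a polynomial in
`R e 0`.** Proof (`G_M6` may be used as a hypothesis). Let `Y, Z, X` be the columns 0, 1, 2 of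
`R`; `X = R e 0`. The columns of `R * Rot θ` are `cos θ Y + sin θ Z`, `-sin θ Y + cos θ Z`, `X`.
Over `ℂ` put `U = Y + i Z`, `W = Y - i Z`. Then column 0 is `(e^{-iθ} U + e^{iθ} W)/2`, column 1 is
`(e^{-iθ} U - e^{iθ} W)/(2i)`. Expanding the product of the `n` entries gives a linear combination
(coefficients depend only on `q`) of terms
`e^{iθ(b-a)} ∏_{a indices} U_p ∏_{b indices} W_p ∏_{others} X_p`. The average over `θ ∈ [0,2π]`
kills the terms with `a ≠ b`; for `a = b` pair the factors `U` with the factors `W`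
(`a` pairs): since `R Rᵀ = 1` and `Y × Z = X` (`det R = 1`),
`U_p W_q = Y_p Y_q + Z_p Z_q - i (Y_p Z_q - Z_p Y_q) = δ_{pq} - X_p X_q - i ε_{pqr} X_r`,
a polynomial of degree at most 2 in `X`. So every remaining term is a polynomial in `X` of degree
at most `2a + (n - 2a) = n ≤ N`, hence so is the average, with complex coefficients; it is real,
so take real parts of the coefficients; on the sphere it is of normal form by `G_M6`
(`X = R e 0 ∈ sph`).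
A convenient way to organise this: let `𝒫_d` be the set of functions
`f : M3 → ℂ` such that on `SO3` `f R = P(R e 0)` with `P` a complex polynomial of degree `≤ d`;
`R ↦ R_{p2} ∈ 𝒫_1`, `U_p W_q ∈ 𝒫_2`, `𝒫_c 𝒫_d ⊆ 𝒫_{c+d}`. -/
def G_M2a : Prop := ∀ N n : ℕ, n ≤ N → ∀ p q : Fin n → Fin 3,
  ∃ c : Idx N → ℝ, ∀ R ∈ SO3,
    (∫ x in (0 : ℝ)..2 * π, ∏ i, (R * Rot x) (p i) (q i)) / (2 * π) = ev c (R *ᵥ e 0)

/-- **M2. Functions nearly orthogonal to the polynomials of degree `≤ N` on the sphere are nearly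
orthogonal to the matrix monomials.** Proof (`G_M2a` as hypothesis). First `w = e 0`. By right
invariance under `Rot x` (an element of `↥SO3`; `Rot x *ᵥ e 0 = e 0`) and Fubini (everything is
continuous on a compact space)
`∫ ∏ R_{p_i q_i} h(R e 0) dμ = ∫ [(2π)⁻¹ ∫_0^{2π} ∏ (R Rot x)_{p_i q_i} dx] h(R e 0) dμ
  = ∑_α c_α ∫ mon α (R e 0) h(R e 0) dμ`, of absolute value at most `(∑ |c_α|) τ`; there are
finitely many `(n,p,q)` with `n ≤ N`, let `C₀` be a bound of all the `∑ |c_α|`.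
General `w ∈ sph`: take `B ∈ SO3` with `B e 0 = w` (`exists_rot`). By right invariance under `B`,
with `R' = R B`, `R = R' Bᵀ`, `R w = R' e 0`: the integral equals
`∫ ∏_i (R' Bᵀ)_{p_i q_i} h(R' e 0) dμ`, `(R' Bᵀ)_{pq} = ∑_k R'_{pk} B_{qk}`; expand the product
(`Finset.prod_univ_sum`): it is a sum over `k : Fin n → Fin 3` (`3^n` terms) of
`∏ B_{q_i k_i}` (absolute value `≤ 1`, `SO3_entry_le`) times the integral with monomial
`∏ R_{p_i k_i}`, at most `C₀ τ`. So `C = 3^N C₀ + 1` works (note `τ ≥ 0` since it bounds an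
absolute value, `Idx N` is nonempty). -/
def G_M2 : Prop := ∀ μ : Measure ↥SO3, Haar3 μ → ∀ N : ℕ, ∃ C : ℝ, 0 < C ∧
  ∀ (h : V → ℝ) (τ : ℝ), ContinuousOn h sph →
    (∀ α : Idx N, |∫ R : ↥SO3, h (R.1 *ᵥ e 0) * mon α (R.1 *ᵥ e 0) ∂μ| ≤ τ) →
    ∀ n ≤ N, ∀ p q : Fin n → Fin 3, ∀ w ∈ sph,
      |∫ R : ↥SO3, (∏ i, R.1 (p i) (q i)) * h (R.1 *ᵥ w) ∂μ| ≤ C * τ

/-- **M3. Approximate identity.** Proof: for `R ∈ SO3` `∑_{ij} (R_ij - δ_ij)² = 6 - 2 tr R`, so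
`tr R ≤ 3`; and `tr R ≥ -1` (for instance: `det R = 1` and orthogonality give the eigenvalue 1,
`tr R = 1 + 2 cos ω`; or: with `S = (R + Rᵀ)/2`; a slick way: a unit vector `v` with `R v = v`
exists because `det (R - 1) = det (R - R Rᵀ) = det R det (1 - Rᵀ) = -det (R - 1)` in dimension 3,
so `det (R - 1) = 0`; conjugating by `B ∈ SO3` with `B e 0 = v`, `BᵀRB` fixes `e 0`, so it is
block diagonal with a rotation block `[[c,-s],[s,c]]`, `tr = 1 + 2c ≥ -1`). So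
`0 ≤ 1 + tr R ≤ 4`. The set `{tr R > 3 - δ/2}` is open and contains 1, so it has measure
`m > 0`, and the integral of `(1 + tr R)^n` over `SO3` is at least `m (4 - δ/2)^n > 0` (if
`δ ≥ 4` replace it by a smaller one, the first integral grows in the set; or treat `δ ≥ 2` by
monotonicity). The integral over `{tr R ≤ 3 - δ}` is at most `(4 - δ)^n`. The quotient
`((4 - δ)/(4 - δ/2))^n / m → 0`. -/
def G_M3 : Prop := ∀ μ : Measure ↥SO3, Haar3 μ →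
  (∀ R ∈ SO3, 0 ≤ 1 + Matrix.trace R ∧ Matrix.trace R ≤ 3) ∧
  ∀ δ : ℝ, 0 < δ → ∀ η : ℝ, 0 < η → ∃ n : ℕ,
    0 < ∫ R : ↥SO3, (1 + Matrix.trace R.1) ^ n ∂μ ∧
    ∫ R in {R : ↥SO3 | Matrix.trace R.1 ≤ 3 - δ}, (1 + Matrix.trace R.1) ^ n ∂μ
      ≤ η * ∫ R : ↥SO3, (1 + Matrix.trace R.1) ^ n ∂μ

/-- **M5. Norm equivalence.** Proof: `Ψ(a) = ∫ (ev a (R e 0))² dμ` is continuous in `a` (finite
sum: `Ψ(a) = ∑ a_α a_β ∫ mon α mon β`) and homogeneous of degree 2. On the compact unit sphere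
`‖a‖ = 1` it attains its minimum `c`; claim `c > 0`. If `Ψ(a) = 0` then the nonnegative
continuous function `R ↦ (ev a (R e 0))²` has integral zero, so it vanishes everywhere
(otherwise it is `> ε` on a nonempty open set of positive measure), so `ev a = 0` on `sph`
(`exists_rot`). Vanishing lemma: `ev a (x,y,z) = P(x,y) + z Q(x,y)` with
`P = ∑ a_{ij0} x^i y^j`, `Q = ∑ a_{ij1} x^i y^j`; for `x² + y² < 1` the points
`(x, y, ±√(1-x²-y²))` are on the sphere, so `P(x,y) = 0` and `Q(x,y) = 0` there, so both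
polynomials vanish on a nonempty open set (on a product of two infinite sets), hence all
coefficients vanish (`MvPolynomial.funext_set`-type lemmas or twice the one variable fact), so
`a = 0`. If `Idx N` has only ... it is never empty. -/
def G_M5 : Prop := ∀ μ : Measure ↥SO3, Haar3 μ → ∀ N : ℕ, ∃ c : ℝ, 0 < c ∧
  ∀ a : Idx N → ℝ, c * ‖a‖ ^ 2 ≤ ∫ R : ↥SO3, (ev a (R.1 *ᵥ e 0)) ^ 2 ∂μ

/-! ### The total variation lemma -/

/-- `C²`-bounds for a doubly periodic function. -/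
structure C2bd {E : Type} [NormedAddCommGroup E] [NormedSpace ℝ E] (F : ℝ × ℝ → E) (B : ℝ) :
    Prop where
  smooth : ContDiff ℝ 2 F
  per : Per2 F
  b0 : ∀ z, ‖F z‖ ≤ B
  bx : ∀ z, ‖dx F z‖ ≤ B
  bY : ∀ z, ‖dy F z‖ ≤ B
  bxx : ∀ z, ‖dx (dx F) z‖ ≤ B
  bxy : ∀ z, ‖dx (dy F) z‖ ≤ B
  byx : ∀ z, ‖dy (dx F) z‖ ≤ B
  byy : ∀ z, ‖dy (dy F) z‖ ≤ B

/-- `C¹`-closeness. -/
def C1near {E : Type} [NormedAddCommGroup E] [NormedSpace ℝ E] (F G : ℝ × ℝ → E) (ε : ℝ) :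
    Prop := ∀ z, ‖F z - G z‖ ≤ ε ∧ ‖dx F z - dx G z‖ ≤ ε ∧ ‖dy F z - dy G z‖ ≤ ε

/-- The weight `J²/(J² + τ)`. -/
noncomputable def wJ (τ : ℝ) (F : ℝ × ℝ → V) (z : ℝ × ℝ) : ℝ :=
  Jac F z ^ 2 / (Jac F z ^ 2 + τ)

/-- **T1a. Integration by parts on the torus.** Proof: `dx (A u) = A dx u + u dx A` and
`∫_0^{2π} dx(A u)(x,y) dx = (Au)(2π,y) - (Au)(0,y) = 0` by periodicity
(`intervalIntegral.integral_eq_sub_of_hasDerivAt`; `dx f (x,y)` is the derivative of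
`x ↦ f (x,y)`), and the same for `y`; exchange the order of integration
(`MeasureTheory.intervalIntegral_swap`/Fubini for continuous functions). All functions are
continuous. -/
def G_T1a : Prop := ∀ A B u : ℝ × ℝ → ℝ, ContDiff ℝ 1 A → ContDiff ℝ 1 B → ContDiff ℝ 1 u →
  Per2 A → Per2 B → Per2 u →
  tavg (fun x y => A (x, y) * dx u (x, y) + B (x, y) * dy u (x, y))
    = -tavg (fun x y => u (x, y) * (dx A (x, y) + dy B (x, y)))

/-- **T1b. Key inequality.** Write `v = F₁ - F₀`, `H_s = F₀ + s v` (`s ∈ [0,1]`, never zero),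
`J_s = Jac H_s = det(∂x H_s, ∂y H_s, H_s)`, `w_s = J_s²/(J_s² + τ)`, `q_s = J_s/(J_s² + τ)`,
`ĝ(x) = g(proj x)` (a `C¹` function on `V ∖ {0}`, constant on rays, so `Dĝ(x)[x] = 0`),
`u_s = ĝ ∘ H_s` (`C¹` on the torus, `|u_s| ≤ E`). Cramer's rule:
`J_s v = D₁ ∂x H_s + D₂ ∂y H_s + D₃ H_s` with `D₁ = det(v, ∂y H, H)`, `D₂ = det(∂x H, v, H)`,
`D₃ = det(∂x H, ∂y H, v)`. Hence `J_s ∂_s u_s = J_s Dĝ(H_s)[v] = D₁ ∂x u_s + D₂ ∂y u_s`. So
`d/ds tavg(h w_s u_s) = tavg(h (∂_s w_s) u_s) + tavg(h q_s J_s ∂_s u_s)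
 = tavg(h (∂_s w_s) u_s) + tavg(h q_s D₁ ∂x u_s + h q_s D₂ ∂y u_s)
 = tavg(h (∂_s w_s) u_s) - tavg(u_s (∂x(h q_s D₁) + ∂y(h q_s D₂)))` by `G_T1a` (as hypothesis).
`J_s` is a polynomial in `s` with `C¹` coefficients; `|∂_s w_s| ≤ C |∂_s J_s| ≤ C ε'`, and
`|∂x(h q_s D₁)|, |∂y(h q_s D₂)| ≤ C ε'` because `D₁, D₂` and their first derivatives are bounded
by `C ε'` (each term contains `v`, `∂x v` or `∂y v` linearly, e.g.
`∂x D₁ = det(∂x v, ∂y H, H) + det(v, ∂x∂y H, H) + det(v, ∂y H, ∂x H)`), `q_s` and its derivatives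
are bounded in terms of `B, τ`. So `|d/ds tavg(h w_s u_s)| ≤ C ε' E`; integrate over `s ∈ [0,1]`
(mean value inequality). The derivative under the integral sign: everything is continuous in
`(s,z)` on `[0,1] × torus`.  (`J_s` for the curve: extend to `s` in a neighbourhood of `[0,1]`,
where `H_s ≠ 0` still holds by compactness, or use one-sided derivatives /
`image_norm_le_of_norm_deriv_right_le_deriv_boundary`-type lemmas, or continuity on `[0,1]` and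
differentiability in the open interval.) All constants depend only on `B, τ`. -/
def G_T1b : Prop := ∀ B : ℝ, 1 ≤ B → ∀ τ : ℝ, 0 < τ → ∃ C : ℝ, 0 < C ∧
  ∀ (F₀ F₁ : ℝ × ℝ → V) (h : ℝ × ℝ → ℝ), C2bd F₀ B → C2bd F₁ B → C2bd h B →
    (∀ s ∈ Set.Icc (0 : ℝ) 1, ∀ z, F₀ z + s • (F₁ z - F₀ z) ≠ 0) →
    ∀ (g : V → ℝ) (E : ℝ), ContDiff ℝ 1 g → (∀ u ∈ sph, |g u| ≤ E) →
    ∀ ε : ℝ, 0 ≤ ε → C1near F₁ F₀ ε →
    |tavg (fun x y => h (x, y) * (wJ τ F₁ (x, y) * g (proj (F₁ (x, y)))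
        - wJ τ F₀ (x, y) * g (proj (F₀ (x, y)))))| ≤ C * ε * E

/-- **T1c. Density of smooth functions.** Proof: the sphere is compact; by Stone-Weierstrass
(`ContinuousMap.subalgebra_topologicalClosure_eq_top_of_separatesPoints` for the subalgebra of
`C(sph, ℝ)` generated by the three coordinate functions) the restriction of `g` is within `ε` of
a polynomial in the coordinates, which is a smooth function on `V`. -/
def G_T1c : Prop := ∀ g : V → ℝ, ContinuousOn g sph → ∀ ε : ℝ, 0 < ε →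
  ∃ g' : V → ℝ, ContDiff ℝ 1 g' ∧ ∀ u ∈ sph, |g u - g' u| ≤ ε

/-- **T1e. Uniform bounds near `p₀`.** Proof: `F` is `C²` in a neighbourhood of every point
`(p₀,z)`, `z ∈ K = [0,2π]²` (`ContDiffAt.eventually`; the exponent 2 is finite); by compactness
(tube lemma) there is a neighbourhood `U` of `p₀` such that `F` is `C²` at all points of
`U × K`, hence of `U × ℝ²` by periodicity. The maps `(p,z) ↦ F, D_z F, D_z² F` (which compute
`dx, dy, dx dx, ...` of `F(p,·)`) are continuous on `U × ℝ²`; so bounded on (a smaller)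
`U' × K` by some `B`, and for every `ε > 0` the set of `(p,z)` with
`‖F(p,z) - F(p₀,z)‖ < ε` and the same for the first derivatives is an open set containing
`{p₀} × K`, so it contains `U'' × K` (tube lemma again). Periodicity extends everything from `K`
to `ℝ²` (the derivatives are periodic too). -/
def G_T1e : Prop := ∀ (E : Type) [NormedAddCommGroup E] [NormedSpace ℝ E] (N : ℕ)
  (F : Par N × ℝ × ℝ → E) (p₀ : Par N), (∀ p, Per2 (fun z => F (p, z))) →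
  (∀ z : ℝ × ℝ, ContDiffAt ℝ 2 F (p₀, z)) →
  ∃ B : ℝ, 1 ≤ B ∧ ∀ ε : ℝ, 0 < ε → ∀ᶠ p in 𝓝 p₀,
    C2bd (fun z => F (p, z)) B ∧ C1near (fun z => F (p, z)) (fun z => F (p₀, z)) ε

/-- **T1. Total variation lemma at a point.** Proof (hypotheses `G_T1b`, `G_T1c`, `G_T1e`). Let
`B` bound `F` and `h` (`G_T1e` twice, maximum). Put `J₀ = Jac (F(p₀,·))`, `K_τ = tavg(τ/(J₀²+τ))`;
`K_τ → 0` as `τ → 0+` by dominated convergence, since `J₀ ≠ 0` almost everywhere. Choose `τ` with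
`B K_τ ≤ η/8`, `C = C(B,τ)` from `G_T1b`. Let `m > 0` be the minimum of `‖F(p₀,·)‖` over the torus;
for `ε' < m` and `C1near F_p F_{p₀} ε'` the homotopy never vanishes, in particular `F_p ≠ 0`. Then
`|tavg(h_p g(F_p)) - tavg(h₀ g(F₀))| ≤ tavg|h_p - h₀| E + |tavg(h₀ (g(F_p) - g(F₀)))|`
(where `g(F)` means `g(proj F)`), the first is `≤ ε' E`, the second is at most
`|tavg(h₀(w_p g(F_p) - w₀ g(F₀)))| + B E tavg(1 - w_p) + B E tavg(1 - w₀)`, `w = J²/(J²+τ)`,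
`1 - w = τ/(J²+τ)`, `tavg(1 - w₀) = K_τ`, `|w_p - w₀| ≤ |J_p² - J₀²|/τ ≤ C' ε'/τ`. The first term
is `≤ C ε' (E+ε'')+ 2 B ε''` for every `ε'' > 0` by `G_T1b` applied to a `C¹` approximation of `g`
(`G_T1c`), hence `≤ C ε' E`. Choose `ε'` small: the total is `≤ η E`. (`E ≥ 0` since the sphere is
nonempty.) All functions under `tavg` are continuous (`cont_comp`), use `tavg_le` for pointwise
bounds, `tavg_add` for sums, monotonicity of the integral for `|tavg f| ≤ tavg |f|`. -/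
def G_T1 : Prop := ∀ (N : ℕ) (F : Par N × ℝ × ℝ → V) (h : Par N × ℝ × ℝ → ℝ) (p₀ : Par N),
  (∀ p, Per2 (fun z => F (p, z))) → (∀ p, Per2 (fun z => h (p, z))) →
  (∀ z : ℝ × ℝ, ContDiffAt ℝ 2 F (p₀, z)) → (∀ z : ℝ × ℝ, ContDiffAt ℝ 2 h (p₀, z)) →
  (∀ z : ℝ × ℝ, F (p₀, z) ≠ 0) →
  (∀ᵐ z : ℝ × ℝ, Jac (fun z => F (p₀, z)) z ≠ 0) →
  ∀ η : ℝ, 0 < η → ∀ᶠ p in 𝓝 p₀,
    Continuous (fun z => F (p, z)) ∧ Continuous (fun z => h (p, z)) ∧ (∀ z, F (p, z) ≠ 0) ∧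
    ∀ (g : V → ℝ) (E : ℝ), ContinuousOn g sph → (∀ u ∈ sph, |g u| ≤ E) →
      |tavg (fun x y => h (p, x, y) * g (proj (F (p, x, y))))
        - tavg (fun x y => h (p₀, x, y) * g (proj (F (p₀, x, y))))| ≤ η * E

/-- **TU. Uniform version.** Proof (`G_T1` as hypothesis): apply `G_T1` with `η/2` at every
`(0,Q₀)`, `Q₀ ∈ SO3`; the eventual property holds in a neighbourhood of `(0,Q₀)`, which contains
`{(a,Q) : ‖a‖ ≤ 2 δ(Q₀), ∀ i j, |Q i j - Q₀ i j| ≤ 2 δ(Q₀)}`. By compactness of `SO3`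
(`isCompact_SO3`) finitely many of the open sets `{Q : ∀ i j, |Q i j - Q₀ i j| < δ(Q₀)}` cover
`SO3`; `δ` = the minimum of their `δ(Q₀)`. Given `Q, Q'` with entries `δ`-close, `Q` is in one of
the sets, so both `(a,Q')` and `(0,Q)` are in the neighbourhood of that `(0,Q₀)`; triangle
inequality: `η/2 + η/2`. -/
def G_TU : Prop := ∀ (N : ℕ) (F : Par N × ℝ × ℝ → V) (h : Par N × ℝ × ℝ → ℝ), TVok F h →
  ∀ η : ℝ, 0 < η → ∃ δ : ℝ, 0 < δ ∧ ∀ a : Idx N → ℝ, ‖a‖ ≤ δ → ∀ Q ∈ SO3, ∀ Q' ∈ SO3,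
    (∀ i j, |Q i j - Q' i j| ≤ δ) →
    Continuous (fun z => F ((a, Q'), z)) ∧ Continuous (fun z => h ((a, Q'), z)) ∧
    (∀ z, F ((a, Q'), z) ≠ 0) ∧
    ∀ (g : V → ℝ) (E : ℝ), ContinuousOn g sph → (∀ u ∈ sph, |g u| ≤ E) →
      |tavg (fun x y => h ((a, Q'), x, y) * g (proj (F ((a, Q'), x, y))))
        - tavg (fun x y => h ((0, Q), x, y) * g (proj (F ((0, Q), x, y))))| ≤ η * E

/-! ### The maps of the chain -/

/-- **T2. The Jacobian of the unperturbed chain is nonzero almost everywhere.** Let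
`σ ∈ SO3`, `σ e 0 = e j`, `j ≠ 0`, `k ≠ 0`, `F(x,y) = Q Rot x σ Rot y e_k`. Proof: let
`w = σ Rot y e_k`. As `Rot' x = Rot x · crossM(e 0)` and `Rot' y = Rot y · crossM(e 0)`, and
rotations commute with the cross product: `∂x F = Q Rot x (e 0 × w)`,
`∂y F = Q Rot x σ (e 0 × Rot y e_k) = Q Rot x (e j × w)`. So
`Jac F = det(e 0 × w, e j × w, w) = (w·w) det(e 0, e j, w) = det(e 0, e j, σ Rot y e_k)`.
With `p = σᵀ e 0`, `σᵀ e j = e 0` it equals `det(p, e 0, Rot y e_k)`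
`= (p × e 0) · (Rot y e_k)`. Here `p·e 0 = e 0 · e j = -1/3`, so `p × e 0 ≠ 0` is a horizontal
vector `(p 1, -p 0, 0)`, and `Rot y e_k` has horizontal part
`(cos y c - sin y s, sin y c + cos y s)`, `(c,s) = (e_k 0, e_k 1) ≠ 0`. So the Jacobian is
`A cos y + B sin y` with `A² + B² = (p 0² + p 1²)(c² + s²) > 0`; it vanishes only for countably
many `y` (zeros of a nonzero analytic function; or `cos(y - y₀) = 0`), a null set of `ℝ × ℝ`.
(In our case `c² + s² = 8/9 = p 0² + p 1²`.) -/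
def G_T2 : Prop := ∀ Q ∈ SO3, ∀ σ ∈ SO3, ∀ j k : Fin 4, σ *ᵥ e 0 = e j → j ≠ 0 → k ≠ 0 →
  ∀ᵐ z : ℝ × ℝ, Jac (fun z : ℝ × ℝ => (Q * Rot z.1 * σ * Rot z.2) *ᵥ e k) z ≠ 0

/-- **S1. The iterates of the translation are smooth** (they are polynomials in the coordinates
of `a` and the entries of `R`). Proof: induction on `k` with `Ti_succ`; `ev a x` is a
finite sum of products of coordinates. -/
def G_S1 : Prop := ∀ N k : ℕ,
  ContDiff ℝ 2 (fun x : Par N => Ti x.1 (Matrix.of x.2 : M3) k)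

/-- **S2. The iterates `Rk` are smooth at `(0,Q₀)`.** Proof: induction on `k` (`G_S1` as
hypothesis). `Rk (k+1) = Bm(p,q)ᵀ Q` with `p = Rk k · e 0`, `q = yh(Rk k) 0 = proj(yv(Rk k) 0)`.
At `a = 0`: `Rk k = Q₀` (`Rk_zero`), `yv = Q₀ e 0` (`yv_zero`) of length 1, so `proj` is smooth
there (`nrm` is smooth where `x ⬝ᵥ x ≠ 0`), `p = q`, `1 + p·q = 2 ≠ 0`, and the entries of
`Bm p q` are polynomials in `p, q` and `(1 + p·q)⁻¹`. Compose. -/
def G_S2 : Prop := ∀ N M k : ℕ, ∀ Q : M3, Q ∈ SO3 → ContDiffAt ℝ 2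
  (fun x : Par N => (fun i j => Rk M x.1 (Matrix.of x.2 : M3) k i j : Fin 3 → Fin 3 → ℝ))
  ((0, Q) : Par N)

/-- **TA. The chain map is admissible.** Proof (`G_S1`, `G_S2`, `G_T2` as hypotheses).
Periodicity: `x, y` enter only through `Rot x`, `Rot y` (`Rot_per`). Smoothness at
`((0,Q),(x,y))`: `Q * Rot x` is a smooth function of `(Q,x)` with value in `SO3`; `Rk` of it is
smooth by composition with `G_S2` (the point `(0, Q * Rot x)`); `yh M a (Rk ...) j =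
proj (yv ...)`, `yv` smooth by `G_S1`, nonzero at `a = 0`; `Bm(p,q)` with
`p = q = Q Rot x e j` at `a = 0`; so `Qp` is smooth, with value `Q Rot x sg j Rot y ∈ SO3` at
`a = 0` (`Qp_zero`); again `Rk` by `G_S2` at `(0, Q Rot x sg j Rot y)` and `yv`. Nonvanishing: at
`a = 0` the value is `(Q Rot x sg j Rot y) e k`, a unit vector (`FA_zero`). Jacobian: `FA_zero`
and `G_T2` (`sg_SO3`, `sg_e0`). -/
def G_TA : Prop := ∀ (N M : ℕ) (j k : Fin 4), j ≠ 0 → k ≠ 0 →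
  TVok (FA N M j k) (fun _ => 1)

/-- **TB. The second family is admissible.** Proof (`G_S1`, `G_T2` as hypotheses): as `G_TA` but
simpler; `FB_zero`: at `a = 0` the map is `(Q Rot x sg 1 Rot y) e 1`, `G_T2` with `j = k = 1`. -/
def G_TB : Prop := ∀ (N M : ℕ) (j : Fin 4) (n : ℕ) (p q : Fin n → Fin 3),
  TVok (FB N M j) (hB N j n p q)

/-- **T5. Approximate inverse of `R ↦ yh M a R 0`.** Proof. All vectors/matrices below are
bounded, `C` denotes constants depending on `N, M`; norms of matrices: maximal entry.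
(1) For unit vectors `p, q, p', q'` with `‖q - p‖, ‖q' - p'‖` small (so `1 + p·q ≥ 1`), put
`d = q - p`, `d' = q' - p'`, `w = p × q = p × d`, `w' = p' × d'`. Then
`‖w - w'‖ ≤ C (‖p - p'‖ ‖d‖ + ‖d - d'‖)` and
`‖Bm p q - Bm p' q'‖ ≤ C (‖p - p'‖ (‖d‖ + ‖d'‖) + ‖d - d'‖)`, `‖Bm p q - 1‖ ≤ C ‖d‖`.
(2) For `R, R' ∈ SO3`, `‖a‖ ≤ δ`: `‖Ti a R k - Ti a R' k‖ ≤ C ‖a‖ ‖R - R'‖` (induction on `k`
with `Ti_succ`, `ev_bound`, `ev_lip`, `Ti_bound`). With `d(R) = yh M a R 0 - R e 0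
= proj(R e 0 + T) - R e 0`: `‖d(R)‖ ≤ C ‖a‖` (`yv_near`), and
`‖d(R) - d(R')‖ ≤ C ‖a‖ ‖R - R'‖`: write `proj x - x` ... with `x = R e 0 + T(R)`,
`|R e 0| = 1`: `proj(x) = x/|x|`, `1/|x| - 1 = (1 - |x|²)/(|x| (1 + |x|))`,
`|x|² - 1 = 2 R e 0 · T + |T|²` which is `O(‖a‖)` with Lipschitz constant `O(‖a‖)` in `R`; so
`d(R) = T + (1/|x| - 1) x` has the claimed Lipschitz constant.
(3) Put `R_k = Rk M a Q k`, `B_k = Bm (R_k e 0) (yh M a R_k 0)`, `R_{k+1} = B_kᵀ Q`. By induction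
`R_k ∈ SO3` (`Bm_SO3`, `1 + p·q ≠ 0` because `p, q` are close) and `‖R_k - Q‖ ≤ C ‖a‖`;
`‖R_{k+2} - R_{k+1}‖ ≤ C ‖B_{k+1} - B_k‖ ≤ C ‖a‖ ‖R_{k+1} - R_k‖` by (1), (2)
(`p = R e 0`, `d = d(R)`), and `‖R_1 - R_0‖ ≤ C ‖a‖`. So `‖R_{M+1} - R_M‖ ≤ (C ‖a‖)^{M+1}`.
(4) `yh M a R_M 0 = B_M R_M e 0` (`Bm_mulVec`) and `Q e 0 = B_M R_{M+1} e 0` (as
`B_M B_Mᵀ = 1`), so `‖yh M a R_M 0 - Q e 0‖ ≤ C ‖R_M - R_{M+1}‖ ≤ C ‖a‖^{M+1}`. -/
def G_T5 : Prop := ∀ N M : ℕ, ∃ C : ℝ, 0 < C ∧ ∃ δ : ℝ, 0 < δ ∧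
  ∀ a : Idx N → ℝ, ‖a‖ ≤ δ → ∀ Q ∈ SO3, Rk M a Q M ∈ SO3 ∧
    (∀ i j, |Rk M a Q M i j - Q i j| ≤ C * ‖a‖) ∧
    ‖yh M a (Rk M a Q M) 0 - Q *ᵥ e 0‖ ≤ C * ‖a‖ ^ (M + 1)

/-- **T8. The unperturbed chain average is small on functions nearly orthogonal to polynomials of
degree `≤ N`, `N` large.** Proof (hypotheses `G_TU`, `G_TA`, `G_M2`, `G_M3`). Fix `j, k ≠ 0`
(finitely many; take the maximum of the `N₀`). Let
`𝒦(Q) = tavg (g((Q Rot x sg j Rot y) e k))`. By `G_TU` for `FA 0 0 j k` (`G_TA`, `N = M = 0`,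
`a = 0`, `FA_zero`, `proj_self`) with `η/2`: there is `δ' > 0` such that for all `Q, Q' ∈ SO3`
with entries `δ'`-close and all continuous `g` with `|g| ≤ E`: `|𝒦(Q) - 𝒦(Q')| ≤ (η/2) E`.
For `P ∈ SO3` with `tr P ≥ 3 - δ''` (`δ''` small) the entries of `P - 1` are at most
`√(6 - 2 tr P)` so those of `PQ - Q` are at most `δ'`. By `G_M3` choose `n` with
`∫_{tr P ≤ 3 - δ''} ρ ≤ (η/4) ∫ ρ`, `ρ(P) = (1 + tr P)^n ≥ 0`; `N₀ = n`. Let `N ≥ n`. Then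
`𝒦(Q) ∫ρ = ∫ ρ(P) (𝒦(Q) - 𝒦(PQ)) dμ(P) + ∫ ρ(P) 𝒦(PQ) dμ(P)`; the first term is at most
`(η/2) E ∫ρ + 2E (η/4) ∫ρ = η E ∫ρ`; the second is, by Fubini (joint continuity in `P, x, y`),
`tavg (fun x y => ∫ ρ(P) g(P w) dμ(P))` with `w = (Q Rot x sg j Rot y) e k ∈ sph`, and
`ρ(P) = (1 + P_00 + P_11 + P_22)^n` is a sum of at most `4^n` monomials
`∏ P_{p_i q_i}` of degree at most `n ≤ N` (expand), so by `G_M2` (constant `C_N`) the second term
is at most `4^n C_N τ`. Divide by `∫ρ > 0`. -/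
def G_T8 : Prop := ∀ μ : Measure ↥SO3, Haar3 μ → ∀ η : ℝ, 0 < η → ∃ N₀ : ℕ, ∀ N : ℕ, N₀ ≤ N →
  ∃ C : ℝ, 0 < C ∧ ∀ (g : V → ℝ) (E τ : ℝ), ContinuousOn g sph → (∀ u ∈ sph, |g u| ≤ E) →
    (∀ α : Idx N, |∫ R : ↥SO3, g (R.1 *ᵥ e 0) * mon α (R.1 *ᵥ e 0) ∂μ| ≤ τ) →
    ∀ Q ∈ SO3, ∀ j k : Fin 4, j ≠ 0 → k ≠ 0 →
      |tavg (fun x y => g ((Q * Rot x * sg j * Rot y) *ᵥ e k))| ≤ η * E + C * τ

/-- **T9. Coercivity.** Proof (hypotheses `G_TU`, `G_TA`, `G_T5`, `G_T8`). Take `η = 1/36` in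
`G_T8` (this gives `N₀`), and for given `N, M` the `δ` of `G_TU` for the nine maps `FA N M j k`
(`j,k ≠ 0`, weight 1) with `η = 1/36`, of `G_T5`, and of `yv_near`. Let `u ∈ sph`, `Q ∈ SO3` with
`Q e 0 = u` (`exists_rot`). Fix `x, y`. `Q₁ = Q Rot x ∈ SO3`, `Q₁ e 0 = u`. `R = Rk M a Q₁ M`: by
`G_T5` `R ∈ SO3` and `‖yh M a R 0 - u‖ ≤ C₅ ‖a‖^{M+1}`, so
`|h u - h(yh M a R 0)| ≤ κ C₅ ‖a‖^{M+1}`, hence with the `D` bound at `R`:
`|h u + ∑_{j≠0} h(v_j)| ≤ D + κ C₅ ‖a‖^{M+1}`, `v_j = yh M a R j ∈ sph` (`yv_near`).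
For `j ≠ 0` let `Q'_j = Qp M a Q j x y = Bm (Q₁ e j) v_j · Q₁ · sg j · Rot y`. `v_j` is close to
`R e j` (`yv_near`) and `R` to `Q₁` (`G_T5`), so `1 + Q₁ e j · v_j ≠ 0` for `‖a‖` small, so
`Q'_j ∈ SO3` (`Bm_SO3`) and `Q'_j e 0 = Bm (Q₁ e j) v_j Q₁ e j = v_j` (`Rot_e0`, `sg_e0`,
`Bm_mulVec`). With `R'_j = Rk M a Q'_j M`:
`‖yh M a R'_j 0 - v_j‖ ≤ C₅ ‖a‖^{M+1}`, so `|h(v_j) + ∑_{k≠0} h(yh M a R'_j k)| ≤
D + κ C₅ ‖a‖^{M+1}`, and `yh M a R'_j k = proj (FA N M j k ((a,Q),x,y))` by definition. Together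
`|h u - ∑_{j,k≠0} h(proj(FA N M j k ((a,Q),x,y)))| ≤ 4D + 4κ C₅ ‖a‖^{M+1}` for all `x, y`. Average
over `x, y` (`tavg_const`, `tavg_add`, continuity from `G_TU` and `cont_comp`, `tavg_le`):
`|h u| ≤ 4D + 4κC₅‖a‖^{M+1} + ∑_{j,k≠0} |tavg (h(proj FA_jk((a,Q),·)))|`, and each of the nine
terms is at most `(1/36) E + |tavg(h((Q Rot x sg j Rot y) e k))| ≤ (1/36) E + (1/36) E + C₈ τ`
(`G_TU` with `Q = Q'`, `FA_zero`, `proj_self`; `G_T8`). Sum: `E/2 + 9 C₈ τ`. Finally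
`κ ≤ 1`, `‖a‖ ≤ 1`. -/
def G_T9 : Prop := ∀ μ : Measure ↥SO3, Haar3 μ → ∃ N₀ : ℕ, ∀ N : ℕ, N₀ ≤ N → ∀ M : ℕ,
  ∃ C : ℝ, 0 < C ∧ ∃ δ : ℝ, 0 < δ ∧ ∀ a : Idx N → ℝ, ‖a‖ ≤ δ →
  ∀ (h : V → ℝ) (κ E D τ : ℝ), 0 ≤ κ → κ ≤ 1 →
    (∀ u ∈ sph, ∀ v ∈ sph, |h u - h v| ≤ κ * ‖u - v‖) → (∀ u ∈ sph, |h u| ≤ E) →
    (∀ α : Idx N, |∫ R : ↥SO3, h (R.1 *ᵥ e 0) * mon α (R.1 *ᵥ e 0) ∂μ| ≤ τ) →
    (∀ R ∈ SO3, |∑ j, h (yh M a R j)| ≤ D) →
    ∀ u ∈ sph, |h u| ≤ E / 2 + 4 * D + C * τ + C * ‖a‖ ^ M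

/-- **T10. Test functionals.** Proof (hypotheses `G_TU`, `G_TB`, `G_M2`). There are finitely many
`(n,p,q)` with `n ≤ N` and four `j`; take the minimal `δ` of `G_TU` for `FB N M j`,
`hB N j n p q` with `η/4` and of `yv_near`. By right invariance under `Sm j x y ∈ SO3`
(`Sm_SO3`), averaging over `x, y` and Fubini (for `‖a‖ ≤ δ` the integrand is jointly continuous
in `(R,x,y)`: `yv M a R j` is a polynomial in `R`, and `yv ≠ 0`)
`∫ (∏ R_{p_i q_i}) h(yh M a R j) dμ = ∫ tavg (fun x y => hB N j n p q ((a,R),x,y)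
 * h(proj (FB N M j ((a,R),x,y)))) dμ(R)`. By `G_TU` (`Q = Q' = R`) this differs by at most
`(η/4) E` from the same expression with `a = 0`, which is (same identity, `yh_zero`)
`∫ (∏ R_{p_i q_i}) h(R e j) dμ`, at most `C₂ τ` in absolute value by `G_M2` (`w = e j`). Sum over
`j`: `η E + 4 C₂ τ`. -/
def G_T10 : Prop := ∀ μ : Measure ↥SO3, Haar3 μ → ∀ N M : ℕ, ∀ η : ℝ, 0 < η →
  ∃ C : ℝ, 0 < C ∧ ∃ δ : ℝ, 0 < δ ∧ ∀ a : Idx N → ℝ, ‖a‖ ≤ δ →
  ∀ (h : V → ℝ) (E τ : ℝ), ContinuousOn h sph → (∀ u ∈ sph, |h u| ≤ E) →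
    (∀ α : Idx N, |∫ R : ↥SO3, h (R.1 *ᵥ e 0) * mon α (R.1 *ᵥ e 0) ∂μ| ≤ τ) →
    ∀ n ≤ N, ∀ p q : Fin n → Fin 3,
      |∫ R : ↥SO3, (∏ i, R.1 (p i) (q i)) * ∑ j, h (yh M a R.1 j) ∂μ| ≤ η * E + C * τ

end Pool.Agent.Helper26.LU
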